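import Mathlib
import Pool.Agent.Lib.MP_ae024f_co.QuadResult

section
/-! Dense sets: enumeration of the tiles by their left ends, counting. -/
namespace MPae024f.DS

open Classical

/-- number of integers in `[a, b)` with property `p` -/
noncomputable def cnt (p : ℤ → Prop) (a b : ℤ) : ℤ := ((Finset.Ico a b).filter p).card

theorem cnt_nonneg (p : ℤ → Prop) (a b : ℤ) : 0 ≤ cnt p a b := by unfold cnt; positivity

theorem cnt_split (p : ℤ → Prop) {a b c : ℤ} (h1 : a ≤ b) (h2 : b ≤ c) :
    cnt p a c = cnt p a b + cnt p b c := by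
  unfold cnt
  rw [← Nat.cast_add, ← Finset.card_union_of_disjoint, ← Finset.filter_union,
    Finset.Ico_union_Ico_eq_Ico h1 h2]
  rw [Finset.disjoint_left]
  intro x hx hx'
  rw [Finset.mem_filter, Finset.mem_Ico] at hx hx'
  omega

theorem cnt_congr {p q : ℤ → Prop} {a b : ℤ} (h : ∀ y, a ≤ y → y < b → (p y ↔ q y)) :
    cnt p a b = cnt q a b := by
  unfold cnt
  congr 2
  apply Finset.filter_congr
  intro x hx
  rw [Finset.mem_Ico] at hx
  exact h x hx.1 hx.2

theorem cnt_zero {p : ℤ → Prop} {a b : ℤ} (h : ∀ y, a ≤ y → y < b → ¬ p y) : cnt p a b = 0 := by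
  unfold cnt
  rw [Finset.filter_eq_empty_iff.2]
  · simp
  · intro x hx
    rw [Finset.mem_Ico] at hx
    exact h x hx.1 hx.2

theorem cnt_all {p : ℤ → Prop} {a b : ℤ} (hab : a ≤ b) (h : ∀ y, a ≤ y → y < b → p y) :
    cnt p a b = b - a := by
  unfold cnt
  rw [Finset.filter_true_of_mem]
  · rw [Int.card_Ico]; omega
  · intro x hx
    rw [Finset.mem_Ico] at hx
    exact h x hx.1 hx.2

theorem cnt_or {p q : ℤ → Prop} {a b : ℤ} (h : ∀ y, a ≤ y → y < b → ¬ (p y ∧ q y)) :
    cnt (fun y => p y ∨ q y) a b = cnt p a b + cnt q a b := by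
  unfold cnt
  have hu : @Finset.filter ℤ (fun y => p y ∨ q y) (fun y => Classical.propDecidable _)
      (Finset.Ico a b) =
      (Finset.Ico a b).filter p ∪ (Finset.Ico a b).filter q := by
    ext x; simp only [Finset.mem_filter, Finset.mem_union]; tauto
  rw [hu, ← Nat.cast_add, ← Finset.card_union_of_disjoint]
  rw [Finset.disjoint_left]
  intro x hx hx'
  rw [Finset.mem_filter, Finset.mem_Ico] at hx hx'
  exact h x hx.1.1 hx.1.2 ⟨hx.2, hx'.2⟩

theorem cnt_not (p : ℤ → Prop) {a b : ℤ} (hab : a ≤ b) :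
    cnt p a b + cnt (fun y => ¬ p y) a b = b - a := by
  rw [← cnt_or (p := p) (q := fun y => ¬ p y) (fun y _ _ h => h.2 h.1)]
  exact cnt_all hab (fun y _ _ => Classical.em _)

theorem cnt_mono {p q : ℤ → Prop} {a b : ℤ} (h : ∀ y, a ≤ y → y < b → p y → q y) :
    cnt p a b ≤ cnt q a b := by
  unfold cnt
  have : ((Finset.Ico a b).filter p).card ≤ ((Finset.Ico a b).filter q).card := by
    apply Finset.card_le_card
    intro x hx
    rw [Finset.mem_filter, Finset.mem_Ico] at hx ⊢
    exact ⟨hx.1, h x hx.1.1 hx.1.2 hx.2⟩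
  exact_mod_cast this

theorem cnt_shift (p : ℤ → Prop) (a b c : ℤ) :
    cnt (fun y => p (y - c)) (a + c) (b + c) = cnt p a b := by
  unfold cnt
  congr 1
  apply Finset.card_bij (fun x _ => x - c)
  · intro x hx
    rw [Finset.mem_filter, Finset.mem_Ico] at hx ⊢
    exact ⟨by omega, hx.2⟩
  · intro x _ y _ hxy; omega
  · intro x hx
    rw [Finset.mem_filter, Finset.mem_Ico] at hx
    refine ⟨x + c, ?_, by omega⟩
    rw [Finset.mem_filter, Finset.mem_Ico]
    exact ⟨by omega, by rw [show x + c - c = x by ring]; exact hx.2⟩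

theorem cnt_refl (p : ℤ → Prop) (a b c : ℤ) :
    cnt (fun y => p (c - y)) (c + 1 - b) (c + 1 - a) = cnt p a b := by
  unfold cnt
  congr 1
  apply Finset.card_bij (fun x _ => c - x)
  · intro x hx
    rw [Finset.mem_filter, Finset.mem_Ico] at hx ⊢
    exact ⟨by omega, hx.2⟩
  · intro x _ y _ hxy; omega
  · intro x hx
    rw [Finset.mem_filter, Finset.mem_Ico] at hx
    refine ⟨c - x, ?_, by omega⟩
    rw [Finset.mem_filter, Finset.mem_Ico]
    exact ⟨by omega, by rw [show c - (c - x) = x by ring]; exact hx.2⟩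

theorem cnt_pos {p : ℤ → Prop} {a b y : ℤ} (h1 : a ≤ y) (h2 : y < b) (h : p y) :
    1 ≤ cnt p a b := by
  unfold cnt
  have : 0 < ((Finset.Ico a b).filter p).card := by
    apply Finset.card_pos.2
    exact ⟨y, by rw [Finset.mem_filter, Finset.mem_Ico]; exact ⟨⟨h1, h2⟩, h⟩⟩
  exact_mod_cast this

/-- enumeration of a set of integers that is unbounded in both directions -/
theorem exists_enum (V : ℤ → Prop) (hup : ∀ x, ∃ y, x < y ∧ V y) (hdn : ∀ x, ∃ y, y < x ∧ V y) :
    ∃ X : ℤ → ℤ, (∀ i, X i < X (i + 1)) ∧ (∀ i, V (X i)) ∧ ∀ x, V x → ∃ i, X i = x := by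
  have hf : ∀ x, ∃ y, V y ∧ x < y ∧ ∀ z, V z → x < z → y ≤ z := by
    intro x
    obtain ⟨y, h1, h2⟩ := hup x
    obtain ⟨w, h3, h4⟩ := Int.exists_least_of_bdd (P := fun y => V y ∧ x < y) ⟨x, fun z hz => hz.2.le⟩
      ⟨y, h2, h1⟩
    exact ⟨w, h3.1, h3.2, fun z hz hz' => h4 z ⟨hz, hz'⟩⟩
  have hg : ∀ x, ∃ y, V y ∧ y < x ∧ ∀ z, V z → z < x → z ≤ y := by
    intro x
    obtain ⟨y, h1, h2⟩ := hdn x
    obtain ⟨w, h3, h4⟩ := Int.exists_greatest_of_bdd (P := fun y => V y ∧ y < x)
      ⟨x, fun z hz => hz.2.le⟩ ⟨y, h2, h1⟩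
    exact ⟨w, h3.1, h3.2, fun z hz hz' => h4 z ⟨hz, hz'⟩⟩
  choose f hf1 hf2 hf3 using hf
  choose g hg1 hg2 hg3 using hg
  have gf : ∀ x, V x → g (f x) = x := by
    intro x hx
    have h1 := hg3 (f x) x hx (hf2 x)
    rcases lt_or_eq_of_le h1 with h2 | h2
    · have := hf3 x _ (hg1 (f x)) h2
      have := hg2 (f x)
      omega
    · exact h2.symm
  have fg : ∀ x, V x → f (g x) = x := by
    intro x hx
    have h1 := hf3 (g x) x hx (hg2 x)
    rcases lt_or_eq_of_le h1 with h2 | h2
    · have := hg3 x _ (hf1 (g x)) h2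
      have := hf2 (g x)
      omega
    · exact h2
  let E : Equiv.Perm {x // V x} := ⟨fun v => ⟨f v.1, hf1 _⟩, fun v => ⟨g v.1, hg1 _⟩,
    fun v => Subtype.ext (gf v.1 v.2), fun v => Subtype.ext (fg v.1 v.2)⟩
  obtain ⟨y, -, hy⟩ := hup 0
  let v0 : {x // V x} := ⟨y, hy⟩
  have hX : ∀ i : ℤ, ((E ^ (i + 1)) v0).1 = f ((E ^ i) v0).1 := by
    intro i
    have : (E ^ (i + 1)) v0 = E ((E ^ i) v0) := by
      rw [add_comm, zpow_add, zpow_one]; rfl
    rw [this]; rfl
  have hlt : ∀ i : ℤ, ((E ^ i) v0).1 < ((E ^ (i + 1)) v0).1 := by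
    intro i
    rw [hX]
    exact hf2 _
  refine ⟨fun i => ((E ^ i) v0).1, hlt, fun i => ((E ^ i) v0).2, ?_⟩
  have hlin : ∀ i j : ℤ, i ≤ j → ((E ^ i) v0).1 + (j - i) ≤ ((E ^ j) v0).1 := by
    intro i j hij
    induction j, hij using Int.leInduction with
    | base => simp
    | succ m _ ih =>
      have := hlt m
      omega
  intro x hx
  obtain ⟨i, h1, h2⟩ := Int.exists_greatest_of_bdd (P := fun i : ℤ => ((E ^ i) v0).1 ≤ x)
    ⟨max 0 (x - ((E ^ (0 : ℤ)) v0).1), fun z hz => by
      rcases le_or_gt z 0 with h3 | h3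
      · exact h3.trans (le_max_left _ _)
      · have := hlin 0 z h3.le
        exact le_trans (by omega) (le_max_right _ _)⟩
    ⟨min 0 (x - ((E ^ (0 : ℤ)) v0).1), by
      have := hlin _ 0 (min_le_left 0 (x - ((E ^ (0 : ℤ)) v0).1))
      have h4 := min_le_right 0 (x - ((E ^ (0 : ℤ)) v0).1)
      omega⟩
  refine ⟨i, ?_⟩
  rcases lt_or_eq_of_le h1 with h3 | h3
  · exfalso
    have h4 := hf3 _ x hx h3
    rw [← hX] at h4
    have := h2 (i + 1) h4
    omega
  · exact h3

/-- the shape of a tile of spin `s`, relative to its left end -/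
def sp (n : ℤ) (A : ℤ → Prop) (s : Bool) (j : ℤ) : Prop := if s = true then A j else A (n - 1 - j)

/-- `A` lives on `[0, n)`, contains both end points, and has `k` elements -/
structure Shp (n k : ℤ) (A : ℤ → Prop) : Prop where
  z0 : A 0
  z1 : A (n - 1)
  rg : ∀ j, A j → 0 ≤ j ∧ j < n
  ct : cnt A 0 n = k

/-- a tiling, with the tiles enumerated by their left ends -/
structure Til (n : ℤ) (A : ℤ → Prop) (X : ℤ → ℤ) (S : ℤ → Bool) : Prop where
  mono : ∀ i, X i < X (i + 1)
  cov : ∀ y, ∃ i, sp n A (S i) (y - X i)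
  uniq : ∀ y i j, sp n A (S i) (y - X i) → sp n A (S j) (y - X j) → i = j

theorem til_of_pq {n k : ℤ} {A : ℤ → Prop} (hA : Shp n k A) {P Q : ℤ → Prop}
    (h : PQ {a | A a} P Q) : ∃ X S, Til n A X S := by
  let tl : ℤ → Bool → Prop := fun x s => if s = true then P x else Q (x + (n - 1))
  have hn : 0 < n := by have := hA.rg 0 hA.z0; omega
  have hcov : ∀ y, ∃ x s, tl x s ∧ sp n A s (y - x) := by
    intro y
    obtain ⟨⟨σ, a⟩, ⟨ha, hc⟩, -⟩ := h y
    simp only [Set.mem_ofPred_eq] at ha hc
    cases σ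
    · simp only [Bool.false_eq_true, if_false] at hc
      refine ⟨y + a - (n - 1), false, ?_, ?_⟩
      · show Q (y + a - (n - 1) + (n - 1))
        rwa [show y + a - (n - 1) + (n - 1) = y + a by ring]
      · show A (n - 1 - (y - (y + a - (n - 1))))
        rwa [show n - 1 - (y - (y + a - (n - 1))) = a by ring]
    · simp only [if_true] at hc
      refine ⟨y - a, true, hc, ?_⟩
      show A (y - (y - a))
      rwa [show y - (y - a) = a by ring]
  have huniq : ∀ y x s x' s', tl x s → sp n A s (y - x) → tl x' s' → sp n A s' (y - x') →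
      x = x' ∧ s = s' := by
    have key : ∀ y x s, tl x s → sp n A s (y - x) →
        ((s, if s = true then y - x else n - 1 - (y - x)).2 ∈ {a | A a} ∧
        (if (s, if s = true then y - x else n - 1 - (y - x)).1 = true then
          P (y - (s, if s = true then y - x else n - 1 - (y - x)).2) else
          Q (y + (s, if s = true then y - x else n - 1 - (y - x)).2))) := by
      intro y x s h1 h2
      cases s
      · simp only [Bool.false_eq_true, if_false, Set.mem_ofPred_eq]
        refine ⟨h2, ?_⟩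
        rw [show y + (n - 1 - (y - x)) = x + (n - 1) by ring]
        exact h1
      · simp only [if_true, Set.mem_ofPred_eq]
        refine ⟨h2, ?_⟩
        rw [show y - (y - x) = x by ring]
        exact h1
    intro y x s x' s' h1 h2 h3 h4
    have h5 := (h y).unique (key y x s h1 h2) (key y x' s' h3 h4)
    simp only [Prod.mk.injEq] at h5
    obtain ⟨h6, h7⟩ := h5
    subst h6
    refine ⟨?_, rfl⟩
    cases s
    · simp only [Bool.false_eq_true, if_false] at h7; omega
    · simp only [if_true] at h7; omega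
  have hrg : ∀ s j, sp n A s j → 0 ≤ j ∧ j < n := by
    intro s j hj
    cases s
    · have := hA.rg (n - 1 - j) hj; omega
    · exact hA.rg j hj
  have h0 : ∀ s, sp n A s 0 := by
    intro s
    cases s
    · show A (n - 1 - 0); rw [sub_zero]; exact hA.z1
    · exact hA.z0
  obtain ⟨X, h1, h2, h3⟩ := exists_enum (fun x => ∃ s, tl x s)
    (by
      intro x
      obtain ⟨y, s, h1, h2⟩ := hcov (x + n)
      have := hrg _ _ h2
      exact ⟨y, by omega, s, h1⟩)
    (by
      intro x
      obtain ⟨y, s, h1, h2⟩ := hcov (x - 1)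
      have := hrg _ _ h2
      exact ⟨y, by omega, s, h1⟩)
  choose S hS using h2
  refine ⟨X, S, h1, ?_, ?_⟩
  · intro y
    obtain ⟨x, s, h4, h5⟩ := hcov y
    obtain ⟨i, rfl⟩ := h3 x ⟨s, h4⟩
    have := (huniq (X i) (X i) s (X i) (S i) h4 (by rw [sub_self]; exact h0 s) (hS i)
      (by rw [sub_self]; exact h0 _)).2
    rw [this] at h5
    exact ⟨i, h5⟩
  · intro y i j h4 h5
    have h6 := (huniq y _ _ _ _ (hS i) h4 (hS j) h5).1
    have hlin : ∀ i j : ℤ, i < j → X i < X j := by
      intro i j hij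
      have : i + 1 ≤ j := hij
      induction j, this using Int.leInduction with
      | base => exact h1 i
      | succ m _ ih => exact (ih (by omega)).trans (h1 m)
    rcases lt_trichotomy i j with h7 | h7 | h7
    · have := hlin i j h7; omega
    · exact h7
    · have := hlin j i h7; omega

end MPae024f.DS
end

section
/-! Dense sets: the step formula `X (i+1) - X i = k + L i - L (i+1)`. -/
namespace MPae024f.DS

variable {n k : ℤ} {A : ℤ → Prop} {X : ℤ → ℤ} {S : ℤ → Bool}

/-- the cell `y` belongs to the tile `i` -/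
def tc (n : ℤ) (A : ℤ → Prop) (X : ℤ → ℤ) (S : ℤ → Bool) (i y : ℤ) : Prop :=
  sp n A (S i) (y - X i)

/-- number of holes of the tile `i` that are filled by earlier tiles -/
noncomputable def L (n : ℤ) (A : ℤ → Prop) (X : ℤ → ℤ) (S : ℤ → Bool) (i : ℤ) : ℤ :=
  cnt (fun y => ∃ j, j < i ∧ tc n A X S j y) (X i) (X i + n)

theorem Shp.npos (hA : Shp n k A) : 0 < n := by have := hA.rg 0 hA.z0; omega

theorem sp_rg (hA : Shp n k A) {s : Bool} {j : ℤ} (h : sp n A s j) : 0 ≤ j ∧ j < n := by
  cases s
  · have := hA.rg (n - 1 - j) h; omega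
  · exact hA.rg j h

theorem sp_zero (hA : Shp n k A) (s : Bool) : sp n A s 0 := by
  cases s
  · show A (n - 1 - 0); rw [sub_zero]; exact hA.z1
  · exact hA.z0

theorem sp_last (hA : Shp n k A) (s : Bool) : sp n A s (n - 1) := by
  cases s
  · show A (n - 1 - (n - 1)); rw [sub_self]; exact hA.z0
  · exact hA.z1

theorem sp_cnt (hA : Shp n k A) (s : Bool) : cnt (sp n A s) 0 n = k := by
  cases s
  · have := cnt_refl A 0 n (n - 1)
    rw [hA.ct, show n - 1 + 1 - n = 0 by ring, show n - 1 + 1 - 0 = n by ring] at this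
    exact this
  · exact hA.ct

namespace Til

theorem lt (t : Til n A X S) {i j : ℤ} (h : i < j) : X i < X j := by
  have : i + 1 ≤ j := h
  induction j, this using Int.leInduction with
  | base => exact t.mono i
  | succ m _ ih => exact (ih (by omega)).trans (t.mono m)

theorem le (t : Til n A X S) {i j : ℤ} (h : i ≤ j) : X i ≤ X j := by
  rcases lt_or_eq_of_le h with h | h
  · exact (t.lt h).le
  · rw [h]

theorem rg (t : Til n A X S) (hA : Shp n k A) {i y : ℤ} (h : tc n A X S i y) :
    X i ≤ y ∧ y < X i + n := by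
  have := sp_rg hA h
  omega

/-- a cell left of `X i` belongs to an earlier tile -/
theorem idx_lt (t : Til n A X S) (hA : Shp n k A) {i j y : ℤ} (h : tc n A X S j y)
    (hy : y < X i) : j < i := by
  by_contra hc
  have h1 := t.le (show i ≤ j by omega)
  have h2 := t.rg hA h
  omega

theorem tc_cnt (t : Til n A X S) (hA : Shp n k A) (i : ℤ) :
    cnt (tc n A X S i) (X i) (X i + n) = k := by
  have h := cnt_shift (sp n A (S i)) 0 n (X i)
  rw [sp_cnt hA, zero_add, add_comm n] at h
  exact h

theorem L_nonneg (n : ℤ) (A : ℤ → Prop) (X : ℤ → ℤ) (S : ℤ → Bool) (i : ℤ) :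
    0 ≤ L n A X S i := cnt_nonneg _ _ _

/-- `L i` counted on any window that contains the hull -/
theorem L_eq (t : Til n A X S) (hA : Shp n k A) {i b : ℤ} (hb : X (i - 1) + n ≤ b)
    (hb' : X i ≤ b) :
    cnt (fun y => ∃ j, j < i ∧ tc n A X S j y) (X i) b = L n A X S i := by
  have hout : ∀ y, X (i - 1) + n ≤ y → ¬ ∃ j, j < i ∧ tc n A X S j y := by
    rintro y hy ⟨j, hj, hj2⟩
    have h1 := t.rg hA hj2
    have h2 := t.le (show j ≤ i - 1 by omega)
    omega
  have hn := hA.npos
  have h1 := t.lt (show i - 1 < i by omega)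
  unfold L
  rcases le_total b (X i + n) with h | h
  · rw [cnt_split _ hb' h, cnt_zero (a := b) (fun y hy _ => hout y (by omega)), add_zero]
  · rw [cnt_split _ (show X i ≤ X i + n by omega) h,
      cnt_zero (a := X i + n) (fun y hy _ => hout y (by omega)), add_zero]

theorem step (t : Til n A X S) (hA : Shp n k A) (i : ℤ) :
    X (i + 1) - X i = k + L n A X S i - L n A X S (i + 1) := by
  have hn := hA.npos
  have h0 := t.mono i
  have h1 : cnt (fun y => ∃ j, j < i + 1 ∧ tc n A X S j y) (X i) (X (i + 1) + n) =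
      L n A X S i + k := by
    have h2 : cnt (fun y => ∃ j, j < i + 1 ∧ tc n A X S j y) (X i) (X (i + 1) + n) =
        cnt (fun y => (∃ j, j < i ∧ tc n A X S j y) ∨ tc n A X S i y) (X i) (X (i + 1) + n) := by
      apply cnt_congr
      intro y _ _
      constructor
      · rintro ⟨j, hj, hj2⟩
        rcases lt_or_eq_of_le (show j ≤ i by omega) with h3 | h3
        · exact Or.inl ⟨j, h3, hj2⟩
        · rw [h3] at hj2; exact Or.inr hj2
      · rintro (⟨j, hj, hj2⟩ | h3)
        · exact ⟨j, by omega, hj2⟩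
        · exact ⟨i, by omega, h3⟩
    rw [h2, cnt_or, t.L_eq hA (by have := t.le (show i - 1 ≤ i + 1 by omega); omega) (by omega)]
    · congr 1
      rw [cnt_split _ (show X i ≤ X i + n by omega) (show X i + n ≤ X (i + 1) + n by omega),
        t.tc_cnt hA, cnt_zero (a := X i + n), add_zero]
      intro y hy _ hy2
      have := t.rg hA hy2
      omega
    · rintro y _ _ ⟨⟨j, hj, hj2⟩, hi⟩
      have := t.uniq y j i hj2 hi
      omega
  rw [cnt_split _ h0.le (show X (i + 1) ≤ X (i + 1) + n by omega), cnt_all h0.le,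
    t.L_eq hA (i := i + 1) (by rw [show i + 1 - 1 = i by ring]; omega) (by omega)] at h1
  · linarith
  · intro y _ hy
    obtain ⟨j, hj⟩ := t.cov y
    exact ⟨j, t.idx_lt hA hj hy, hj⟩

theorem L_le (t : Til n A X S) (hA : Shp n k A) (i : ℤ) : L n A X S i ≤ n - k := by
  have hn := hA.npos
  have h1 := cnt_not (tc n A X S i) (show X i ≤ X i + n by omega)
  rw [t.tc_cnt hA] at h1
  have h2 : L n A X S i ≤ cnt (fun y => ¬ tc n A X S i y) (X i) (X i + n) := by
    apply cnt_mono
    rintro y _ _ ⟨j, hj, hj2⟩ hi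
    have := t.uniq y j i hj2 hi
    omega
  omega

end Til

end MPae024f.DS
end

section
/-! Dense sets: clean tilings (the hulls of the tiles `i` and `i+2` do not meet). -/
namespace MPae024f.DS

variable {n k : ℤ} {A : ℤ → Prop} {X : ℤ → ℤ} {S : ℤ → Bool}

/-- length of the common part of the hulls of the tiles `i` and `i+1` -/
def ov (n : ℤ) (X : ℤ → ℤ) (i : ℤ) : ℤ := n - (X (i + 1) - X i)

/-- number of holes in the prefix of length `m` -/
noncomputable def Z (A : ℤ → Prop) (m : ℤ) : ℤ := cnt (fun j => ¬ A j) 0 m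

def Clean (n : ℤ) (X : ℤ → ℤ) : Prop := ∀ i, X i + n ≤ X (i + 2)

theorem Z_mono {a b : ℤ} (ha : 0 ≤ a) (h : a ≤ b) : Z A a ≤ Z A b := by
  unfold Z
  rw [cnt_split _ ha h]
  have := cnt_nonneg (fun j => ¬ A j) a b
  omega

theorem Z_eq {a b : ℤ} (ha : 0 ≤ a) (h : a ≤ b) (hj : ∀ j, a ≤ j → j < b → A j) :
    Z A b = Z A a := by
  unfold Z
  rw [cnt_split _ ha h, cnt_zero (a := a), add_zero]
  intro y h1 h2 h3
  exact h3 (hj y h1 h2)

/-- no hole between two points with the same count -/
theorem Z_ones {a b : ℤ} (ha : 0 ≤ a) (hZ : Z A b = Z A a) : ∀ j, a ≤ j → j < b → A j := by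
  intro j h1 h2
  by_contra h3
  unfold Z at hZ
  rw [cnt_split _ ha (show a ≤ b by omega)] at hZ
  have := cnt_pos (p := fun j => ¬ A j) h1 h2 h3
  omega

theorem Z_zero : Z A 0 = 0 := by
  unfold Z
  apply cnt_zero
  intro y h1 h2
  omega

theorem Z_n (hA : Shp n k A) : Z A n = n - k := by
  have := cnt_not A (show (0 : ℤ) ≤ n by have := hA.npos; omega)
  rw [hA.ct] at this
  unfold Z
  omega

theorem lt_of_Z_lt {a b : ℤ} (ha : 0 ≤ a) (h : Z A b < Z A a) : b < a := by
  by_contra hc
  have := Z_mono (A := A) ha (show a ≤ b by omega)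
  omega

/-- an antipalindromic prefix of length `m` has `m / 2` holes -/
theorem Z_anti {m : ℤ} (hm : 0 ≤ m) (h : ∀ j, 0 ≤ j → j < m → (A j ↔ ¬ A (m - 1 - j))) :
    2 * Z A m = m := by
  have h1 := cnt_not A hm
  have h2 := cnt_refl A 0 m (m - 1)
  rw [show m - 1 + 1 - m = 0 by ring, show m - 1 + 1 - 0 = m by ring] at h2
  have h3 : cnt (fun y => A (m - 1 - y)) 0 m = cnt (fun y => ¬ A y) 0 m := by
    apply cnt_congr
    intro y h4 h5
    have := h y h4 h5
    tauto
  unfold Z
  omega

/-- the reversed shape -/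
def rev (n : ℤ) (A : ℤ → Prop) (j : ℤ) : Prop := A (n - 1 - j)

theorem rev_rev : rev n (rev n A) = A := by
  funext j
  unfold rev
  rw [show n - 1 - (n - 1 - j) = j by ring]

theorem Shp.rev (hA : Shp n k A) : Shp n k (rev n A) where
  z0 := by show A (n - 1 - 0); rw [sub_zero]; exact hA.z1
  z1 := by show A (n - 1 - (n - 1)); rw [sub_self]; exact hA.z0
  rg := fun j hj => by have := hA.rg (n - 1 - j) hj; omega
  ct := sp_cnt hA false

theorem sp_rev (s : Bool) (j : ℤ) : sp n (rev n A) (!s) j ↔ sp n A s j := by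
  cases s
  · show rev n A j ↔ A (n - 1 - j); rfl
  · show rev n A (n - 1 - j) ↔ A j
    unfold rev
    rw [show n - 1 - (n - 1 - j) = j by ring]

theorem Til.rev (t : Til n A X S) : Til n (rev n A) X (fun i => !S i) where
  mono := t.mono
  cov := fun y => by
    obtain ⟨i, hi⟩ := t.cov y
    exact ⟨i, (sp_rev _ _).2 hi⟩
  uniq := fun y i j h1 h2 => t.uniq y i j ((sp_rev _ _).1 h1) ((sp_rev _ _).1 h2)

theorem Z_rev (hA : Shp n k A) {m : ℤ} (h0 : 0 ≤ m) (h1 : m ≤ n) :
    Z (rev n A) m = n - k - Z A (n - m) := by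
  have h2 := cnt_refl (fun j => ¬ A j) (n - m) n (n - 1)
  rw [show n - 1 + 1 - n = 0 by ring, show n - 1 + 1 - (n - m) = m by ring] at h2
  have h3 := Z_n hA
  unfold Z at h3 ⊢
  rw [cnt_split _ (show (0:ℤ) ≤ n - m by omega) (show n - m ≤ n by omega)] at h3
  have h4 : cnt (fun j => ¬ MPae024f.DS.rev n A j) 0 m = cnt (fun y => ¬ A (n - 1 - y)) 0 m := rfl
  rw [h4]
  omega

/-- condition (T): `A` is a complete residue system mod `k` -/
def TT (n k : ℤ) (A : ℤ → Prop) : Prop :=
  (∀ j, 0 ≤ j → j < n - k → (A j ↔ ¬ A (k + j))) ∧ ∀ j, n - k ≤ j → j < k → A j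

/-- condition (M): an antipalindromic prefix and suffix that contain all holes -/
def MM (n k : ℤ) (A : ℤ → Prop) : Prop :=
  ∃ c, 0 ≤ c ∧ c ≤ n - k ∧ (∀ j, 0 ≤ j → j < 2 * c → (A j ↔ ¬ A (2 * c - 1 - j))) ∧
    (∀ j, n - 2 * (n - k - c) ≤ j → j < n → (A j ↔ ¬ A (2 * n - 2 * (n - k - c) - 1 - j))) ∧
    ∀ j, 2 * c ≤ j → j < n - 2 * (n - k - c) → A j

theorem MM_rev (h : MM n k (rev n A)) : MM n k A := by
  obtain ⟨c, h0, h1, h2, h3, h4⟩ := h
  refine ⟨n - k - c, by omega, by omega, fun j a b => ?_, fun j a b => ?_, fun j a b => ?_⟩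
  · have := h3 (n - 1 - j) (by omega) (by omega)
    unfold rev at this
    rw [show n - 1 - (n - 1 - j) = j by ring, show n - 1 - (2 * n - 2 * (n - k - c) - 1 -
      (n - 1 - j)) = 2 * (n - k - c) - 1 - j by ring] at this
    exact this
  · have := h2 (n - 1 - j) (by omega) (by omega)
    unfold rev at this
    rw [show n - 1 - (n - 1 - j) = j by ring, show n - 1 - (2 * c - 1 - (n - 1 - j)) =
      2 * n - 2 * (n - k - (n - k - c)) - 1 - j by ring] at this
    exact this
  · have := h4 (n - 1 - j) (by omega) (by omega)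
    unfold rev at this
    rw [show n - 1 - (n - 1 - j) = j by ring] at this
    exact this

theorem TT_rev (h : TT n k (rev n A)) (hk : n ≤ 2 * k) : TT n k A := by
  refine ⟨fun j a b => ?_, fun j a b => ?_⟩
  · have := h.1 (n - 1 - (k + j)) (by omega) (by omega)
    unfold rev at this
    rw [show n - 1 - (n - 1 - (k + j)) = k + j by ring, show n - 1 - (k + (n - 1 - (k + j))) = j by
      ring] at this
    tauto
  · have := h.2 (n - 1 - j) (by omega) (by omega)
    unfold rev at this
    rw [show n - 1 - (n - 1 - j) = j by ring] at this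
    exact this

namespace Til

theorem ov_eq (t : Til n A X S) (hA : Shp n k A) (i : ℤ) :
    ov n X i = n - k + L n A X S (i + 1) - L n A X S i := by
  have := t.step hA i
  unfold ov
  omega

theorem ov_nonneg (t : Til n A X S) (hA : Shp n k A) (i : ℤ) : 0 ≤ ov n X i := by
  have h1 := t.ov_eq hA i
  have h2 := L_nonneg n A X S (i + 1)
  have h3 := t.L_le hA i
  omega

theorem ov_le (t : Til n A X S) (hA : Shp n k A) (i : ℤ) : ov n X i ≤ 2 * (n - k) := by
  have h1 := t.ov_eq hA i
  have h2 := L_nonneg n A X S i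
  have h3 := t.L_le hA (i + 1)
  omega

theorem ov_lt (t : Til n A X S) (i : ℤ) : ov n X i < n := by
  have := t.mono i
  unfold ov
  omega

theorem ov_add (hc : Clean n X) (i : ℤ) : ov n X (i - 1) + ov n X i ≤ n := by
  have := hc (i - 1)
  unfold ov
  rw [show i - 1 + 2 = i + 1 by ring] at this
  rw [show i - 1 + 1 = i by ring]
  omega

/-- the common part of two consecutive hulls is filled by the two tiles -/
theorem f1 (t : Til n A X S) (hA : Shp n k A) (hc : Clean n X) {i y : ℤ} (h1 : X (i + 1) ≤ y)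
    (h2 : y < X i + n) : tc n A X S (i + 1) y ↔ ¬ tc n A X S i y := by
  constructor
  · intro h3 h4
    have := t.uniq y _ _ h3 h4
    omega
  · intro h3
    obtain ⟨j, hj⟩ := t.cov y
    have h4 := t.rg hA hj
    have h5 : j ≤ i + 1 := by
      by_contra hcon
      have := t.le (show i + 2 ≤ j by omega)
      have := hc i
      omega
    have h6 : i ≤ j := by
      by_contra hcon
      have h7 := t.le (show j ≤ i - 1 by omega)
      have h8 := hc (i - 1)
      rw [show i - 1 + 2 = i + 1 by ring] at h8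
      omega
    rcases (show j = i ∨ j = i + 1 by omega) with h7 | h7
    · rw [h7] at hj; exact absurd hj h3
    · rw [h7] at hj; exact hj

/-- the part of a hull outside the neighbouring hulls is filled by the tile -/
theorem f2 (t : Til n A X S) (hA : Shp n k A) {i y : ℤ} (h1 : X (i - 1) + n ≤ y)
    (h2 : y < X (i + 1)) : tc n A X S i y := by
  obtain ⟨j, hj⟩ := t.cov y
  have h4 := t.rg hA hj
  have h5 : j ≤ i := by
    by_contra hcon
    have := t.le (show i + 1 ≤ j by omega)
    omega
  have h6 : i ≤ j := by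
    by_contra hcon
    have h7 := t.le (show j ≤ i - 1 by omega)
    omega
  rw [show i = j by omega]
  exact hj

/-! words -/

theorem pp (t : Til n A X S) (hA : Shp n k A) (hc : Clean n X) {i : ℤ} (h1 : S i = true)
    (h2 : S (i + 1) = true) : ∀ j, 0 ≤ j → j < ov n X i → (A j ↔ ¬ A (n - ov n X i + j)) := by
  intro j a b
  have := t.f1 hA hc (i := i) (y := X (i + 1) + j) (by omega) (by unfold ov at b; omega)
  unfold tc at this
  rw [h1, h2] at this
  simp only [sp, if_true] at this
  unfold ov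
  rw [show X (i + 1) + j - X (i + 1) = j by ring] at this
  rw [show n - (n - (X (i + 1) - X i)) + j = X (i + 1) + j - X i by ring]
  exact this

theorem pm (t : Til n A X S) (hA : Shp n k A) (hc : Clean n X) {i : ℤ} (h1 : S i = true)
    (h2 : S (i + 1) = false) :
    ∀ j, 0 ≤ j → j < ov n X i → (A (n - 1 - j) ↔ ¬ A (n - ov n X i + j)) := by
  intro j a b
  have := t.f1 hA hc (i := i) (y := X (i + 1) + j) (by omega) (by unfold ov at b; omega)
  unfold tc at this
  rw [h1, h2] at this
  simp only [sp, if_true, Bool.false_eq_true, if_false] at this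
  unfold ov
  rw [show n - 1 - (X (i + 1) + j - X (i + 1)) = n - 1 - j by ring] at this
  rw [show n - (n - (X (i + 1) - X i)) + j = X (i + 1) + j - X i by ring]
  exact this

theorem mp (t : Til n A X S) (hA : Shp n k A) (hc : Clean n X) {i : ℤ} (h1 : S i = false)
    (h2 : S (i + 1) = true) :
    ∀ j, 0 ≤ j → j < ov n X i → (A j ↔ ¬ A (ov n X i - 1 - j)) := by
  intro j a b
  have := t.f1 hA hc (i := i) (y := X (i + 1) + j) (by omega) (by unfold ov at b; omega)
  unfold tc at this
  rw [h1, h2] at this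
  simp only [sp, if_true, Bool.false_eq_true, if_false] at this
  unfold ov
  rw [show X (i + 1) + j - X (i + 1) = j by ring] at this
  rw [show n - (X (i + 1) - X i) - 1 - j = n - 1 - (X (i + 1) + j - X i) by ring]
  exact this

theorem ones (t : Til n A X S) (hA : Shp n k A) {i : ℤ} (h1 : S i = true) :
    ∀ j, ov n X (i - 1) ≤ j → j < n - ov n X i → A j := by
  intro j a b
  unfold ov at a b
  rw [show i - 1 + 1 = i by ring] at a
  have := t.f2 hA (i := i) (y := X i + j) (by omega) (by omega)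
  unfold tc at this
  rw [h1] at this
  simp only [sp, if_true] at this
  rw [show X i + j - X i = j by ring] at this
  exact this

/-- the holes of a `+` tile filled from the left are the holes in the left overlap -/
theorem ZL (t : Til n A X S) (hA : Shp n k A) (hc : Clean n X) {i : ℤ} (h1 : S i = true) :
    Z A (ov n X (i - 1)) = L n A X S i := by
  have h2 := t.ov_nonneg hA (i - 1)
  unfold ov at h2 ⊢
  rw [show i - 1 + 1 = i by ring] at h2 ⊢
  rw [← t.L_eq hA (i := i) (b := X (i - 1) + n) le_rfl (by omega)]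
  have h3 := cnt_shift (fun j => ¬ A j) 0 (n - (X i - X (i - 1))) (X i)
  unfold Z
  rw [← h3, zero_add, show n - (X i - X (i - 1)) + X i = X (i - 1) + n by ring]
  apply cnt_congr
  intro y h4 h5
  have h6 : (∃ j, j < i ∧ tc n A X S j y) ↔ ¬ tc n A X S i y := by
    constructor
    · rintro ⟨j, hj, hj2⟩ h7
      have := t.uniq y _ _ hj2 h7
      omega
    · intro h7
      obtain ⟨j, hj⟩ := t.cov y
      have h8 := hc (i - 1)
      rw [show i - 1 + 2 = i + 1 by ring] at h8
      have h9 := t.idx_lt hA (i := i + 1) hj (by omega)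
      rcases (show j < i ∨ j = i by omega) with h10 | h10
      · exact ⟨j, h10, hj⟩
      · rw [h10] at hj; exact absurd hj h7
  rw [h6]
  unfold tc
  rw [h1]
  simp [sp]

theorem ZR (t : Til n A X S) (hA : Shp n k A) (hc : Clean n X) {i : ℤ} (h1 : S i = true) :
    Z A (n - ov n X i) = L n A X S i := by
  rw [← t.ZL hA hc h1]
  exact Z_eq (t.ov_nonneg hA _) (by have := ov_add hc i; omega) (t.ones hA h1)

end Til

end MPae024f.DS
end

section
/-! Dense sets: conditions (T), (M) and complete residue systems; two pieces that fill `ℤ / 2k`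
give a tiling. -/
namespace MPae024f.DS

variable {n k : ℤ} {A : ℤ → Prop}

/-- `A` and `A + t` together meet every residue class mod `2 k` -/
def Two (k t : ℤ) (A : ℤ → Prop) : Prop :=
  ∀ m : ℤ, ∃ a, A a ∧ (2 * k ∣ m - a ∨ 2 * k ∣ m - (a + t))

/-- `A` and `t - A` together meet every residue class mod `2 k` -/
def Mir (k t : ℤ) (A : ℤ → Prop) : Prop :=
  ∀ m : ℤ, ∃ a, A a ∧ (2 * k ∣ m - a ∨ 2 * k ∣ m - (t - a))

/-- `A` meets every residue class mod `k` -/
def One (k : ℤ) (A : ℤ → Prop) : Prop := ∀ m : ℤ, ∃ a, A a ∧ k ∣ m - a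

theorem two_of_one (h : One k A) : Two k k A := by
  intro m
  obtain ⟨a, ha, c, hc⟩ := h m
  rcases Int.emod_two_eq_zero_or_one c with h1 | h1
  · obtain ⟨w, rfl⟩ := Int.dvd_of_emod_eq_zero h1
    exact ⟨a, ha, Or.inl ⟨w, by rw [hc]; ring⟩⟩
  · obtain ⟨w, hw⟩ : ∃ w, c = 2 * w + 1 := ⟨c / 2, by omega⟩
    exact ⟨a, ha, Or.inr ⟨w, by rw [hw] at hc; linear_combination hc⟩⟩

theorem exists_rep {M : ℤ} (hM : 0 < M) (m : ℤ) : ∃ j, 0 ≤ j ∧ j < M ∧ M ∣ m - j :=
  ⟨m % M, Int.emod_nonneg _ hM.ne', Int.emod_lt_of_pos _ hM, Int.dvd_self_sub_emod⟩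

theorem one_of_TT (hk : 0 < k) (h : TT n k A) : One k A := by
  intro m
  obtain ⟨j, h0, h1, h2⟩ := exists_rep hk m
  rcases lt_or_ge j (n - k) with h3 | h3
  · by_cases h4 : A j
    · exact ⟨j, h4, h2⟩
    · have h5 := h.1 j h0 h3
      refine ⟨k + j, by tauto, ?_⟩
      have := dvd_sub h2 (dvd_refl k)
      rwa [show m - j - k = m - (k + j) by ring] at this
  · exact ⟨j, h.2 j h3 h1, h2⟩

theorem mir_of_MM (hk : 0 < k) (h : MM n k A) : ∃ t, Mir k t A := by
  obtain ⟨c, c0, c1, h1, h2, h3⟩ := h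
  refine ⟨2 * n - 2 * (n - k - c) - 1, fun m => ?_⟩
  obtain ⟨j, j0, j1, j2⟩ := exists_rep (show 0 < 2 * k by omega) m
  by_cases hj : A j
  · exact ⟨j, hj, Or.inl j2⟩
  · rcases lt_or_ge j (2 * c) with h4 | h4
    · have h5 := h1 j j0 h4
      refine ⟨2 * c - 1 - j, by tauto, Or.inr ?_⟩
      have := dvd_sub j2 (dvd_refl (2 * k))
      rwa [show m - j - 2 * k = m - (2 * n - 2 * (n - k - c) - 1 - (2 * c - 1 - j)) by ring] at this
    · rcases lt_or_ge j (n - 2 * (n - k - c)) with h5 | h5
      · exact absurd (h3 j h4 h5) hj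
      · rcases lt_or_ge j n with h6 | h6
        · have h7 := h2 j h5 h6
          refine ⟨2 * n - 2 * (n - k - c) - 1 - j, by tauto, Or.inr ?_⟩
          rwa [show m - (2 * n - 2 * (n - k - c) - 1 - (2 * n - 2 * (n - k - c) - 1 - j)) = m - j by
            ring]
        · refine ⟨2 * n - 2 * (n - k - c) - 1 - j, h3 _ (by omega) (by omega), Or.inr ?_⟩
          rwa [show m - (2 * n - 2 * (n - k - c) - 1 - (2 * n - 2 * (n - k - c) - 1 - j)) = m - j by
            ring]

open Classical in
/-- a surjection from `Bool × A` onto the residues is injective -/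
theorem inj_of_surj {K : ℕ} (hK : 0 < K) (B : Finset ℤ) (hB : B.card = K) (f : Bool → ℤ → ℤ)
    (hf : ∀ m : ℤ, ∃ s a, a ∈ B ∧ (2 * (K : ℤ)) ∣ m - f s a) :
    ∀ s a s' a', a ∈ B → a' ∈ B → (2 * (K : ℤ)) ∣ f s a - f s' a' → s = s' ∧ a = a' := by
  have hne : NeZero (2 * K) := ⟨by omega⟩
  let F : Bool × B → ZMod (2 * K) := fun v => ((f v.1 v.2.1 : ℤ) : ZMod (2 * K))
  have hcast : ((2 * K : ℕ) : ℤ) = 2 * (K : ℤ) := by push_cast; ring
  have hsurj : Function.Surjective F := by
    intro z
    obtain ⟨m, rfl⟩ := ZMod.intCast_surjective z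
    obtain ⟨s, a, ha, hd⟩ := hf m
    refine ⟨(s, ⟨a, ha⟩), ?_⟩
    show ((f s a : ℤ) : ZMod (2 * K)) = (m : ZMod (2 * K))
    rw [← sub_eq_zero, ← Int.cast_sub, ZMod.intCast_zmod_eq_zero_iff_dvd, hcast]
    rw [← dvd_neg, neg_sub]
    exact hd
  have hcard : Fintype.card (Bool × B) = Fintype.card (ZMod (2 * K)) := by
    rw [Fintype.card_prod, Fintype.card_bool, Fintype.card_coe, hB, ZMod.card]
  have hinj := ((Fintype.bijective_iff_surjective_and_card F).2 ⟨hsurj, hcard⟩).1
  intro s a s' a' ha ha' hd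
  have h1 : F (s, ⟨a, ha⟩) = F (s', ⟨a', ha'⟩) := by
    show ((f s a : ℤ) : ZMod (2 * K)) = ((f s' a' : ℤ) : ZMod (2 * K))
    rw [← sub_eq_zero, ← Int.cast_sub, ZMod.intCast_zmod_eq_zero_iff_dvd, hcast]
    exact hd
  have h2 := hinj h1
  simp only [Prod.mk.injEq, Subtype.mk.injEq] at h2
  exact h2

/-- two pieces that fill `ℤ / 2k` give a tiling -/
theorem pq_of_mir {K : ℕ} (hK : 0 < K) (B : Finset ℤ) (hB : B.card = K) {t : ℤ}
    (h : Mir K t (fun a => a ∈ B)) : ∃ P Q, PQ (B : Set ℤ) P Q := by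
  have hinj := inj_of_surj hK B hB (fun s a => if s = true then a else t - a) (by
    intro m
    obtain ⟨a, ha, hd | hd⟩ := h m
    · exact ⟨true, a, ha, by simpa using hd⟩
    · exact ⟨false, a, ha, by simpa using hd⟩)
  refine ⟨fun x => (2 * (K : ℤ)) ∣ x, fun x => (2 * (K : ℤ)) ∣ x - t, fun p => ?_⟩
  obtain ⟨s, a, ha, hd⟩ : ∃ (s : Bool) (a : ℤ), a ∈ B ∧
      (2 * (K : ℤ)) ∣ p - (if s = true then a else t - a) := by
    obtain ⟨a, ha, hd | hd⟩ := h p
    · exact ⟨true, a, ha, by simpa using hd⟩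
    · exact ⟨false, a, ha, by simpa using hd⟩
  have tr : ∀ (s : Bool) (a : ℤ), (if s = true then (2 * (K : ℤ)) ∣ p - a else
      (2 * (K : ℤ)) ∣ p + a - t) ↔ (2 * (K : ℤ)) ∣ p - (if s = true then a else t - a) := by
    intro s a
    cases s
    · simp only [Bool.false_eq_true, if_false]
      rw [show p + a - t = p - (t - a) by ring]
    · simp
  refine ⟨(s, a), ⟨ha, (tr s a).2 hd⟩, ?_⟩
  rintro ⟨s', a'⟩ ⟨ha', hd'⟩
  have hd2 := (tr s' a').1 hd'
  obtain ⟨e1, e2⟩ := hinj s' a' s a ha' ha (by
    have := dvd_sub hd hd2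
    rwa [show p - (if s = true then a else t - a) - (p - (if s' = true then a' else t - a')) =
      (if s' = true then a' else t - a') - (if s = true then a else t - a) by ring] at this)
  rw [e1, e2]

theorem pq_of_two {K : ℕ} (hK : 0 < K) (B : Finset ℤ) (hB : B.card = K) {t : ℤ}
    (h : Two K t (fun a => a ∈ B)) : ∃ P Q, PQ (B : Set ℤ) P Q := by
  have hinj := inj_of_surj hK B hB (fun s a => if s = true then a else a + t) (by
    intro m
    obtain ⟨a, ha, hd | hd⟩ := h m
    · exact ⟨true, a, ha, by simpa using hd⟩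
    · exact ⟨false, a, ha, by simpa using hd⟩)
  refine ⟨fun x => (2 * (K : ℤ)) ∣ x ∨ (2 * (K : ℤ)) ∣ x - t, fun x => False, fun p => ?_⟩
  obtain ⟨a, ha, hd⟩ := h p
  refine ⟨(true, a), ⟨ha, ?_⟩, ?_⟩
  · simp only [if_true]
    rcases hd with hd | hd
    · exact Or.inl hd
    · right; rwa [show p - a - t = p - (a + t) by ring]
  · rintro ⟨s', a'⟩ ⟨ha', hd'⟩
    cases s'
    · simp at hd'
    · simp only [if_true] at hd'
      simp only [Prod.mk.injEq, true_and]
      have key : ∀ x, ((2 * (K : ℤ)) ∣ p - x ∨ (2 * (K : ℤ)) ∣ p - (x + t)) →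
          ∃ s : Bool, (2 * (K : ℤ)) ∣ p - (if s = true then x else x + t) := by
        rintro x (h1 | h1)
        · exact ⟨true, by simpa using h1⟩
        · exact ⟨false, by simpa using h1⟩
      obtain ⟨s1, h1⟩ := key a hd
      obtain ⟨s2, h2⟩ := key a' (by
        rcases hd' with h3 | h3
        · exact Or.inl h3
        · right; rwa [show p - (a' + t) = p - a' - t by ring])
      exact (hinj s2 a' s1 a ha' ha (by
        have := dvd_sub h1 h2
        rwa [show p - (if s1 = true then a else a + t) - (p - (if s2 = true then a' else a' + t)) =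
          (if s2 = true then a' else a' + t) - (if s1 = true then a else a + t) by ring] at this)).2

end MPae024f.DS
end

section
/-! Density at least `2/3`: every tiling forces (T) or (M). -/
namespace MPae024f.DS

variable {n k : ℤ} {A : ℤ → Prop} {X : ℤ → ℤ} {S : ℤ → Bool}

/-- `(-,+,-)` in a clean tiling gives (M) -/
theorem mm_of_mpm (t : Til n A X S) (hA : Shp n k A) (hc : Clean n X) {i : ℤ}
    (h0 : S (i - 1) = false) (h1 : S i = true) (h2 : S (i + 1) = false) : MM n k A := by
  have a1 := t.mp hA hc (i := i - 1) h0 (by rw [show i - 1 + 1 = i by ring]; exact h1)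
  have a2 := t.pm hA hc h1 h2
  have b1 := t.ZL hA hc h1
  have b2 := t.ZR hA hc h1
  have c1 := t.ov_nonneg hA (i - 1)
  have c2 := t.ov_nonneg hA i
  have c3 := t.ov_lt i
  have d1 := Z_anti c1 a1
  -- the suffix
  have d2 : 2 * Z (rev n A) (ov n X i) = ov n X i := by
    apply Z_anti c2
    intro j h3 h4
    have := a2 j h3 h4
    unfold rev
    rw [show n - 1 - (ov n X i - 1 - j) = n - ov n X i + j by ring]
    exact this
  rw [Z_rev hA c2 (by omega)] at d2
  have e1 := Til.L_nonneg n A X S i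
  have e2 := t.L_le hA i
  refine ⟨L n A X S i, e1, e2, ?_, ?_, ?_⟩
  · intro j h3 h4
    have := a1 j h3 (by omega)
    rw [show ov n X (i - 1) = 2 * L n A X S i by omega] at this
    exact this
  · intro j h3 h4
    have := a2 (n - 1 - j) (by omega) (by omega)
    rw [show n - 1 - (n - 1 - j) = j by ring] at this
    rw [show 2 * n - 2 * (n - k - L n A X S i) - 1 - j = n - ov n X i + (n - 1 - j) by omega]
    exact this
  · intro j h3 h4
    exact t.ones hA h1 j (by omega) (by omega)

/-- a `(+,+)` junction when `2 h ≤ k` -/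
theorem pp_two_thirds (t : Til n A X S) (hA : Shp n k A) (hc : Clean n X)
    (hk : 2 * (n - k) ≤ k) {i : ℤ} (h1 : S i = true) (h2 : S (i + 1) = true) :
    (TT n k A ∨ MM n k A) ∨
      (2 * ov n X i ≤ n ∧ ov n X i < n - k ∧ L n A X S (i + 1) < L n A X S i) := by
  have hn := hA.npos
  have a1 := t.pp hA hc h1 h2
  have b1 := t.ZL hA hc h2
  rw [show i + 1 - 1 = i by ring] at b1
  have b2 := t.ZR hA hc h1
  have c0 := t.ov_nonneg hA i
  have c1 := t.ov_lt i
  have c2 := t.ov_le hA i
  have c3 := t.ov_eq hA i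
  have e1 := Til.L_nonneg n A X S i
  have e2 := t.L_le hA i
  have e3 := Til.L_nonneg n A X S (i + 1)
  have e4 := t.L_le hA (i + 1)
  have hZn := Z_n hA
  by_cases hu : 2 * ov n X i ≤ n
  · have d1 := Z_mono (A := A) c0 (show ov n X i ≤ n - ov n X i by omega)
    rcases lt_or_eq_of_le (show L n A X S (i + 1) ≤ L n A X S i by omega) with h3 | h3
    · exact Or.inr ⟨hu, by omega, h3⟩
    · left; left
      have hov : ov n X i = n - k := by omega
      rw [hov] at a1 b1 b2
      refine ⟨fun j h4 h5 => ?_, ?_⟩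
      · have := a1 j h4 h5
        rwa [show n - (n - k) + j = k + j by ring] at this
      · have := Z_ones (A := A) (a := n - k) (b := n - (n - k)) (by omega) (by omega)
        intro j h4 h5
        exact this j h4 (by omega)
  · left; right
    -- antiperiod `s = n - u < n / 2`
    set s := n - ov n X i with hs
    have hs1 : Z A s + Z A s + (cnt (fun j => ¬ A j) s (2 * s) - Z A s) = Z A (2 * s) := by
      unfold Z
      rw [cnt_split _ (show (0:ℤ) ≤ s by omega) (show s ≤ 2 * s by omega)]
      ring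
    have hs2 : cnt (fun j => ¬ A j) s (2 * s) = cnt A 0 s := by
      have h3 := cnt_shift (fun j => A j) 0 s s
      rw [zero_add, show s + s = 2 * s by ring] at h3
      rw [← h3]
      apply cnt_congr
      intro y h4 h5
      have := a1 (y - s) (by omega) (by omega)
      rw [show s + (y - s) = y by ring] at this
      tauto
    have hs3 := cnt_not A (show (0:ℤ) ≤ s by omega)
    have hs4 : Z A (2 * s) = s := by
      have : Z A s = cnt (fun j => ¬ A j) 0 s := rfl
      omega
    have hs5 := Z_mono (A := A) (show (0:ℤ) ≤ 2 * s by omega) (show 2 * s ≤ n by omega)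
    have f1 : s = n - k := by omega
    have f2 : n = 3 * (n - k) := by omega
    have f3 : L n A X S i = 0 := by omega
    have hZs : Z A s = Z A 0 := by rw [Z_zero, b2, f3]
    have g1 := Z_ones (A := A) (a := 0) le_rfl hZs
    have g2 : ∀ j, s ≤ j → j < 2 * s → ¬ A j := by
      intro j h3 h4
      have := a1 (j - s) (by omega) (by omega)
      rw [show s + (j - s) = j by ring] at this
      exact this.1 (g1 _ (by omega) (by omega))
    have g3 : ∀ j, 2 * s ≤ j → j < n → A j := by
      intro j h3 h4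
      have := a1 (j - s) (by omega) (by omega)
      rw [show s + (j - s) = j by ring] at this
      by_contra h5
      exact g2 (j - s) (by omega) (by omega) (this.2 h5)
    refine ⟨n - k, by omega, le_rfl, ?_, ?_, ?_⟩
    · intro j h3 h4
      rcases lt_or_ge j s with h5 | h5
      · have h6 := g1 j h3 h5
        have h7 := g2 (2 * (n - k) - 1 - j) (by omega) (by omega)
        tauto
      · have h6 := g2 j h5 (by omega)
        have h7 := g1 (2 * (n - k) - 1 - j) (by omega) (by omega)
        tauto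
    · intro j h3 h4; omega
    · intro j h3 h4; exact g3 j (by omega) (by omega)

theorem pp_main (t : Til n A X S) (hA : Shp n k A) (hc : Clean n X)
    (hk : 2 * (n - k) ≤ k) {i : ℤ} (h1 : S i = true) (h2 : S (i + 1) = true) :
    TT n k A ∨ MM n k A := by
  by_contra hcon
  have hn := hA.npos
  have key : ∀ i, S i = true → S (i + 1) = true →
      (2 * ov n X i ≤ n ∧ ov n X i < n - k ∧ L n A X S (i + 1) < L n A X S i) := by
    intro i h1 h2
    rcases pp_two_thirds t hA hc hk h1 h2 with h | h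
    · exact absurd h hcon
    · exact h
  -- no three `+` in a row
  have key3 : ∀ i, S i = true → S (i + 1) = true → S (i + 2) = true → False := by
    intro i h1 h2 h3
    obtain ⟨a1, a2, a3⟩ := key i h1 h2
    obtain ⟨b1, b2, b3⟩ := key (i + 1) h2 (by rw [show i + 1 + 1 = i + 2 by ring]; exact h3)
    have c1 := t.ZR hA hc h1
    have c2 := t.ZL hA hc h2
    have c3 := t.ZR hA hc h2
    have c4 := t.ZL hA hc h3
    rw [show i + 1 - 1 = i by ring] at c2
    rw [show i + 2 - 1 = i + 1 by ring] at c4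
    rw [show i + 1 + 1 = i + 2 by ring] at b3
    have d1 := t.ov_nonneg hA i
    have d2 := t.ov_nonneg hA (i + 1)
    have e1 := lt_of_Z_lt (A := A) (a := n - ov n X i) (b := n - ov n X (i + 1)) (by omega)
      (by omega)
    have e2 := lt_of_Z_lt (A := A) (a := ov n X i) (b := ov n X (i + 1)) (by omega) (by omega)
    omega
  obtain ⟨a1, a2, a3⟩ := key i h1 h2
  have h3 : S (i + 2) = false := by
    by_contra h; exact key3 i h1 h2 (by simpa using h)
  have h0 : S (i - 1) = false := by
    by_contra h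
    exact key3 (i - 1) (by simpa using h) (by rw [show i - 1 + 1 = i by ring]; exact h1)
      (by rw [show i - 1 + 2 = i + 1 by ring]; exact h2)
  -- the data of `(-,+,+,-)`
  have b1 := t.mp hA hc (i := i - 1) h0 (by rw [show i - 1 + 1 = i by ring]; exact h1)
  have b2 := t.pm hA hc h2 (by rw [show i + 1 + 1 = i + 2 by ring]; exact h3)
  have c1 := t.ZL hA hc h1
  have c2 := t.ZR hA hc h1
  have c3 := t.ZL hA hc h2
  have c4 := t.ZR hA hc h2
  rw [show i + 1 - 1 = i by ring] at c3
  have d1 := t.ov_nonneg hA (i - 1)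
  have d2 := t.ov_nonneg hA i
  have d3 := t.ov_nonneg hA (i + 1)
  have d4 := t.ov_lt (i + 1)
  have d5 := Til.ov_add hc i
  have d6 := Til.ov_add hc (i + 1)
  rw [show i + 1 - 1 = i by ring] at d6
  have f1 := t.ones hA h1
  have f2 := t.ones hA h2
  rw [show i + 1 - 1 = i by ring] at f2
  have g1 := t.ov_eq hA i
  have ha1 := Z_anti d1 b1
  have ha2 : 2 * Z (rev n A) (ov n X (i + 1)) = ov n X (i + 1) := by
    apply Z_anti d3
    intro j h4 h5
    have := b2 j h4 h5
    unfold rev
    rw [show n - 1 - (ov n X (i + 1) - 1 - j) = n - ov n X (i + 1) + j by ring]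
    exact this
  rw [Z_rev hA d3 d4.le] at ha2
  have e1 := Til.L_nonneg n A X S i
  have e2 := t.L_le hA i
  have e3 := Til.L_nonneg n A X S (i + 1)
  have e4 := t.L_le hA (i + 1)
  set l := ov n X (i - 1) with hl
  set u := ov n X i with hu
  set r := ov n X (i + 1) with hr
  -- `l + r = 4 h - 2 u`
  have hlr : l + r = 4 * (n - k) - 2 * u := by omega
  have hw := lt_of_Z_lt (A := A) (a := l) (b := n - r) (by omega) (by omega)
  rcases lt_or_eq_of_le d2 with hu0 | hu0
  · have p1 : n - r = u ∨ l - u ≤ u ∨ n - r ≤ l + r - n := by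
      by_contra hh
      push Not at hh
      obtain ⟨q1, q2, q3⟩ := hh
      rcases le_total u (l + r - n) with q4 | q4
      · have r1 := f2 (l + r - n) q4 q3
        have r2 := f2 (n - r - 1) (by omega) (by omega)
        have r3 := b1 (l + r - n) (by omega) (by omega)
        rw [show l - 1 - (l + r - n) = n - r - 1 by ring] at r3
        exact r3.1 r1 r2
      · have r1 := f2 u le_rfl (by omega)
        have r2 := f2 (l - 1 - u) (by omega) (by omega)
        have r3 := b1 u (by omega) (by omega)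
        exact r3.1 r1 r2
    have p2 : l = n - u ∨ r - u ≤ u ∨ 2 * n - r - l ≤ l := by
      by_contra hh
      push Not at hh
      obtain ⟨q1, q2, q3⟩ := hh
      rcases le_total l (n - r + u) with q4 | q4
      · have r1 := f1 (n - r + u) q4 (by omega)
        have r2 := f1 (n - 1 - u) (by omega) (by omega)
        have r3 := b2 u (by omega) (by omega)
        exact r3.1 r2 r1
      · have r1 := f1 l le_rfl (by omega)
        have r2 := f1 (2 * n - r - 1 - l) (by omega) (by omega)
        have r3 := b2 (l - (n - r)) (by omega) (by omega)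
        rw [show n - 1 - (l - (n - r)) = 2 * n - r - 1 - l by ring,
          show n - r + (l - (n - r)) = l by ring] at r3
        exact r3.1 r2 r1
    rcases p1 with p1 | p1 | p1 <;> rcases p2 with p2 | p2 | p2 <;> omega
  · -- `u = 0`
    apply hcon
    right
    refine ⟨n - k, by omega, le_rfl, ?_, ?_, ?_⟩
    · intro j h4 h5
      have := b1 j h4 (by omega)
      rw [show l = 2 * (n - k) by omega] at this
      exact this
    · intro j h4 h5; omega
    · intro j h4 h5; exact f1 j (by omega) (by omega)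

theorem main_two_thirds (t : Til n A X S) (hA : Shp n k A) (hk : 2 * (n - k) ≤ k) :
    TT n k A ∨ MM n k A := by
  have hc : Clean n X := by
    intro i
    have h1 := t.step hA i
    have h2 := t.step hA (i + 1)
    rw [show i + 1 + 1 = i + 2 by ring] at h2
    have h3 := Til.L_nonneg n A X S i
    have h4 := t.L_le hA (i + 2)
    omega
  by_cases hss : ∃ i, S (i + 1) = S i
  · obtain ⟨i, hi⟩ := hss
    cases hS : S i
    · -- `(-,-)`: reverse the shape
      have h1 := pp_main t.rev hA.rev hc hk (i := i) (by simp [hS]) (by simp [hi, hS])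
      rcases h1 with h1 | h1
      · exact Or.inl (TT_rev h1 (by have := hA.npos; omega))
      · exact Or.inr (MM_rev h1)
    · exact pp_main t hA hc hk hS (by rw [hi, hS])
  · push Not at hss
    have hflip : ∀ i, S (i + 1) = !S i := by
      intro i
      have := hss i
      revert this
      cases S i <;> cases S (i + 1) <;> simp
    right
    have hpick : ∃ i, S (i - 1) = false ∧ S i = true ∧ S (i + 1) = false := by
      cases h0 : S 0
      · refine ⟨1, by rw [show (1:ℤ) - 1 = 0 by norm_num]; exact h0, ?_, ?_⟩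
        · have := hflip 0
          rw [zero_add, h0] at this
          simpa using this
        · have h1 := hflip 0
          have h2 := hflip 1
          rw [zero_add, h0] at h1
          rw [h1] at h2
          simpa using h2
      · refine ⟨0, ?_, h0, ?_⟩
        · have := hflip (0 - 1)
          rw [show (0:ℤ) - 1 + 1 = 0 by norm_num, h0] at this
          revert this
          cases S (0 - 1) <;> simp
        · have := hflip 0
          rw [h0] at this
          simpa using this
    obtain ⟨i, h0, h1, h2⟩ := hpick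
    exact mm_of_mpm t hA hc h0 h1 h2

end MPae024f.DS
end

section
/-! Dense sets: normalisation of a finite set and the theorem for density at least `2/3`. -/
namespace MPae024f.DS

open Classical in
theorem cnt_card {p : ℤ → Prop} {a b m : ℤ} (B : Finset ℤ) (h : ∀ j, p j ↔ m + j ∈ B)
    (hr : ∀ x ∈ B, a ≤ x - m ∧ x - m < b) : cnt p a b = B.card := by
  unfold cnt
  congr 1
  apply Finset.card_bij (fun x _ => m + x)
  · intro x hx
    rw [Finset.mem_filter] at hx
    exact (h x).1 hx.2
  · intro x _ y _ hxy; omega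
  · intro y hy
    refine ⟨y - m, ?_, by ring⟩
    rw [Finset.mem_filter, Finset.mem_Ico]
    have := hr y hy
    exact ⟨by omega, (h _).2 (by rw [show m + (y - m) = y by ring]; exact hy)⟩

/-- a finite set that tiles gives a normalised shape with an enumerated tiling -/
theorem exists_til (A : Finset ℤ) (hne : A.Nonempty) {m n : ℤ}
    (hsub : ∀ a ∈ A, m ≤ a ∧ a < m + n) (h : ∃ P Q, PQ (A : Set ℤ) P Q) :
    ∃ m₀ n₀ X S, n₀ ≤ n ∧ Shp n₀ A.card (fun j => m₀ + j ∈ A) ∧
      Til n₀ (fun j => m₀ + j ∈ A) X S := by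
  set m₀ := A.min' hne with hm
  set M₀ := A.max' hne with hM
  have h1 : m₀ ∈ A := A.min'_mem hne
  have h2 : M₀ ∈ A := A.max'_mem hne
  have h3 : ∀ a ∈ A, m₀ ≤ a := fun a ha => A.min'_le a ha
  have h4 : ∀ a ∈ A, a ≤ M₀ := fun a ha => A.le_max' a ha
  have hA : Shp (M₀ - m₀ + 1) A.card (fun j => m₀ + j ∈ A) := by
    refine ⟨by simpa using h1, ?_, ?_, ?_⟩
    · show m₀ + (M₀ - m₀ + 1 - 1) ∈ A
      rw [show m₀ + (M₀ - m₀ + 1 - 1) = M₀ by ring]; exact h2
    · intro j hj
      have := h3 _ hj
      have := h4 _ hj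
      omega
    · apply cnt_card A (fun j => Iff.rfl)
      intro x hx
      have := h3 _ hx
      have := h4 _ hx
      omega
  have hset : (A : Set ℤ) = {p | ∃ a ∈ {j : ℤ | m₀ + j ∈ A}, p = m₀ + 1 * a} := by
    ext p
    constructor
    · intro hp
      refine ⟨p - m₀, ?_, by ring⟩
      show m₀ + (p - m₀) ∈ A
      rw [show m₀ + (p - m₀) = p by ring]; exact hp
    · rintro ⟨a, ha, rfl⟩
      rw [one_mul]; exact ha
  rw [hset, pq_scale m₀ 1 one_ne_zero] at h
  obtain ⟨P, Q, h⟩ := h
  obtain ⟨X, S, t⟩ := til_of_pq hA h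
  refine ⟨m₀, M₀ - m₀ + 1, X, S, ?_, hA, t⟩
  have := hsub _ h1
  have := hsub _ h2
  omega

theorem one_shift {k m₀ : ℤ} {A : Finset ℤ} (h : One k (fun j => m₀ + j ∈ A)) :
    One k (fun a => a ∈ A) := by
  intro x
  obtain ⟨a, ha, hd⟩ := h (x - m₀)
  exact ⟨m₀ + a, ha, by rwa [show x - (m₀ + a) = x - m₀ - a by ring]⟩

theorem mir_shift {k m₀ : ℤ} {A : Finset ℤ} (h : ∃ t, Mir k t (fun j => m₀ + j ∈ A)) :
    ∃ t, Mir k t (fun a => a ∈ A) := by
  obtain ⟨t, h⟩ := h
  refine ⟨t + 2 * m₀, fun x => ?_⟩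
  obtain ⟨a, ha, hd⟩ := h (x - m₀)
  refine ⟨m₀ + a, ha, ?_⟩
  rwa [show x - (m₀ + a) = x - m₀ - a by ring,
    show x - (t + 2 * m₀ - (m₀ + a)) = x - m₀ - (t - a) by ring]

theorem two_shift {k m₀ : ℤ} {A : Finset ℤ} (h : ∃ t, Two k t (fun j => m₀ + j ∈ A)) :
    ∃ t, Two k t (fun a => a ∈ A) := by
  obtain ⟨t, h⟩ := h
  refine ⟨t, fun x => ?_⟩
  obtain ⟨a, ha, hd⟩ := h (x - m₀)
  refine ⟨m₀ + a, ha, ?_⟩
  rwa [show x - (m₀ + a) = x - m₀ - a by ring,
    show x - (m₀ + a + t) = x - m₀ - (a + t) by ring]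

theorem two_thirds (A : Finset ℤ) (hne : A.Nonempty) {m n : ℤ}
    (hsub : ∀ a ∈ A, m ≤ a ∧ a < m + n) (hn : 2 * n ≤ 3 * A.card) :
    (∃ P Q, PQ (A : Set ℤ) P Q) ↔
      One A.card (fun a => a ∈ A) ∨ ∃ t, Mir A.card t (fun a => a ∈ A) := by
  have hk : 0 < A.card := Finset.card_pos.2 hne
  constructor
  · intro h
    obtain ⟨m₀, n₀, X, S, h1, hA, t⟩ := exists_til A hne hsub h
    rcases main_two_thirds t hA (by omega) with h2 | h2
    · exact Or.inl (one_shift (one_of_TT (by omega) h2))
    · exact Or.inr (mir_shift (mir_of_MM (by omega) h2))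
  · rintro (h | ⟨t, h⟩)
    · exact pq_of_two hk A rfl (two_of_one h)
    · exact pq_of_mir hk A rfl h

end MPae024f.DS
end

section
/-! Dense sets: the graph of clean junctions. Only words, no tilings.
`h = n - k` is the number of holes, `Z A m` the number of holes in `[0, m)`. -/
namespace MPae024f.DS

variable {n k : ℤ} {A : ℤ → Prop}

/-- the prefix of length `2 c` is antipalindromic -/
def LC (A : ℤ → Prop) (c : ℤ) : Prop :=
  0 ≤ c ∧ ∀ j, 0 ≤ j → j < 2 * c → (A j ↔ ¬ A (2 * c - 1 - j))

/-- the suffix of length `2 (h - c)` is antipalindromic -/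
def RC (n k : ℤ) (A : ℤ → Prop) (c : ℤ) : Prop :=
  c ≤ n - k ∧ ∀ j, n - 2 * (n - k - c) ≤ j → j < n →
    (A j ↔ ¬ A (2 * n - 2 * (n - k - c) - 1 - j))

/-- overlap of an arrow `c → c'` -/
def ul (n k c c' : ℤ) : ℤ := n - k + c' - c

/-- an arrow `c → c'`: a junction of two `+` tiles with overlap `ul n k c c'` -/
structure Arr (n k : ℤ) (A : ℤ → Prop) (c c' : ℤ) : Prop where
  u0 : 0 ≤ ul n k c c'
  un : ul n k c c' < n
  wd : ∀ j, 0 ≤ j → j < ul n k c c' → (A j ↔ ¬ A (n - ul n k c c' + j))
  zt : Z A (ul n k c c') = c'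
  zs : Z A (n - ul n k c c') = c

/-- the conclusion of the theorem for normalised shapes -/
def Cc (k : ℤ) (A : ℤ → Prop) : Prop := ∃ t, Two k t A ∨ Mir k t A

/-- TO BE PROVED (lemma 2): the block `(-,+,+,-)`, clean -/
def Lemma2 : Prop := ∀ (n k : ℤ) (A : ℤ → Prop), Shp n k A → n < 2 * k → ∀ c c', LC A c →
  Arr n k A c c' → RC n k A c' → 2 * c + ul n k c c' ≤ n → ul n k c c' + 2 * (n - k - c') ≤ n →
  Cc k A

end MPae024f.DS
end

section
/-! Dense sets: the block `(-,+,+,-)`, clean. The word is continued to all of `ℤ` with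
antiperiod `d = n - u`; both reflections become antisymmetries of the continued word, which
therefore has period `4 k`, hence period or antiperiod `2 k`. -/
namespace MPae024f.DS

variable {n k : ℤ} {A : ℤ → Prop}

/-- continuation with antiperiod `d` -/
theorem exists_anti {d : ℤ} (hd : 0 < d) (hw : ∀ j, 0 ≤ j → j + d < n → (A j ↔ ¬ A (j + d))) :
    ∃ f : ℤ → Prop, (∀ j, 0 ≤ j → j < n → (f j ↔ A j)) ∧ ∀ j, f (j + d) ↔ ¬ f j := by
  refine ⟨fun j => (Even (j / d) ↔ A (j % d)), ?_, ?_⟩
  · have key : ∀ m : ℕ, ∀ j, 0 ≤ j → j < n → j < d * (m + 1) →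
        ((Even (j / d) ↔ A (j % d)) ↔ A j) := by
      intro m
      induction m with
      | zero =>
        intro j h0 h1 h2
        have h3 : j < d := by push_cast at h2; linarith
        rw [Int.ediv_eq_zero_of_lt h0 h3, Int.emod_eq_of_lt h0 h3]
        simp
      | succ m ih =>
        intro j h0 h1 h2
        rcases lt_or_ge j d with h3 | h3
        · rw [Int.ediv_eq_zero_of_lt h0 h3, Int.emod_eq_of_lt h0 h3]
          simp
        · have h4 := ih (j - d) (by omega) (by omega) (by push_cast at h2; linarith)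
          have h5 := hw (j - d) (by omega) (by omega)
          rw [show j - d + d = j by ring] at h5
          have h6 : j / d = (j - d) / d + 1 := by
            have h8 := Int.add_ediv_of_dvd_right (a := j - d) (dvd_refl d)
            rwa [Int.ediv_self hd.ne', show j - d + d = j by ring] at h8
          have h7 : j % d = (j - d) % d := by
            rw [← Int.add_emod_right (j - d) d, show j - d + d = j by ring]
          rw [h6, h7, Int.even_add_one]
          tauto
    intro j h0 h1
    refine key j.toNat j h0 h1 ?_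
    have h2 : ((j.toNat : ℕ) : ℤ) = j := Int.toNat_of_nonneg h0
    rw [h2]
    nlinarith
  · intro j
    show (Even ((j + d) / d) ↔ A ((j + d) % d)) ↔ ¬ (Even (j / d) ↔ A (j % d))
    rw [Int.add_ediv_of_dvd_right (dvd_refl d), Int.ediv_self hd.ne', Int.add_emod_right,
      Int.even_add_one]
    tauto

/-- multiples of an antiperiod -/
theorem anti_mul {d : ℤ} {f : ℤ → Prop} (h : ∀ j, f (j + d) ↔ ¬ f j) (m : ℤ) :
    (Even m → ∀ j, f (j + d * m) ↔ f j) ∧ (¬ Even m → ∀ j, f (j + d * m) ↔ ¬ f j) := by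
  induction m using Int.induction_on with
  | zero => simp
  | succ m ih =>
    refine ⟨fun he j => ?_, fun ho j => ?_⟩
    · have h1 : ¬ Even (m : ℤ) := by rw [Int.even_add_one] at he; exact he
      have h2 := ih.2 h1 j
      have h3 := h (j + d * m)
      rw [show j + d * (m + 1) = j + d * m + d by ring]
      tauto
    · have h1 : Even (m : ℤ) := by rw [Int.even_add_one] at ho; tauto
      have h2 := ih.1 h1 j
      have h3 := h (j + d * m)
      rw [show j + d * (m + 1) = j + d * m + d by ring]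
      tauto
  | pred m ih =>
    have h4 : Even (-(m : ℤ)) ↔ ¬ Even (-(m : ℤ) - 1) := by
      have := Int.even_add_one (n := -(m : ℤ) - 1)
      rwa [show -(m : ℤ) - 1 + 1 = -m by ring] at this
    refine ⟨fun he j => ?_, fun ho j => ?_⟩
    · have h1 : ¬ Even (-(m : ℤ)) := by tauto
      have h2 := ih.2 h1 j
      have h3 := h (j + d * (-m - 1))
      rw [show j + d * (-(m : ℤ) - 1) + d = j + d * (-m) by ring] at h3
      tauto
    · have h1 : Even (-(m : ℤ)) := by tauto
      have h2 := ih.1 h1 j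
      have h3 := h (j + d * (-m - 1))
      rw [show j + d * (-(m : ℤ) - 1) + d = j + d * (-m) by ring] at h3
      tauto

theorem per_mul {p : ℤ} {f : ℤ → Prop} (h : ∀ j, f (j + p) ↔ f j) (m : ℤ) :
    ∀ j, f (j + p * m) ↔ f j := by
  induction m using Int.induction_on with
  | zero => simp
  | succ m ih =>
    intro j
    have h2 := ih j
    have h3 := h (j + p * m)
    rw [show j + p * (m + 1) = j + p * m + p by ring]
    tauto
  | pred m ih =>
    intro j
    have h2 := ih j
    have h3 := h (j + p * (-m - 1))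
    rw [show j + p * (-(m : ℤ) - 1) + p = j + p * (-m) by ring] at h3
    tauto

/-- a word with antiperiod `d` and period `2 M` has period or antiperiod `M` -/
theorem lemG {d M : ℤ} (hd : 0 < d) {f : ℤ → Prop} (h1 : ∀ j, f (j + d) ↔ ¬ f j)
    (h2 : ∀ j, f (j + 2 * M) ↔ f j) :
    (∀ j, f (j + M) ↔ f j) ∨ ∀ j, f (j + M) ↔ ¬ f j := by
  have hg : 0 < Int.gcd d M := Int.gcd_pos_of_ne_zero_left _ hd.ne'
  obtain ⟨d', m', hc, hd', hm'⟩ := Int.exists_gcd_one hg
  have hcop : ¬ (Even d' ∧ Even m') := by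
    rintro ⟨h3, h4⟩
    have h5 := Int.dvd_coe_gcd h3.two_dvd h4.two_dvd
    rw [hc] at h5
    omega
  have hcr : M * d' = d * m' := by
    linear_combination d' * hm' - m' * hd'
  obtain ⟨e1, e2⟩ := anti_mul h1 m'
  rcases Int.even_or_odd d' with h3 | ⟨w, hw⟩
  · exfalso
    have h4 : ¬ Even m' := fun h => hcop ⟨h3, h⟩
    obtain ⟨w, hw⟩ := h3
    have h5 := e2 h4 0
    have h6 := per_mul h2 w 0
    rw [show (0 : ℤ) + 2 * M * w = 0 + d * m' by rw [← hcr, hw]; ring] at h6
    tauto
  · have h6 : ∀ j, f (j + d * m') ↔ f (j + M) := by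
      intro j
      have := per_mul h2 w (j + M)
      rwa [show j + M + 2 * M * w = j + d * m' by rw [← hcr, hw]; ring] at this
    by_cases h4 : Even m'
    · left
      intro j
      rw [← h6]
      exact e1 h4 j
    · right
      intro j
      rw [← h6]
      exact e2 h4 j

theorem lemma2 : Lemma2 := by
  intro n k A hA hnk c c' hL hR hC h1 h2
  obtain ⟨c0, hl⟩ := hL
  obtain ⟨c1, hr⟩ := hC
  have hn := hA.npos
  have hu0 := hR.u0
  have hun := hR.un
  have hwd := hR.wd
  have hzt := hR.zt
  have hzs := hR.zs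
  have hul : ul n k c c' = n - k + c' - c := rfl
  set u := ul n k c c' with hu
  -- counts
  have hZl : Z A (2 * c) = c := by
    have := Z_anti (A := A) (m := 2 * c) (by omega) hl
    omega
  have hones1 : ∀ j, 2 * c ≤ j → j < n - u → A j :=
    Z_ones (by omega) (by rw [hzs, hZl])
  have hZr : Z A (n - 2 * (n - k - c')) = c' := by
    have h3 := Z_anti (A := rev n A) (m := 2 * (n - k - c')) (by omega) (by
      intro j a b
      have := hr (n - 1 - j) (by omega) (by omega)
      unfold rev
      rwa [show 2 * n - 2 * (n - k - c') - 1 - (n - 1 - j) =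
        n - 1 - (2 * (n - k - c') - 1 - j) by ring] at this)
    rw [Z_rev hA (by omega) (by omega)] at h3
    omega
  have hones2 : ∀ j, u ≤ j → j < n - 2 * (n - k - c') → A j :=
    Z_ones hu0 (by rw [hZr, hzt])
  have hch : c ≤ n - k := by
    have := Z_mono (A := A) (show 0 ≤ n - u by omega) (show n - u ≤ n by omega)
    rw [hzs, Z_n hA] at this
    exact this
  -- continuation
  obtain ⟨f, hf, hfd⟩ := exists_anti (n := n) (A := A) (d := n - u) (by omega) (by
    intro j a b
    have := hwd j a (by omega)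
    rwa [show n - u + j = j + (n - u) by ring] at this)
  have hfd' : ∀ j, f j ↔ ¬ f (j - (n - u)) := by
    intro j
    have := hfd (j - (n - u))
    rwa [show j - (n - u) + (n - u) = j by ring] at this
  -- first reflection
  have hf3 : ∀ j, f (2 * c - 1 - j) ↔ ¬ f j := by
    have base : ∀ j, 0 ≤ j → j < n - u → (f (2 * c - 1 - j) ↔ ¬ f j) := by
      intro j a b
      rcases lt_or_ge j (2 * c) with h3 | h3
      · rw [hf j a (by omega), hf (2 * c - 1 - j) (by omega) (by omega)]
        have := hl j a h3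
        tauto
      · have h4 := hfd (2 * c - 1 - j)
        rw [hf (2 * c - 1 - j + (n - u)) (by omega) (by omega)] at h4
        have h5 := hones1 (2 * c - 1 - j + (n - u)) (by omega) (by omega)
        rw [hf j a (by omega)]
        have h6 := hones1 j h3 b
        tauto
    have all : ∀ j m, (f (2 * c - 1 - (j + (n - u) * m)) ↔ ¬ f (j + (n - u) * m)) ↔
        (f (2 * c - 1 - j) ↔ ¬ f j) := by
      intro j m
      obtain ⟨e1, e2⟩ := anti_mul hfd m
      by_cases hm : Even m
      · have h3 := e1 hm j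
        have h4 := e1 hm (2 * c - 1 - (j + (n - u) * m))
        rw [show 2 * c - 1 - (j + (n - u) * m) + (n - u) * m = 2 * c - 1 - j by ring] at h4
        tauto
      · have h3 := e2 hm j
        have h4 := e2 hm (2 * c - 1 - (j + (n - u) * m))
        rw [show 2 * c - 1 - (j + (n - u) * m) + (n - u) * m = 2 * c - 1 - j by ring] at h4
        tauto
    intro j
    have h3 := Int.emod_add_mul_ediv j (n - u)
    have h4 := all (j % (n - u)) (j / (n - u))
    rw [h3] at h4
    exact h4.2 (base _ (Int.emod_nonneg _ (by omega)) (Int.emod_lt_of_pos _ (by omega)))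
  -- second reflection
  have hf4 : ∀ j, f (2 * n - 2 * (n - k - c') - 1 - j) ↔ ¬ f j := by
    have base : ∀ j, u ≤ j → j < n → (f (2 * n - 2 * (n - k - c') - 1 - j) ↔ ¬ f j) := by
      intro j a b
      rcases lt_or_ge j (n - 2 * (n - k - c')) with h3 | h3
      · have h4 := hfd' (2 * n - 2 * (n - k - c') - 1 - j)
        rw [hf (2 * n - 2 * (n - k - c') - 1 - j - (n - u)) (by omega) (by omega)] at h4
        have h5 := hones2 (2 * n - 2 * (n - k - c') - 1 - j - (n - u)) (by omega) (by omega)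
        rw [hf j (by omega) b]
        have h6 := hones2 j a h3
        tauto
      · rw [hf j (by omega) b, hf (2 * n - 2 * (n - k - c') - 1 - j) (by omega) (by omega)]
        have := hr j h3 b
        tauto
    have all : ∀ j m, (f (2 * n - 2 * (n - k - c') - 1 - (j + (n - u) * m)) ↔
        ¬ f (j + (n - u) * m)) ↔ (f (2 * n - 2 * (n - k - c') - 1 - j) ↔ ¬ f j) := by
      intro j m
      obtain ⟨e1, e2⟩ := anti_mul hfd m
      by_cases hm : Even m
      · have h3 := e1 hm j
        have h4 := e1 hm (2 * n - 2 * (n - k - c') - 1 - (j + (n - u) * m))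
        rw [show 2 * n - 2 * (n - k - c') - 1 - (j + (n - u) * m) + (n - u) * m =
          2 * n - 2 * (n - k - c') - 1 - j by ring] at h4
        tauto
      · have h3 := e2 hm j
        have h4 := e2 hm (2 * n - 2 * (n - k - c') - 1 - (j + (n - u) * m))
        rw [show 2 * n - 2 * (n - k - c') - 1 - (j + (n - u) * m) + (n - u) * m =
          2 * n - 2 * (n - k - c') - 1 - j by ring] at h4
        tauto
    intro j
    have h3 := Int.emod_add_mul_ediv (j - u) (n - u)
    have h4 := all ((j - u) % (n - u) + u) ((j - u) / (n - u))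
    rw [show (j - u) % (n - u) + u + (n - u) * ((j - u) / (n - u)) = j by linarith] at h4
    have h5 := Int.emod_nonneg (j - u) (show n - u ≠ 0 by omega)
    have h6 := Int.emod_lt_of_pos (j - u) (show 0 < n - u by omega)
    exact h4.2 (base _ (by omega) (by omega))
  -- period 4 k
  have hf5 : ∀ j, f (j + 2 * (2 * k)) ↔ f j := by
    intro j
    have e1 := hf3 (2 * c - 1 - j)
    rw [show 2 * c - 1 - (2 * c - 1 - j) = j by ring] at e1
    have e2 := hf4 (2 * c - 1 - j)
    have e3 := hfd (2 * n - 2 * (n - k - c') - 1 - (2 * c - 1 - j))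
    have e4 := hfd (2 * n - 2 * (n - k - c') - 1 - (2 * c - 1 - j) + (n - u))
    rw [show 2 * n - 2 * (n - k - c') - 1 - (2 * c - 1 - j) + (n - u) + (n - u) =
      j + 2 * (2 * k) by rw [hul]; ring] at e4
    tauto
  rcases lemG (show 0 < n - u by omega) hfd hf5 with h3 | h3
  · -- period `2 k`
    obtain ⟨t, ht⟩ := mir_of_MM (n := n) (k := k) (A := A) (by omega) ⟨c, c0, hch, hl, by
      intro j a b
      have e1 := h3 (2 * c - 1 - j)
      have e2 := hf3 j
      rw [show 2 * c - 1 - j + 2 * k = 2 * n - 2 * (n - k - c) - 1 - j by ring] at e1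
      rw [hf _ (by omega) (by omega)] at e1
      rw [hf j (by omega) b] at e2
      tauto, by
      have e3 : Z A (n - 2 * (n - k - c)) = c := by
        have h3 := Z_anti (A := rev n A) (m := 2 * (n - k - c)) (by omega) (by
          intro j a b
          unfold rev
          have e1 := h3 (2 * c - 1 - (n - 1 - j))
          have e2 := hf3 (n - 1 - j)
          rw [show 2 * c - 1 - (n - 1 - j) + 2 * k =
            n - 1 - (2 * (n - k - c) - 1 - j) by ring] at e1
          rw [hf _ (by omega) (by omega)] at e1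
          rw [hf (n - 1 - j) (by omega) (by omega)] at e2
          tauto)
        rw [Z_rev hA (by omega) (by omega)] at h3
        omega
      exact Z_ones (by omega) (by rw [e3, hZl])⟩
    exact ⟨t, Or.inr ht⟩
  · -- antiperiod `2 k`
    have h3' : ∀ j, f j ↔ ¬ f (j - 2 * k) := by
      intro j
      have := h3 (j - 2 * k)
      rwa [show j - 2 * k + 2 * k = j by ring] at this
    -- the reversed tile at `t'`
    have hrv : ∀ y, 3 * k + c + c' - n ≤ y → y < 3 * k + c + c' → f y →
        A (n - 1 + (3 * k + c + c' - n) - y) := by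
      intro y a b hy
      rw [← hf _ (by omega) (by omega)]
      have e1 := hf4 (y - (n - u))
      have e2 := hfd' y
      rw [show 2 * n - 2 * (n - k - c') - 1 - (y - (n - u)) =
        n - 1 + (3 * k + c + c' - n) - y by rw [hul]; ring] at e1
      tauto
    have ho1 : ∀ y, k + c + c' ≤ y → y < 2 * k → f y := by
      intro y a b
      have e1 := h3' y
      have e2 := hfd (y - 2 * k)
      rw [hf _ (by omega) (by omega)] at e2
      have e3 := hones1 (y - 2 * k + (n - u)) (by omega) (by omega)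
      tauto
    have ho2 : ∀ y, n ≤ y → y < 3 * k + c + c' - n → ¬ f y := by
      intro y a b
      have e1 := hfd' y
      rw [hf (y - (n - u)) (by omega) (by omega)] at e1
      have e3 := hones2 (y - (n - u)) (by omega) (by omega)
      tauto
    refine ⟨n - 1 + (3 * k + c + c' - n), Or.inr fun m => ?_⟩
    obtain ⟨y, y0, y1, y2⟩ := exists_rep (show 0 < 2 * k by omega) m
    have hin : ∀ y', 2 * k ∣ m - y' → 3 * k + c + c' - n ≤ y' → y' < 3 * k + c + c' → f y' →
        ∃ a, A a ∧ (2 * k ∣ m - a ∨ 2 * k ∣ m - (n - 1 + (3 * k + c + c' - n) - a)) := by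
      intro y' e1 e2 e3 e4
      refine ⟨_, hrv y' e2 e3 e4, Or.inr ?_⟩
      rwa [show m - (n - 1 + (3 * k + c + c' - n) - (n - 1 + (3 * k + c + c' - n) - y')) =
        m - y' by ring]
    have y3 : 2 * k ∣ m - (y + 2 * k) := by
      have := dvd_sub y2 (dvd_refl (2 * k))
      rwa [show m - y - 2 * k = m - (y + 2 * k) by ring] at this
    have e5 := h3 y
    rcases lt_or_ge y n with h4 | h4
    · by_cases hy : f y
      · exact ⟨y, (hf y y0 h4).1 hy, Or.inl y2⟩
      · refine hin (y + 2 * k) y3 ?_ ?_ (by tauto)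
        · by_contra hcon
          have := ho2 (y + 2 * k) (by omega) (by omega)
          tauto
        · by_contra hcon
          exact hy (ho1 y (by omega) (by omega))
    · rcases lt_or_ge y (k + c + c') with h5 | h5
      · have h6 := ho2 y h4 (by omega)
        exact hin (y + 2 * k) y3 (by omega) (by omega) (by tauto)
      · have h6 := ho1 y h5 y1
        refine hin y y2 ?_ (by omega) h6
        by_contra hcon
        exact ho2 y h4 (by omega) h6

end MPae024f.DS
end

section
/-! Dense sets: the cluster `(+,+,-,-)` with distances `d, e, d`, as a statement on the word `A`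
only.  `θ = n - d - e` is the common part of the hulls of the first and the third tile. -/
namespace MPae024f.DS

variable {n k d e z : ℤ} {A : ℤ → Prop}

/-- word facts of a cluster `(+,+,-,-)` whose second `+` tile does not meet the tile before the
cluster; `z` is the number of holes of the first tile filled from the left -/
structure Clu (n k : ℤ) (A : ℤ → Prop) (d e z : ℤ) : Prop where
  e0 : 1 ≤ e
  th : d + e < n
  hd : n < 2 * d + e
  a : ∀ j, 0 ≤ j → j < e → (A j ↔ ¬ A (j + d))
  b : ∀ j, e ≤ j → j < n - d → (A j ∨ A (j + d) ∨ A (e + n - 1 - j)) ∧ ¬ (A j ∧ A (j + d)) ∧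
    ¬ (A j ∧ A (e + n - 1 - j)) ∧ ¬ (A (j + d) ∧ A (e + n - 1 - j))
  c : ∀ j, n - d ≤ j → j < d + e → (A j ↔ ¬ A (e + n - 1 - j))
  hz : Z A d = z
  z2 : 2 * z = 2 * d + e + n - 4 * k

/-- a reflection known on a window of length `d` holds everywhere -/
theorem refl_all {w C : ℤ} {f : ℤ → Prop} (hd : 0 < d) (hfd : ∀ j, f (j + d) ↔ ¬ f j)
    (hb : ∀ j, w ≤ j → j < w + d → (f (C - j) ↔ ¬ f j)) : ∀ j, f (C - j) ↔ ¬ f j := by
  have all : ∀ j m, (f (C - (j + d * m)) ↔ ¬ f (j + d * m)) ↔ (f (C - j) ↔ ¬ f j) := by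
    intro j m
    obtain ⟨e1, e2⟩ := anti_mul hfd m
    by_cases hm : Even m
    · have h3 := e1 hm j
      have h4 := e1 hm (C - (j + d * m))
      rw [show C - (j + d * m) + d * m = C - j by ring] at h4
      tauto
    · have h3 := e2 hm j
      have h4 := e2 hm (C - (j + d * m))
      rw [show C - (j + d * m) + d * m = C - j by ring] at h4
      tauto
  intro j
  have h3 := Int.emod_add_mul_ediv (j - w) d
  have h4 := all ((j - w) % d + w) ((j - w) / d)
  rw [show (j - w) % d + w + d * ((j - w) / d) = j by linarith] at h4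
  have h5 := Int.emod_nonneg (j - w) (show d ≠ 0 by omega)
  have h6 := Int.emod_lt_of_pos (j - w) hd
  exact h4.2 (hb _ (by omega) (by omega))

theorem Z_nonneg (A : ℤ → Prop) (m : ℤ) : 0 ≤ Z A m := cnt_nonneg _ _ _

/-- ones of a prefix -/
theorem cnt_Z (A : ℤ → Prop) {m : ℤ} (hm : 0 ≤ m) : cnt A 0 m = m - Z A m := by
  have := cnt_not A hm
  unfold Z
  omega

/-- ones of an interval -/
theorem cnt_ZZ (A : ℤ → Prop) {a b : ℤ} (ha : 0 ≤ a) (hb : a ≤ b) :
    cnt A a b = b - a - (Z A b - Z A a) := by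
  have h1 := cnt_Z A ha
  have h2 := cnt_Z A (ha.trans hb)
  have h3 := cnt_split A ha hb
  omega

theorem cnt_sh (p : ℤ → Prop) (a b c : ℤ) : cnt (fun y => p (y + c)) a b = cnt p (a + c) (b + c) := by
  have := cnt_shift p (a + c) (b + c) (-c)
  rw [show a + c + -c = a by ring, show b + c + -c = b by ring] at this
  simpa using this

/-- an antisymmetric interval with centre sum `c` -/
theorem cnt_anti {a b c : ℤ} (hab : a ≤ b) (hc : a + b = c + 1)
    (h : ∀ j, a ≤ j → j < b → (A j ↔ ¬ A (c - j))) : 2 * cnt A a b = b - a := by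
  have h1 := cnt_not A hab
  have h2 := cnt_refl A a b c
  rw [show c + 1 - b = a by omega, show c + 1 - a = b by omega] at h2
  have h3 : cnt (fun y => A (c - y)) a b = cnt (fun y => ¬ A y) a b := by
    apply cnt_congr
    intro y h4 h5
    have := h y h4 h5
    tauto
  omega

namespace Clu

/-- the second and the third tile are disjoint -/
theorem dj (K : Clu n k A d e z) (hA : Shp n k A) (j : ℤ) : ¬ (A j ∧ A (e + n - 1 - j)) := by
  rintro ⟨h1, h2⟩
  have r1 := hA.rg _ h1
  have r2 := hA.rg _ h2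
  have := K.th
  rcases lt_or_ge j (n - d) with h3 | h3
  · exact (K.b j (by omega) h3).2.2.1 ⟨h1, h2⟩
  · rcases lt_or_ge j (d + e) with h4 | h4
    · exact (K.c j h3 h4).1 h1 h2
    · have := (K.b (e + n - 1 - j) (by omega) (by omega)).2.2.1
      rw [show e + n - 1 - (e + n - 1 - j) = j by ring] at this
      exact this ⟨h2, h1⟩

theorem d' (K : Clu n k A d e z) (j : ℤ) (h1 : e ≤ j) (h2 : j < n - d) :
    A j ↔ A (e + n - 1 - d - j) := by
  have h3 := K.b j h1 h2
  have h4 := K.b (e + n - 1 - d - j) (by omega) (by omega)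
  rw [show e + n - 1 - d - j + d = e + n - 1 - j by ring,
    show e + n - 1 - (e + n - 1 - d - j) = j + d by ring] at h4
  tauto

theorem dpos (K : Clu n k A d e z) : 0 < d := by
  have := K.th
  have := K.hd
  omega

/-- `θ = 2 t₁ + t₂` -/
theorem F1 (K : Clu n k A d e z) : 2 * cnt A (d + e) n + cnt A e (n - d) = n - d - e := by
  have h0 := K.th
  have h1 : cnt (fun j => A j ∨ A (j + d) ∨ A (e + n - 1 - j)) e (n - d) = n - d - e :=
    cnt_all (by omega) (fun j a b => (K.b j a b).1)
  have h2 : cnt (fun j => A (j + d) ∨ A (e + n - 1 - j)) e (n - d) =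
      cnt (fun j => A (j + d)) e (n - d) + cnt (fun j => A (e + n - 1 - j)) e (n - d) :=
    cnt_or (fun j a b => (K.b j a b).2.2.2)
  rw [cnt_or (p := A) (q := fun j => A (j + d) ∨ A (e + n - 1 - j)) (fun j a b h => by
    have := K.b j a b
    tauto), h2, cnt_sh A e (n - d) d] at h1
  have h3 := cnt_refl A (d + e) n (e + n - 1)
  rw [show e + n - 1 + 1 - n = e by ring, show e + n - 1 + 1 - (d + e) = n - d by ring] at h3
  rw [h3, show e + d = d + e by ring, show n - d + d = n by ring] at h1
  omega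

/-- holes in `[0, d + e)` -/
theorem F4 (K : Clu n k A d e z) (hA : Shp n k A) : Z A (d + e) = n - k - (n - d - e) +
    cnt A (d + e) n := by
  have h0 := K.th
  have h1 := K.dpos
  have h4 := K.e0
  have h2 := cnt_ZZ A (show 0 ≤ d + e by omega) (show d + e ≤ n by omega)
  rw [Z_n hA] at h2
  omega

/-- `S(e) = δ + 2 t₁` -/
theorem F2 (K : Clu n k A d e z) (hA : Shp n k A) :
    e - 2 * Z A e = 2 * k - n + 2 * cnt A (d + e) n := by
  have h0 := K.th
  have h1 := K.dpos
  have h2 := K.e0
  have h4 := K.F4 hA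
  have h5 : cnt A 0 e = cnt (fun j => ¬ A (j + d)) 0 e := cnt_congr (fun j a b => K.a j a b)
  have h6 := cnt_sh (fun j => ¬ A j) 0 e d
  have h7 := cnt_not A (show d ≤ d + e by omega)
  have h8 := cnt_ZZ A h1.le (show d ≤ d + e by omega)
  have h9 := cnt_Z A (show 0 ≤ e by omega)
  rw [show 0 + d = d by ring, show e + d = d + e by ring] at h6
  have h10 := K.hz
  have h11 := K.z2
  have h12 : cnt (fun j => ¬ A (j + d)) 0 e = cnt (fun j => ¬ A j) d (d + e) := h6
  omega

/-- `S(n - d) = δ + t₂` -/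
theorem F3 (K : Clu n k A d e z) (hA : Shp n k A) :
    n - d - 2 * Z A (n - d) = 2 * k - n + cnt A e (n - d) := by
  have h0 := K.th
  have h1 := K.F2 hA
  have h2 := K.F1
  have h3 := K.e0
  have h4 := cnt_ZZ A (show 0 ≤ e by omega) (show e ≤ n - d by omega)
  omega

/-- `S(e + n - j) = S(j)` on `[n - d, d + e]` -/
theorem F5 (K : Clu n k A d e z) {j : ℤ} (h1 : n - d ≤ j) (h2 : j ≤ d + e) :
    e + n - j - 2 * Z A (e + n - j) = j - 2 * Z A j := by
  have h0 := K.th
  have h3 := K.e0
  rcases le_total j (e + n - j) with h4 | h4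
  · have h5 := cnt_anti (A := A) (a := j) (b := e + n - j) (c := e + n - 1) h4 (by ring)
      (fun y a b => K.c y (by omega) (by omega))
    rw [cnt_ZZ A (by omega) h4] at h5
    omega
  · have h5 := cnt_anti (A := A) (a := e + n - j) (b := j) (c := e + n - 1) h4 (by ring)
      (fun y a b => K.c y (by omega) (by omega))
    rw [cnt_ZZ A (by omega) h4] at h5
    omega

/-- the continuation of `A` on `[0, d + e)` with antiperiod `d` -/
theorem ext (K : Clu n k A d e z) : ∃ f : ℤ → Prop, (∀ j, 0 ≤ j → j < d + e → (f j ↔ A j)) ∧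
    (∀ j, f (j + d) ↔ ¬ f j) ∧ (∀ j, f (e + n - 1 - j) ↔ ¬ f j) ∧
    ∀ j, d + e ≤ j → j < n → (f j ↔ ¬ A (j - d)) := by
  have h0 := K.th
  have h1 := K.e0
  have h2 := K.hd
  obtain ⟨f, hf, hfd⟩ := exists_anti (n := d + e) (A := A) K.dpos (fun j a b =>
    K.a j a (by omega))
  have h4 : ∀ j, d + e ≤ j → j < n → (f j ↔ ¬ A (j - d)) := by
    intro j a b
    have := hfd (j - d)
    rw [show j - d + d = j by ring, hf (j - d) (by omega) (by omega)] at this
    exact this
  refine ⟨f, hf, hfd, refl_all (w := n - d) K.dpos hfd (fun j a b => ?_), h4⟩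
  rcases lt_or_ge j (d + e) with h5 | h5
  · rw [hf j (by omega) h5, hf (e + n - 1 - j) (by omega) (by omega)]
    have := K.c j a h5
    tauto
  · rw [h4 j h5 (by omega), hf (e + n - 1 - j) (by omega) (by omega)]
    have := K.d' (j - d) (by omega) (by omega)
    rw [show e + n - 1 - d - (j - d) = e + n - 1 - j by ring] at this
    tauto

/-- (U5): an antipalindromic prefix of length `2 z` gives a complete residue system -/
theorem u5 (K : Clu n k A d e z) (hA : Shp n k A) (hn : n < 2 * k)
    (hL : ∀ j, 0 ≤ j → j < 2 * z → (A j ↔ ¬ A (2 * z - 1 - j))) : Cc k A := by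
  have h0 := K.th
  have h1 := K.e0
  have h2 := K.hd
  have hz := K.hz
  have z2 := K.z2
  have hz0 : 0 ≤ z := by rw [← hz]; exact Z_nonneg _ _
  have hZl := Z_anti (A := A) (m := 2 * z) (by omega) hL
  have hones : ∀ j, 2 * z ≤ j → j < d → A j := Z_ones (by omega) (by omega)
  obtain ⟨f, hf, hfd, hr, hs⟩ := K.ext
  have hr2 : ∀ j, f (d + e + n - 1 - j) ↔ f j := by
    intro j
    have e1 := hr j
    have e2 := hfd (e + n - 1 - j)
    rw [show e + n - 1 - j + d = d + e + n - 1 - j by ring] at e2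
    tauto
  have hl : ∀ j, f (2 * z - 1 - j) ↔ ¬ f j := by
    refine refl_all (w := 0) K.dpos hfd (fun j a b => ?_)
    rcases lt_or_ge j (2 * z) with h3 | h3
    · rw [hf j a (by omega), hf (2 * z - 1 - j) (by omega) (by omega)]
      have := hL j a h3
      tauto
    · have h4 := hfd (2 * z - 1 - j)
      rw [hf (2 * z - 1 - j + d) (by omega) (by omega)] at h4
      have h5 := hones (2 * z - 1 - j + d) (by omega) (by omega)
      rw [hf j a (by omega)]
      have h6 := hones j h3 (by omega)
      tauto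
  -- zeros on `[2 z - d, 0)`
  have hzero : ∀ j, 2 * z - d ≤ j → j < 0 → ¬ f j := by
    intro j a b
    have h4 := hfd j
    rw [hf (j + d) (by omega) (by omega)] at h4
    have h5 := hones (j + d) (by omega) (by omega)
    tauto
  have hf5 : ∀ j, f (j + 2 * (2 * k)) ↔ f j := by
    intro j
    have e1 := hl (2 * z - 1 - j)
    rw [show 2 * z - 1 - (2 * z - 1 - j) = j by ring] at e1
    have e2 := hr (2 * z - 1 - j)
    have e3 := hfd (e + n - 1 - (2 * z - 1 - j))
    have e4 := hfd (e + n - 1 - (2 * z - 1 - j) + d)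
    rw [show e + n - 1 - (2 * z - 1 - j) + d + d = j + 2 * (2 * k) by rw [z2]; ring] at e4
    tauto
  have hlast : f (n - 1) := by
    rw [hs (n - 1) (by omega) (by omega)]
    have := K.b (n - 1 - d) (by omega) (by omega)
    rw [show n - 1 - d + d = n - 1 by ring] at this
    have := hA.z1
    tauto
  have hnext : ¬ f (n - 1 + 2 * k) := by
    rw [← hr2, show d + e + n - 1 - (n - 1 + 2 * k) = d + e - 2 * k by ring]
    exact hzero _ (by omega) (by omega)
  -- ones of `f` on `[0, 4 k)` are cells of the first or the third tile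
  have hcell : ∀ y, 0 ≤ y → y < 4 * k → f y → A y ∨ A (d + e + n - 1 - y) := by
    intro y a b hy
    rcases lt_or_ge y (d + e) with h3 | h3
    · exact Or.inl ((hf y a h3).1 hy)
    · rcases lt_or_ge y n with h4 | h4
      · rw [hs y h3 h4] at hy
        have := K.b (y - d) (by omega) (by omega)
        rw [show y - d + d = y by ring, show e + n - 1 - (y - d) = d + e + n - 1 - y by ring]
          at this
        tauto
      · rw [← hr2] at hy
        rcases lt_or_ge y (d + e + n) with h5 | h5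
        · right
          rwa [hf _ (by omega) (by omega)] at hy
        · exact absurd hy (hzero _ (by omega) (by omega))
  rcases lemG K.dpos hfd hf5 with h3 | h3
  · exact absurd ((h3 (n - 1)).2 hlast) hnext
  · refine ⟨d + e + n - 1, Or.inr fun m => ?_⟩
    obtain ⟨y, y0, y1, y2⟩ := exists_rep (show 0 < 2 * k by omega) m
    have hin : ∀ y', 2 * k ∣ m - y' → 0 ≤ y' → y' < 4 * k → f y' →
        ∃ a, A a ∧ (2 * k ∣ m - a ∨ 2 * k ∣ m - (d + e + n - 1 - a)) := by
      intro y' e1 e2 e3 e4
      rcases hcell y' e2 e3 e4 with h6 | h6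
      · exact ⟨_, h6, Or.inl e1⟩
      · refine ⟨_, h6, Or.inr ?_⟩
        rwa [show m - (d + e + n - 1 - (d + e + n - 1 - y')) = m - y' by ring]
    by_cases hy : f y
    · exact hin y y2 y0 (by omega) hy
    · refine hin (y + 2 * k) ?_ (by omega) (by omega) ((h3 y).2 hy)
      have := dvd_sub y2 (dvd_refl (2 * k))
      rwa [show m - y - 2 * k = m - (y + 2 * k) by ring] at this

end Clu

end MPae024f.DS
end

section
/-! Dense sets: loops, two-cycles, runs of at least four and of three tiles. -/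
namespace MPae024f.DS

variable {n k : ℤ} {A : ℤ → Prop}

theorem Shp.kpos (hA : Shp n k A) : 0 < k := by
  have h0 := hA.rg 0 hA.z0
  have := cnt_pos (p := A) (a := 0) (b := n) le_rfl h0.2 hA.z0
  rw [hA.ct] at this
  omega

theorem Shp.kle (hA : Shp n k A) : k ≤ n := by
  have h0 := hA.npos
  have h1 := cnt_not A h0.le
  rw [hA.ct] at h1
  have := cnt_nonneg (fun y => ¬ A y) 0 n
  omega

theorem cc_of_one (h : One k A) : Cc k A := ⟨k, Or.inl (two_of_one h)⟩

theorem cc_of_MM (hk : 0 < k) (h : MM n k A) : Cc k A := by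
  obtain ⟨t, ht⟩ := mir_of_MM hk h
  exact ⟨t, Or.inr ht⟩

theorem cc_rev (h : Cc k (rev n A)) : Cc k A := by
  obtain ⟨t, h | h⟩ := h
  · refine ⟨-t, Or.inl fun m => ?_⟩
    obtain ⟨a, ha, hd⟩ := h (n - 1 - m)
    refine ⟨n - 1 - a, ha, ?_⟩
    rcases hd with hd | hd
    · left
      rw [← dvd_neg] at hd
      rwa [show -(n - 1 - m - a) = m - (n - 1 - a) by ring] at hd
    · right
      rw [← dvd_neg] at hd
      rwa [show -(n - 1 - m - (a + t)) = m - (n - 1 - a + -t) by ring] at hd
  · refine ⟨2 * (n - 1) - t, Or.inr fun m => ?_⟩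
    obtain ⟨a, ha, hd⟩ := h (n - 1 - m)
    refine ⟨n - 1 - a, ha, ?_⟩
    rcases hd with hd | hd
    · left
      rw [← dvd_neg] at hd
      rwa [show -(n - 1 - m - a) = m - (n - 1 - a) by ring] at hd
    · right
      rw [← dvd_neg] at hd
      rwa [show -(n - 1 - m - (t - a)) = m - (2 * (n - 1) - t - (n - 1 - a)) by ring] at hd

/-- `LC c` and `RC c` give (M) -/
theorem mm_of_lr (hA : Shp n k A) (hk : n < 2 * k) {c : ℤ} (h1 : LC A c) (h2 : RC n k A c) :
    MM n k A := by
  obtain ⟨c0, h1⟩ := h1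
  obtain ⟨c1, h2⟩ := h2
  refine ⟨c, c0, c1, h1, h2, ?_⟩
  have a1 := Z_anti (m := 2 * c) (by omega) h1
  have a2 : 2 * Z (rev n A) (2 * (n - k - c)) = 2 * (n - k - c) := by
    apply Z_anti (by omega)
    intro j h3 h4
    have := h2 (n - 1 - j) (by omega) (by omega)
    unfold rev
    rw [show n - 1 - (2 * (n - k - c) - 1 - j) = 2 * n - 2 * (n - k - c) - 1 - (n - 1 - j) by ring]
    exact this
  rw [Z_rev hA (by omega) (by omega)] at a2
  exact Z_ones (by omega) (by omega)

/-- holes of the suffix -/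
theorem RC.z (hA : Shp n k A) (hk : n < 2 * k) {c : ℤ} (hc : 0 ≤ c) (h : RC n k A c) :
    Z A (n - 2 * (n - k - c)) = c := by
  obtain ⟨c1, h2⟩ := h
  have a2 : 2 * Z (rev n A) (2 * (n - k - c)) = 2 * (n - k - c) := by
    apply Z_anti (by omega)
    intro j h3 h4
    have := h2 (n - 1 - j) (by omega) (by omega)
    unfold rev
    rw [show n - 1 - (2 * (n - k - c) - 1 - j) = 2 * n - 2 * (n - k - c) - 1 - (n - 1 - j) by ring]
    exact this
  rw [Z_rev hA (by omega) (by omega)] at a2
  omega

theorem LC.z {c : ℤ} (h : LC A c) : Z A (2 * c) = c := by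
  have := Z_anti (m := 2 * c) (by have := h.1; omega) h.2
  omega

theorem RC.toRev {c : ℤ} (h : RC n k A c) : LC (rev n A) (n - k - c) := by
  obtain ⟨c1, h2⟩ := h
  refine ⟨by omega, fun j a b => ?_⟩
  have := h2 (n - 1 - j) (by omega) (by omega)
  unfold MPae024f.DS.rev
  rw [show n - 1 - (2 * (n - k - c) - 1 - j) = 2 * n - 2 * (n - k - c) - 1 - (n - 1 - j) by ring]
  exact this

theorem LC.toRev {c : ℤ} (h : LC A c) : RC n k (rev n A) (n - k - c) := by
  obtain ⟨c0, h2⟩ := h
  refine ⟨by omega, fun j a b => ?_⟩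
  have := h2 (n - 1 - j) (by omega) (by omega)
  unfold MPae024f.DS.rev
  rw [show n - 1 - (2 * n - 2 * (n - k - (n - k - c)) - 1 - j) = 2 * c - 1 - (n - 1 - j) by ring]
  exact this

theorem Arr.toRev (hA : Shp n k A) {c c' : ℤ} (h : Arr n k A c c') :
    Arr n k (rev n A) (n - k - c') (n - k - c) := by
  have hu : ul n k (n - k - c') (n - k - c) = ul n k c c' := by unfold ul; ring
  have h0 := h.u0
  have h1 := h.un
  refine ⟨by rw [hu]; exact h0, by rw [hu]; exact h1, ?_, ?_, ?_⟩
  · rw [hu]
    intro j a b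
    have := h.wd (ul n k c c' - 1 - j) (by omega) (by omega)
    unfold rev
    rw [show n - ul n k c c' + (ul n k c c' - 1 - j) = n - 1 - j by ring] at this
    rw [show n - 1 - (n - ul n k c c' + j) = ul n k c c' - 1 - j by ring]
    tauto
  · rw [hu, Z_rev hA h0 h1.le, h.zs]
  · rw [hu, Z_rev hA (by omega) (by omega), show n - (n - ul n k c c') = ul n k c c' by ring, h.zt]

/-- two complementary differences -/
theorem cc_of_cycle (hA : Shp n k A) (hk : n < 2 * k) {c c' : ℤ} (h1 : Arr n k A c c')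
    (h2 : Arr n k A c' c) : Cc k A := by
  have hk0 := hA.kpos
  have a1 := h1.u0
  have a2 := h2.u0
  have a3 := h1.un
  have a4 := h2.un
  have hu : ul n k c c' + ul n k c' c = 2 * (n - k) := by unfold ul; ring
  have o1 := Z_ones (A := A) (a := ul n k c c') (b := n - ul n k c' c) a1 (by rw [h2.zs, h1.zt])
  have o2 := Z_ones (A := A) (a := ul n k c' c) (b := n - ul n k c c') a2 (by rw [h1.zs, h2.zt])
  set u := ul n k c c'
  set v := ul n k c' c
  refine ⟨n - u, Or.inl fun m => ?_⟩
  obtain ⟨y, y0, y1, y2⟩ := exists_rep (show 0 < 2 * k by omega) m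
  by_cases hy : A y
  · exact ⟨y, hy, Or.inl y2⟩
  · rcases lt_or_ge y n with h3 | h3
    · rcases lt_or_ge y (n - u) with h4 | h4
      · have h5 : y < v := by
          by_contra h6
          exact hy (o2 y (by omega) h4)
        have h6 := h2.wd y y0 h5
        refine ⟨n - v + y, by tauto, Or.inr ?_⟩
        have h7 := dvd_sub y2 (dvd_refl (2 * k))
        rwa [show m - y - 2 * k = m - (n - v + y + (n - u)) by omega] at h7
      · have h6 := h1.wd (y - (n - u)) (by omega) (by omega)
        rw [show n - u + (y - (n - u)) = y by ring] at h6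
        refine ⟨y - (n - u), by tauto, Or.inr ?_⟩
        rwa [show m - (y - (n - u) + (n - u)) = m - y by ring]
    · refine ⟨y - (n - u), o1 _ (by omega) (by omega), Or.inr ?_⟩
      rwa [show m - (y - (n - u) + (n - u)) = m - y by ring]

/-- a loop -/
theorem cc_of_loop (hA : Shp n k A) (hk : n < 2 * k) {c : ℤ} (h : Arr n k A c c) : Cc k A :=
  cc_of_cycle hA hk h h

theorem Arr.last (hA : Shp n k A) {c c' : ℤ} (h : Arr n k A c c') (hu : 0 < ul n k c c') :
    ¬ A (ul n k c c' - 1) := by
  have := h.wd (ul n k c c' - 1) (by omega) (by omega)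
  rw [show n - ul n k c c' + (ul n k c c' - 1) = n - 1 by ring] at this
  have h1 := hA.z1
  tauto

theorem Arr.first (hA : Shp n k A) {c c' : ℤ} (h : Arr n k A c c') (hu : 0 < ul n k c c') :
    ¬ A (n - ul n k c c') := by
  have := h.wd 0 le_rfl hu
  rw [add_zero] at this
  exact this.1 hA.z0

/-- three consecutive arrows (run of four tiles) -/
theorem cc_of_three (hA : Shp n k A) (hk : n < 2 * k) {c0 c1 c2 c3 : ℤ} (h1 : Arr n k A c0 c1)
    (h2 : Arr n k A c1 c2) (h3 : Arr n k A c2 c3) (s1 : ul n k c0 c1 + ul n k c1 c2 ≤ n)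
    (s2 : ul n k c1 c2 + ul n k c2 c3 ≤ n) : Cc k A := by
  have a1 := h1.u0
  have a2 := h2.u0
  have a3 := h3.u0
  have o1 := Z_ones (A := A) (a := ul n k c0 c1) (b := n - ul n k c1 c2) a1 (by rw [h2.zs, h1.zt])
  have o2 := Z_ones (A := A) (a := ul n k c1 c2) (b := n - ul n k c2 c3) a2 (by rw [h3.zs, h2.zt])
  have e1 : ul n k c2 c3 ≤ ul n k c0 c1 := by
    rcases lt_or_eq_of_le a3 with h | h
    · by_contra hc
      exact h3.last hA h (o1 _ (by omega) (by omega))
    · omega
  have e2 : ul n k c0 c1 ≤ ul n k c2 c3 := by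
    rcases lt_or_eq_of_le a1 with h | h
    · by_contra hc
      exact h1.first hA h (o2 _ (by omega) (by omega))
    · omega
  have e3 : c1 = c3 := by
    rw [← h1.zt, ← h3.zt, le_antisymm e2 e1]
  rw [← e3] at h3
  exact cc_of_cycle hA hk h2 h3

/-- the block `(-,+,+,+,-)`, first half of the case distinction -/
theorem lemma3a (hA : Shp n k A) (hk : n < 2 * k) {c0 c1 c2 : ℤ} (l : LC A c0)
    (h1 : Arr n k A c0 c1) (h2 : Arr n k A c1 c2) (r : RC n k A c2)
    (s0 : 2 * c0 + ul n k c0 c1 ≤ n) (s1 : ul n k c0 c1 + ul n k c1 c2 ≤ n)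
    (s2 : ul n k c1 c2 + 2 * (n - k - c2) ≤ n) (hlt : c2 < c0) (hc2 : 0 ≤ c2)
    (q1 : 2 * c0 ≤ ul n k c0 c1) (q2 : n - 2 * (n - k - c2) < ul n k c0 c1) : Cc k A := by
  have hkp := hA.kpos
  have a1 := h1.u0
  have a2 := h2.u0
  have b1 := h1.un
  have lz := l.z
  have rz := r.z hA hk hc2
  have i1 := Z_ones (A := A) (a := 2 * c0) (b := n - ul n k c0 c1) (by omega) (by rw [h1.zs, lz])
  have i2 := Z_ones (A := A) (a := ul n k c0 c1) (b := n - ul n k c1 c2) a1 (by rw [h2.zs, h1.zt])
  have i3 := Z_ones (A := A) (a := ul n k c1 c2) (b := n - 2 * (n - k - c2)) a2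
    (by rw [rz, h2.zt])
  -- `u1 = 2 l` gives a loop
  rcases lt_or_eq_of_le q1 with e1 | e1
  swap
  · have h3 : c0 = c1 := by rw [← lz, e1, h1.zt]
    rw [← h3] at h1
    exact cc_of_loop hA hk h1
  set u := ul n k c0 c1 with hu
  set v := ul n k c1 c2 with hv
  have e2 : v < 2 * c0 := lt_of_Z_lt (A := A) (by omega) (by rw [lz, h2.zt]; exact hlt)
  have z1 : ¬ A (2 * c0 - 1) := by
    have := l.2 0 le_rfl (by omega)
    rw [sub_zero] at this
    exact this.1 hA.z0
  have e3 : n - 2 * (n - k - c2) ≤ 2 * c0 - 1 := by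
    by_contra hc
    exact z1 (i3 _ (by omega) (by omega))
  have e4 : n - u ≤ u - 1 := by
    by_contra hc
    exact h1.last hA (by omega) (i1 _ (by omega) (by omega))
  have sym : ∀ i, 0 ≤ i → i < u → (A i ↔ A (n - 2 * (n - k - c2) + u - 1 - i)) := by
    intro i b2 b3
    have g1 := h1.wd i b2 b3
    have g2 := r.2 (n - u + i) (by omega) (by omega)
    rw [show 2 * n - 2 * (n - k - c2) - 1 - (n - u + i) = n - 2 * (n - k - c2) + u - 1 - i by
      ring] at g2
    tauto
  have e5 : v = 0 := by
    by_contra hc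
    have g1 := h2.last hA (by omega)
    have g2 := sym (v - 1) (by omega) (by omega)
    have g3 : ¬ A (n - 2 * (n - k - c2) + u - 1 - (v - 1)) := by tauto
    exact g3 (i2 _ (by omega) (by omega))
  have e6 : c2 = 0 := by rw [← h2.zt, ← hv, e5, Z_zero]
  rw [e6] at r
  exact cc_of_MM hkp (mm_of_lr hA hk ⟨le_rfl, fun j b2 b3 => by omega⟩ r)

/-- the block `(-,+,+,+,-)` -/
theorem lemma3 (hA : Shp n k A) (hk : n < 2 * k) {c0 c1 c2 : ℤ} (l : LC A c0)
    (h1 : Arr n k A c0 c1) (h2 : Arr n k A c1 c2) (r : RC n k A c2)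
    (s0 : 2 * c0 + ul n k c0 c1 ≤ n) (s1 : ul n k c0 c1 + ul n k c1 c2 ≤ n)
    (s2 : ul n k c1 c2 + 2 * (n - k - c2) ≤ n) : Cc k A := by
  have hkp := hA.kpos
  have a1 := h1.u0
  have a2 := h2.u0
  have hc2 : 0 ≤ c2 := by rw [← h2.zt]; exact cnt_nonneg _ _ _
  have lz := l.z
  have l0 := l.1
  have r0 := r.1
  have rz := r.z hA hk hc2
  have i1 := Z_ones (A := A) (a := 2 * c0) (b := n - ul n k c0 c1) (by omega) (by rw [h1.zs, lz])
  have i2 := Z_ones (A := A) (a := ul n k c0 c1) (b := n - ul n k c1 c2) a1 (by rw [h2.zs, h1.zt])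
  have e1 : ul n k c1 c2 ≤ 2 * c0 := by
    rcases lt_or_eq_of_le a2 with h | h
    · by_contra hc
      exact h2.last hA h (i1 _ (by omega) (by omega))
    · omega
  have e2 : c2 ≤ c0 := by
    rw [← lz]
    calc c2 = Z A (ul n k c1 c2) := h2.zt.symm
      _ ≤ Z A (2 * c0) := Z_mono a2 e1
  rcases lt_or_eq_of_le e2 with hlt | heq
  swap
  · rw [heq] at r
    exact cc_of_MM hkp (mm_of_lr hA hk l r)
  have z1 : ¬ A (2 * c0 - 1) := by
    have := l.2 0 le_rfl (by omega)
    rw [sub_zero] at this
    exact this.1 hA.z0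
  have hc0 : c0 ≤ n - k := by
    rw [← h1.zs, ← Z_n hA]
    exact Z_mono (by have := h1.un; omega) (by omega)
  have z2 : ¬ A (n - 2 * (n - k - c2)) := by
    have := r.2 (n - 2 * (n - k - c2)) le_rfl (by omega)
    rw [show 2 * n - 2 * (n - k - c2) - 1 - (n - 2 * (n - k - c2)) = n - 1 by ring] at this
    have h3 := hA.z1
    tauto
  have f1 : ul n k c1 c2 < 2 * c0 :=
    lt_of_Z_lt (A := A) (by omega) (by rw [lz, h2.zt]; exact hlt)
  have f2 : n - 2 * (n - k - c2) < n - ul n k c0 c1 :=
    lt_of_Z_lt (A := A) (by have := h1.un; omega) (by rw [rz, h1.zs]; exact hlt)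
  have g1 : 2 * c0 ≤ ul n k c0 c1 ∨ n - ul n k c1 c2 ≤ 2 * c0 - 1 := by
    by_contra hc
    push Not at hc
    exact z1 (i2 _ (by omega) (by omega))
  have g2 : n - 2 * (n - k - c2) < ul n k c0 c1 ∨ n - ul n k c1 c2 ≤ n - 2 * (n - k - c2) := by
    by_contra hc
    push Not at hc
    exact z2 (i2 _ (by omega) (by omega))
  rcases g1 with g1 | g1
  · rcases g2 with g2 | g2
    · exact lemma3a hA hk l h1 h2 r s0 s1 s2 hlt hc2 g1 g2
    · omega
  · rcases g2 with g2 | g2
    · omega
    · have hu1 : ul n k (n - k - c2) (n - k - c1) = ul n k c1 c2 := by unfold ul; ring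
      have hu2 : ul n k (n - k - c1) (n - k - c0) = ul n k c0 c1 := by unfold ul; ring
      apply cc_rev (n := n)
      refine lemma3a hA.rev hk r.toRev (h2.toRev hA) (h1.toRev hA) l.toRev ?_ ?_ ?_ ?_ ?_ ?_ ?_
      · rw [hu1]; omega
      · rw [hu1, hu2]; omega
      · rw [hu2]; omega
      · omega
      · omega
      · rw [hu1]; omega
      · rw [hu1]; omega

end MPae024f.DS
end

section
/-! Dense sets, unclean tilings: statements about words. `CW n k d e A` collects what a symmetric
cluster `+ + - -` with distances `d, e, d` (positions `0, d, d + e, 2 d + e`) says about `A`. -/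
namespace MPae024f.DS

variable {n k : ℤ} {A : ℤ → Prop}

/-- the word of a symmetric cluster -/
structure CW (n k d e : ℤ) (A : ℤ → Prop) : Prop where
  d0 : 0 < d
  e0 : 0 < e
  sn : d + e < n
  dn : n < 2 * d + e
  /-- tiles 1 and 2 are disjoint -/
  t12 : ∀ j, ¬ (A j ∧ A (j + d))
  /-- tiles 1 and 3 are disjoint -/
  t13 : ∀ j, ¬ (A j ∧ A (d + e + n - 1 - j))
  /-- tiles 2 and 3 are disjoint -/
  t23 : ∀ j, ¬ (A j ∧ A (n - 1 + e - j))
  /-- only tiles 1 and 2 -/
  a : ∀ j, 0 ≤ j → j < e → (A j ↔ ¬ A (j + d))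
  /-- only tiles 1, 2, 3 -/
  b : ∀ j, e ≤ j → j < n - d → (A j ∨ A (j + d) ∨ A (e + n - 1 - j))
  /-- only tiles 2 and 3 -/
  c : ∀ j, n - d ≤ j → j < d + e → (A j ↔ ¬ A (n - 1 + e - j))
  pal : ∀ j, e ≤ j → j < n - d → (A j ↔ A (e + n - 1 - d - j))
  zd : 2 * Z A d = 2 * d + e + n - 4 * k

/-- ones and holes of a prefix -/
theorem ones_Z {m : ℤ} (hm : 0 ≤ m) : cnt A 0 m = m - Z A m := by
  have := cnt_not A hm
  unfold Z
  omega

theorem cntZ {a b : ℤ} (ha : 0 ≤ a) (hab : a ≤ b) : cnt A a b = (b - a) - (Z A b - Z A a) := by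
  have h1 := cnt_split A ha hab
  rw [ones_Z ha, ones_Z (ha.trans hab)] at h1
  omega

theorem cntnZ {a b : ℤ} (ha : 0 ≤ a) (hab : a ≤ b) :
    cnt (fun j => ¬ A j) a b = Z A b - Z A a := by
  have h1 := cnt_not A hab
  rw [cntZ ha hab] at h1
  omega

theorem cntSh (p : ℤ → Prop) (a b c : ℤ) : cnt (fun y => p (y + c)) a b = cnt p (a + c) (b + c) := by
  have := cnt_shift (fun y => p (y + c)) a b c
  rw [← this]
  apply cnt_congr
  intro y _ _
  rw [show y - c + c = y by ring]

/-- every window of length `d` -/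
theorem per_all {P : ℤ → Prop} {d a : ℤ} (hd : 0 < d) (h : ∀ y, P (y + d) ↔ P y)
    (hw : ∀ y, a ≤ y → y < a + d → P y) : ∀ y, P y := by
  have hm : ∀ (w : ℕ) (y : ℤ), P (y + d * w) ↔ P y := by
    intro w
    induction w with
    | zero => intro y; simp
    | succ w ih =>
      intro y
      rw [show y + d * ((w + 1 : ℕ) : ℤ) = y + d * w + d by push_cast; ring, h, ih]
  intro y
  obtain ⟨j, h0, h1, c, hc⟩ := exists_rep hd (y - a)
  have h2 : P (a + j) := hw _ (by omega) (by omega)
  rcases le_total 0 c with h3 | h3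
  · have := hm c.toNat (a + j)
    rw [show ((c.toNat : ℕ) : ℤ) = c by omega, show a + j + d * c = y by linarith] at this
    exact this.2 h2
  · have := hm (-c).toNat y
    rw [show (((-c).toNat : ℕ) : ℤ) = -c by omega, show y + d * -c = a + j by linarith] at this
    exact this.1 h2

/-- antiperiodic extension -/
theorem exists_antiU (A : ℤ → Prop) {d : ℤ} (hd : 0 < d) :
    ∃ B : ℤ → Prop, (∀ y, B (y + d) ↔ ¬ B y) ∧ ∀ y, 0 ≤ y → y < d → (B y ↔ A y) := by
  refine ⟨fun y => if (y / d) % 2 = 0 then A (y % d) else ¬ A (y % d), fun y => ?_, fun y h0 h1 => ?_⟩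
  · have h1 : (y + d) / d = y / d + 1 := by
      rw [Int.add_ediv_of_dvd_right (dvd_refl d), Int.ediv_self hd.ne']
    have h2 : (y + d) % d = y % d := by simp
    simp only [h1, h2]
    rcases Int.emod_two_eq_zero_or_one (y / d) with h3 | h3
    · rw [if_neg (by omega), if_pos h3]
    · rw [if_pos (by omega), if_neg (by omega), not_not]
  · simp only [Int.ediv_eq_zero_of_lt h0 h1, Int.emod_eq_of_lt h0 h1]
    simp

/-- antisymmetry of an antiperiodic word about one centre, from a window -/
theorem anti_all {B : ℤ → Prop} {d a c : ℤ} (hd : 0 < d) (h : ∀ y, B (y + d) ↔ ¬ B y)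
    (hw : ∀ y, a ≤ y → y < a + d → (B y ↔ ¬ B (c - y))) : ∀ y, B y ↔ ¬ B (c - y) := by
  apply per_all hd (a := a) _ hw
  intro y
  have h1 := h y
  have h2 := h (c - (y + d))
  rw [show c - (y + d) + d = c - y by ring] at h2
  tauto

namespace CW

variable {d e : ℤ}

theorem hi (w : CW n k d e A) (hA : Shp n k A) : ¬ A (n - 1 - d) := by
  have := w.t12 (n - 1 - d)
  rw [show n - 1 - d + d = n - 1 by ring] at this
  have h1 := hA.z1
  tauto

theorem hs (w : CW n k d e A) (hA : Shp n k A) : ¬ A (d + e) := by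
  have := w.t13 (d + e)
  rw [show d + e + n - 1 - (d + e) = n - 1 by ring] at this
  have h1 := hA.z1
  tauto

theorem he (w : CW n k d e A) (hA : Shp n k A) : ¬ A e := by
  have := w.t23 e
  rw [show n - 1 + e - e = n - 1 by ring] at this
  have h1 := hA.z1
  tauto

/-- `2 q(s) ≤ θ` -/
theorem q2 (w : CW n k d e A) (hA : Shp n k A) :
    2 * (k - (d + e) + Z A (d + e)) ≤ n - (d + e) := by
  have h0 := w.d0
  have h1 := w.e0
  have h2 := w.sn
  have h3 : cnt A (d + e) n = k - (d + e) + Z A (d + e) := by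
    rw [cntZ (by omega) (by omega), Z_n hA]; ring
  have h4 := cnt_refl A (d + e) n (d + e + n - 1)
  rw [show d + e + n - 1 + 1 - n = d + e by ring, show d + e + n - 1 + 1 - (d + e) = n by ring] at h4
  have h5 := cnt_or (p := A) (q := fun y => A (d + e + n - 1 - y)) (a := d + e) (b := n)
    (fun y _ _ => w.t13 y)
  have h6 := cnt_mono (p := fun y => A y ∨ A (d + e + n - 1 - y)) (q := fun _ => True)
    (a := d + e) (b := n) (fun y _ _ _ => trivial)
  rw [cnt_all (by omega) (fun y _ _ => trivial)] at h6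
  rw [h3] at h4 h5
  omega

/-- `q(s) ≥ 1` -/
theorem q1 (w : CW n k d e A) (hA : Shp n k A) : 1 ≤ k - (d + e) + Z A (d + e) := by
  have h0 := w.d0
  have h1 := w.e0
  have h2 := w.sn
  have h3 : cnt A (d + e) n = k - (d + e) + Z A (d + e) := by
    rw [cntZ (by omega) (by omega), Z_n hA]; ring
  rw [← h3]
  exact cnt_pos (y := n - 1) (by omega) (by omega) hA.z1

/-- exact cover of `[s, n)` -/
theorem psi (w : CW n k d e A) (hA : Shp n k A) :
    Z A (n - d) - Z A e = 2 * (k - (d + e) + Z A (d + e)) := by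
  have h0 := w.d0
  have h1 := w.e0
  have h2 := w.sn
  have h3 : cnt A (d + e) n = k - (d + e) + Z A (d + e) := by
    rw [cntZ (by omega) (by omega), Z_n hA]; ring
  have h4 := cnt_refl A (d + e) n (d + e + n - 1)
  rw [show d + e + n - 1 + 1 - n = d + e by ring, show d + e + n - 1 + 1 - (d + e) = n by ring] at h4
  have h5 := cnt_or (p := A) (q := fun y => A (d + e + n - 1 - y)) (a := d + e) (b := n)
    (fun y _ _ => w.t13 y)
  -- the rest is tile 2
  have h6 : cnt (fun y => ¬ A y) e (n - d) =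
      cnt (fun y => A y ∨ A (d + e + n - 1 - y)) (d + e) n := by
    have h7 := cntSh (fun y => A y ∨ A (d + e + n - 1 - y)) e (n - d) d
    rw [show e + d = d + e by ring, show n - d + d = n by ring] at h7
    rw [← h7]
    apply cnt_congr
    intro y h8 h9
    have g1 := w.b y h8 h9
    have g2 := w.t12 y
    have g3 := w.t23 y
    rw [show d + e + n - 1 - (y + d) = e + n - 1 - y by ring]
    rw [show n - 1 + e - y = e + n - 1 - y by ring] at g3
    tauto
  rw [cntnZ (by omega) (by omega)] at h6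
  rw [h3] at h4 h5
  omega

/-- `[d, d + m)` is the complement of `[0, m)` -/
theorem za (w : CW n k d e A) {m : ℤ} (h0 : 0 ≤ m) (h1 : m ≤ e) :
    Z A (d + m) - Z A d = m - Z A m := by
  have := w.d0
  have h4 : cnt (fun y => ¬ A y) 0 m = cnt A d (d + m) := by
    have h7 := cntSh A 0 m d
    rw [show 0 + d = d by ring, show m + d = d + m by ring] at h7
    rw [← h7]
    apply cnt_congr
    intro y h8 h9
    have := w.a y h8 (by omega)
    tauto
  rw [cntnZ le_rfl h0, cntZ (by omega) (by omega), Z_zero] at h4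
  omega

/-- holes of tile 2 left of the end of tile 1 -/
theorem znd (w : CW n k d e A) (hA : Shp n k A) :
    Z A (n - d) = k - d + Z A d + (k - (d + e) + Z A (d + e)) := by
  have h0 := w.d0
  have h1 := w.e0
  have h2 := w.sn
  have h3 := w.psi hA
  -- `[d, s)`
  have h4 : cnt (fun y => ¬ A y) 0 e = cnt A d (d + e) := by
    have h7 := cntSh A 0 e d
    rw [show 0 + d = d by ring, show e + d = d + e by ring] at h7
    rw [← h7]
    apply cnt_congr
    intro y h8 h9
    have := w.a y h8 h9
    tauto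
  rw [cntnZ le_rfl (by omega), cntZ (by omega) (by omega), Z_zero] at h4
  -- `[s, n)` for tile 1
  have h5 := cntZ (A := A) (a := d + e) (b := n) (by omega) (by omega)
  rw [Z_n hA] at h5
  omega

end CW

end MPae024f.DS
end

section
/-! Dense sets, unclean tilings: the run `+ + +` between a clean wall and a cluster (word level). -/
namespace MPae024f.DS

variable {n k : ℤ} {A : ℤ → Prop}

/-- counting in an antipalindromic prefix -/
theorem Z_anti_pre {m v : ℤ} (hv : 0 ≤ v) (hvm : v ≤ m)
    (h : ∀ j, 0 ≤ j → j < m → (A j ↔ ¬ A (m - 1 - j))) : Z A m - Z A (m - v) = v - Z A v := by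
  have h1 : cnt (fun y => ¬ A y) (m - v) m = cnt A 0 v := by
    have h2 := cnt_refl A 0 v (m - 1)
    rw [show m - 1 + 1 - v = m - v by ring, show m - 1 + 1 - 0 = m by ring] at h2
    rw [← h2]
    apply cnt_congr
    intro y h3 h4
    have := h y (by omega) h4
    tauto
  rw [cntnZ (by omega) (by omega), ones_Z hv] at h1
  exact h1

theorem U8w (hA : Shp n k A) (hk : n < 2 * k) {d e l u : ℤ} (w : CW n k d e A)
    (hl0 : 0 ≤ l) (hl : ∀ j, 0 ≤ j → j < 2 * l → (A j ↔ ¬ A (2 * l - 1 - j)))
    (hlu : 2 * l ≤ n - u) (o1 : ∀ j, 2 * l ≤ j → j < n - u → A j) (hu0 : 0 ≤ u)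
    (hud : u ≤ d) (aa : ∀ j, 0 ≤ j → j < u → (A j ↔ ¬ A (n - u + j)))
    (o2 : ∀ j, u ≤ j → j < d → A j) (hu : u = n - k - l + Z A d) :
    ∀ j, 0 ≤ j → j < 2 * Z A d → (A j ↔ ¬ A (2 * Z A d - 1 - j)) := by
  have d0 := w.d0
  have e0 := w.e0
  have sn := w.sn
  have dn := w.dn
  have zd := w.zd
  have znd := w.znd hA
  have q1 := w.q1 hA
  have q2 := w.q2 hA
  have psi := w.psi hA
  have hs := w.hs hA
  have he := w.he hA
  have hi := w.hi hA
  have Zu : Z A d = Z A u := Z_eq hu0 hud o2
  have Zl : 2 * Z A (2 * l) = 2 * l := Z_anti (by omega) hl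
  have Znn : ∀ m, 0 ≤ Z A m := fun m => cnt_nonneg _ _ _
  have Zn := Z_n hA
  -- (1)
  have s1 : d < n - u := by
    by_contra hc
    have g1 := aa (d + e - (n - u)) (by omega) (by omega)
    rw [show n - u + (d + e - (n - u)) = d + e by ring] at g1
    have g2 := w.t23 (d + e - (n - u))
    rw [show n - 1 + e - (d + e - (n - u)) = n - 1 - d + (n - u) by ring] at g2
    have g3 := aa (n - 1 - d) (by omega) (by omega)
    rw [show n - u + (n - 1 - d) = n - 1 - d + (n - u) by ring] at g3
    tauto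
  -- (2)
  have s2 : n - d < 2 * l := by
    have g1 : n - d ≤ 2 * l := by
      by_contra hc
      apply hi
      exact o1 _ (by omega) (by omega)
    rcases lt_or_eq_of_le g1 with g2 | g2
    · exact g2
    · rw [g2] at znd
      omega
  have z2l : ¬ A (2 * l - 1) := by
    have := hl 0 le_rfl (by omega)
    rw [sub_zero] at this
    exact this.1 hA.z0
  -- (3)
  have s3 : d < 2 * l := by
    by_contra hc
    exact z2l (o2 _ (by omega) (by omega))
  obtain ⟨B, hB1, hB2⟩ := exists_antiU A d0
  have hBA : ∀ y, 0 ≤ y → y < d + e → (B y ↔ A y) := by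
    have : ∀ m : ℕ, ∀ y, 0 ≤ y → y < d + e → y < m → (B y ↔ A y) := by
      intro m
      induction m with
      | zero => intro y h1 h2 h3; push_cast at h3; omega
      | succ m ih =>
        intro y h1 h2 h3
        rcases lt_or_ge y d with h4 | h4
        · exact hB2 y h1 h4
        · have h5 := hB1 (y - d)
          have h6 := w.a (y - d) (by omega) (by omega)
          have h7 := ih (y - d) (by omega) (by omega) (by push_cast at h3; omega)
          rw [sub_add_cancel] at h5 h6
          tauto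
    intro y h1 h2
    exact this (y.toNat + 1) y h1 h2 (by push_cast; omega)
  -- values of `B` on `[s, n)`
  have hBs : ∀ i, 0 ≤ i → i < n - (d + e) → (B (d + e + i) ↔ ¬ A (e + i)) := by
    intro i h1 h2
    have g1 := hB1 (e + i)
    rw [show e + i + d = d + e + i by ring] at g1
    have g2 := hBA (e + i) (by omega) (by omega)
    tauto
  -- global antisymmetry
  have hB3 : ∀ y, B y ↔ ¬ B (n - 1 + e - y) := by
    apply anti_all d0 hB1 (a := n - d)
    intro y h1 h2
    rcases lt_or_ge y (d + e) with h3 | h3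
    · have g1 := w.c y h1 h3
      have g2 := hBA y (by omega) h3
      have g3 := hBA (n - 1 + e - y) (by omega) (by omega)
      tauto
    · have g1 := hBs (y - (d + e)) (by omega) (by omega)
      rw [show d + e + (y - (d + e)) = y by ring, show e + (y - (d + e)) = y - d by ring] at g1
      have g2 := hBA (n - 1 + e - y) (by omega) (by omega)
      have g3 := w.pal (y - d) (by omega) (by omega)
      rw [show e + n - 1 - d - (y - d) = n - 1 + e - y by ring] at g3
      tauto
  have hBss : B (d + e) := by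
    have := hBs 0 le_rfl (by omega)
    rw [add_zero, add_zero] at this
    exact this.2 he
  rcases le_or_gt (2 * l) (d + e) with hc | hc
  · -- (5)
    have hB4 : ∀ y, B y ↔ ¬ B (2 * l - 1 - y) := by
      apply anti_all d0 hB1 (a := 0)
      intro y h1 h2
      have g1 := hl y h1 (by omega)
      have g2 := hBA y h1 (by omega)
      have g3 := hBA (2 * l - 1 - y) (by omega) (by omega)
      tauto
    rcases eq_or_lt_of_le hu0 with h0 | h0
    · intro j h1 h2
      have h3 : Z A d = 0 := by rw [Zu, ← h0, Z_zero]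
      omega
    have Ad0 : ¬ A (n - u) := by
      have := aa 0 le_rfl h0
      rw [add_zero] at this
      exact this.1 hA.z0
    have Bd0 : B (n - u) := by
      rw [hB4]
      have g1 := hB1 (2 * l - 1 - (n - u))
      have g2 := hBA (2 * l - 1 - (n - u) + d) (by omega) (by omega)
      have g3 := o2 (2 * l - 1 - (n - u) + d) (by omega) (by omega)
      tauto
    have s4 : d + e ≤ n - u := by
      by_contra hcon
      have := hBA (n - u) (by omega) (by omega)
      tauto
    have s5 : n - u = d + e := by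
      rcases lt_or_eq_of_le s4 with h1 | h1
      · exact absurd (o1 _ hc h1) hs
      · exact h1.symm
    -- exactly one
    have ex : ∀ i, 0 ≤ i → i < u → ((A i ↔ A (u - 1 - i)) ↔ A (e + i)) := by
      intro i h1 h2
      have g1 := w.b (e + i) (by omega) (by omega)
      have g2 := w.t12 (e + i)
      have g3 := w.t23 (e + i)
      have g4 := aa i h1 h2
      have g5 := aa (u - 1 - i) (by omega) (by omega)
      have g6 := w.t13 (e + i + d)
      rw [show d + e + n - 1 - (e + i + d) = n - u + (u - 1 - i) by omega] at g6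
      rw [show e + n - 1 - (e + i) = n - u + (u - 1 - i) by ring] at g1
      rw [show n - 1 + e - (e + i) = n - u + (u - 1 - i) by ring] at g3
      rw [show e + i + d = n - u + i by omega] at g1 g2 g6
      tauto
    have Zs : k - (d + e) + Z A (d + e) = Z A u := by
      have h1 : cnt A (d + e) n = cnt (fun y => ¬ A y) 0 u := by
        have h2 := cntSh A 0 u (d + e)
        rw [show 0 + (d + e) = d + e by ring, show u + (d + e) = n by omega] at h2
        rw [← h2]
        apply cnt_congr
        intro y h3 h4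
        have := aa y h3 h4
        rw [show n - u + y = y + (d + e) by omega] at this
        tauto
      rw [cntZ (by omega) (by omega), Zn] at h1
      unfold Z
      unfold Z at h1
      omega
    have hw := Z_anti_pre (m := 2 * l) (v := 2 * l - (n - d)) (by omega) (by omega) hl
    rw [show 2 * l - (2 * l - (n - d)) = n - d by ring] at hw
    set v := 2 * l - (n - d) with hv
    rcases le_or_gt u v with h5 | h5
    · -- (5a)
      have h6 : Z A v = Z A u := Z_eq hu0 h5 (fun j h7 h8 => o2 j h7 (by omega))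
      have h7 : u = 2 * Z A d := by omega
      intro j h8 h9
      have g1 := ex j h8 (by omega)
      have g2 : ¬ A (e + j) := by
        intro hcon
        have g3 := cnt_pos (p := A) (a := e) (b := n - d) (y := e + j) (by omega) (by omega) hcon
        rw [cntZ (by omega) (by omega)] at g3
        omega
      rw [← h7]
      tauto
    · -- (5b)
      exfalso
      have hv0 : 0 < v := by omega
      have h6 : ∀ i, 0 ≤ i → i < u → (A (v + i) ↔ ¬ A (e + i)) := by
        intro i h1 h2
        have g1 := hBs i h1 (by omega)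
        have g2 := hB4 (v + i)
        have g3 := hB3 (d + e + i)
        rw [show 2 * l - 1 - (v + i) = n - 1 - d - i by omega] at g2
        rw [show n - 1 + e - (d + e + i) = n - 1 - d - i by ring] at g3
        have g6 := hBA (v + i) (by omega) (by omega)
        tauto
      have h7 : ∀ i, 0 ≤ i → i < v → A (v + i) := by
        intro i h1 h2
        rw [h6 i h1 (by omega)]
        have g1 := w.pal (e + i) (by omega) (by omega)
        rw [show e + n - 1 - d - (e + i) = e + (u - 1 - i) by omega] at g1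
        have g2 := h6 (u - 1 - i) (by omega) (by omega)
        have g3 := o2 (v + (u - 1 - i)) (by omega) (by omega)
        tauto
      rcases le_or_gt u (2 * v) with h8 | h8
      · have h9 : Z A u = Z A v := by
          apply Z_eq (by omega) h5.le
          intro j g1 g2
          have := h7 (j - v) (by omega) (by omega)
          rwa [add_sub_cancel] at this
        omega
      · have h9 : Z A (2 * v) = Z A v := by
          apply Z_eq (by omega) (by omega)
          intro j g1 g2
          have := h7 (j - v) (by omega) (by omega)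
          rwa [add_sub_cancel] at this
        have h10 := cnt_nonneg A (2 * v) u
        rw [cntZ (by omega) (by omega)] at h10
        have := Znn v
        omega
  · -- (6)
    exfalso
    set v := 2 * l - (d + e) with hv
    have Av : A (v - 1) := by
      have := hl (d + e) (by omega) hc
      rw [show 2 * l - 1 - (d + e) = v - 1 by omega] at this
      tauto
    have s6 : e < v := by
      by_contra hcon
      have hB4 : ∀ y, B y ↔ ¬ B (2 * l - 1 - y) := by
        apply anti_all d0 hB1 (a := v)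
        intro y h1 h2
        have g1 := hl y (by omega) (by omega)
        have g2 := hBA y (by omega) (by omega)
        have g3 := hBA (2 * l - 1 - y) (by omega) (by omega)
        tauto
      have g1 := hB4 (d + e)
      rw [show 2 * l - 1 - (d + e) = v - 1 by omega] at g1
      have g2 := hBA (v - 1) (by omega) (by omega)
      tauto
    have s7 : e < u := by
      by_contra hcon
      exact he (o2 e (by omega) (by omega))
    have hw := Z_anti_pre (m := 2 * l) (v := v) (by omega) (by omega) hl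
    rw [show 2 * l - v = d + e by omega] at hw
    have ze := w.za e0.le le_rfl
    have hvn := Znn v
    have hen := Znn e
    have hun := Znn u
    rcases le_or_gt (n - d) d with h1 | h1
    · have h2 : Z A (n - d) = Z A u :=
        Z_eq hu0 (by omega) (fun j g1 g2 => o2 j g1 (by omega))
      have h3 : Z A (n - u) = Z A (2 * l) := Z_eq (by omega) hlu o1
      omega
    · have h2 := w.za (m := n - d - d) (by omega) (by omega)
      rw [show d + (n - d - d) = n - d by ring] at h2
      have h3 := Znn (n - d - d)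
      omega

end MPae024f.DS
end

section
/-! Dense sets: `Clu` and `CW`; the run `+ + +` between a clean wall and a cluster. -/
namespace MPae024f.DS

variable {n k d e z : ℤ} {A : ℤ → Prop}

/-- the count `2 z = 2 d + e + n - 4 k` follows from the cell facts -/
theorem Clu.of_word (hA : Shp n k A) (e0 : 1 ≤ e) (th : d + e < n) (hd : n < 2 * d + e)
    (a : ∀ j, 0 ≤ j → j < e → (A j ↔ ¬ A (j + d)))
    (b : ∀ j, e ≤ j → j < n - d → (A j ∨ A (j + d) ∨ A (e + n - 1 - j)) ∧
      ¬ (A j ∧ A (j + d)) ∧ ¬ (A j ∧ A (e + n - 1 - j)) ∧ ¬ (A (j + d) ∧ A (e + n - 1 - j)))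
    (c : ∀ j, n - d ≤ j → j < d + e → (A j ↔ ¬ A (e + n - 1 - j))) :
    Clu n k A d e (Z A d) := by
  refine ⟨e0, th, hd, a, b, c, rfl, ?_⟩
  have h1 : cnt (fun j => A j ∨ A (j + d) ∨ A (e + n - 1 - j)) e (n - d) = n - d - e :=
    cnt_all (by omega) (fun j g1 g2 => (b j g1 g2).1)
  have h2 : cnt (fun j => A (j + d) ∨ A (e + n - 1 - j)) e (n - d) =
      cnt (fun j => A (j + d)) e (n - d) + cnt (fun j => A (e + n - 1 - j)) e (n - d) :=
    cnt_or (fun j g1 g2 => (b j g1 g2).2.2.2)
  rw [cnt_or (p := A) (q := fun j => A (j + d) ∨ A (e + n - 1 - j)) (fun j g1 g2 h => by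
    have := b j g1 g2
    tauto), h2, cnt_sh A e (n - d) d] at h1
  have h3 := cnt_refl A (d + e) n (e + n - 1)
  rw [show e + n - 1 + 1 - n = e by ring, show e + n - 1 + 1 - (d + e) = n - d by ring] at h3
  rw [h3, show e + d = d + e by ring, show n - d + d = n by ring] at h1
  have h4 := cnt_anti (A := A) (a := n - d) (b := d + e) (c := e + n - 1) (by omega) (by ring) c
  have h5 := hA.ct
  have h6 := h5
  rw [cnt_split A (show 0 ≤ e by omega) (show e ≤ n by omega),
    cnt_split A (show e ≤ n - d by omega) (show n - d ≤ n by omega),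
    cnt_split A (show n - d ≤ d + e by omega) (show d + e ≤ n by omega)] at h5
  rw [cnt_split A (show 0 ≤ d by omega) (show d ≤ n by omega),
    cnt_split A (show d ≤ d + e by omega) (show d + e ≤ n by omega)] at h6
  have h7 : cnt A 0 e = cnt (fun j => ¬ A (j + d)) 0 e := cnt_congr a
  have h8 := cnt_sh (fun j => ¬ A j) 0 e d
  have h9 := cnt_not A (show d ≤ d + e by omega)
  have h10 := cnt_Z A (show 0 ≤ d by omega)
  rw [show 0 + d = d by ring, show e + d = d + e by ring] at h8
  omega

theorem Clu.toCW (K : Clu n k A d e z) (hA : Shp n k A) : CW n k d e A := by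
  have h1 := K.e0
  have h2 := K.th
  have h3 := K.hd
  have h4 := K.dpos
  refine ⟨h4, by omega, h2, h3, ?_, ?_, ?_, K.a, ?_, ?_, K.d', ?_⟩
  · rintro j ⟨g1, g2⟩
    have r1 := hA.rg _ g1
    have r2 := hA.rg _ g2
    rcases lt_or_ge j e with h | h
    · exact (K.a j r1.1 h).1 g1 g2
    · exact (K.b j h (by omega)).2.1 ⟨g1, g2⟩
  · rintro j ⟨g1, g2⟩
    have r1 := hA.rg _ g1
    have r2 := hA.rg _ g2
    have := (K.b (j - d) (by omega) (by omega)).2.2.2
    rw [show j - d + d = j by ring, show e + n - 1 - (j - d) = d + e + n - 1 - j by ring] at this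
    exact this ⟨g1, g2⟩
  · intro j
    have := K.dj hA j
    rwa [show e + n - 1 - j = n - 1 + e - j by ring] at this
  · intro j g1 g2
    exact (K.b j g1 g2).1
  · intro j g1 g2
    have := K.c j g1 g2
    rwa [show e + n - 1 - j = n - 1 + e - j by ring] at this
  · rw [K.hz]
    exact K.z2

/-- the run `+ + +` (tiles 0, 1, 2) between a clean wall (overlap `2 l`) and the cluster of the
tiles 1, 2, 3, 4; `u` is the overlap of the tiles 0 and 1 -/
theorem Clu.u8 (K : Clu n k A d e z) (hA : Shp n k A) (hk : n < 2 * k) {l u : ℤ}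
    (hl0 : 0 ≤ l) (hl : ∀ j, 0 ≤ j → j < 2 * l → (A j ↔ ¬ A (2 * l - 1 - j)))
    (hlu : 2 * l ≤ n - u) (o1 : ∀ j, 2 * l ≤ j → j < n - u → A j) (hu0 : 0 ≤ u)
    (hud : u ≤ d) (aa : ∀ j, 0 ≤ j → j < u → (A j ↔ ¬ A (n - u + j)))
    (o2 : ∀ j, u ≤ j → j < d → A j) (hu : u = n - k - l + z) : Cc k A := by
  apply K.u5 hA hk
  have := U8w hA hk (K.toCW hA) hl0 hl hlu o1 hu0 hud aa o2 (by rw [K.hz]; exact hu)
  rw [K.hz] at this
  exact this

/-- two clusters with the same distance on the two sides (word level) -/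
theorem Clu.same (R : Clu n k A d e z) (hA : Shp n k A) (hk : n < 2 * k) {e' z' : ℤ}
    (L : Clu n k (rev n A) d e' z') : False := by
  have w := R.toCW hA
  have h1 := w.znd hA
  have h2 := w.q2 hA
  have h3 := L.hz
  have h4 := w.d0
  have h5 := w.sn
  have h6 := w.e0
  rw [Z_rev hA (by omega) (by omega)] at h3
  have h7 := R.hz
  have h8 := R.z2
  have h9 := L.z2
  have h10 := L.th
  have h11 := L.e0
  omega

end MPae024f.DS
end

section
/-! Dense sets: two clusters `(-,-,+,+)` and `(+,+,-,-)` cannot share a tile. -/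
namespace MPae024f.DS

variable {n k d e z d₀ e₀ z₀ : ℤ} {A : ℤ → Prop}

theorem double_aux (hA : Shp n k A) (hn : n < 2 * k) (R : Clu n k A d e z)
    (L : Clu n k (rev n A) d₀ e₀ z₀) (h : z + z₀ = n - k) (hdd : d₀ ≤ d) : False := by
  have R0 := R.e0
  have R1 := R.th
  have R2 := R.hd
  have R3 := R.hz
  have R4 := R.z2
  have R5 := R.F1
  have R6 := R.F2 hA
  have L0 := L.e0
  have L1 := L.th
  have L2 := L.hd
  have L3 := L.hz
  have L4 := L.z2
  have L5 := L.F1
  have L6 := L.F3 hA.rev
  rw [Z_rev hA (by omega) (by omega), show n - (n - d₀) = d₀ by ring] at L6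
  rw [Z_rev hA (by omega) (by omega)] at L3
  -- the equations of the left cluster
  have q1 : ∀ y, 0 ≤ y → y < n - d₀ - e₀ → (A y ∨ A (y + d₀) ∨ A (n - d₀ - e₀ - 1 - y)) ∧
      ¬ (A y ∧ A (y + d₀)) ∧ ¬ (A (y + d₀) ∧ A (n - d₀ - e₀ - 1 - y)) ∧
      ¬ (A y ∧ A (n - d₀ - e₀ - 1 - y)) := by
    intro y a b
    have := L.b (n - 1 - d₀ - y) (by omega) (by omega)
    unfold rev at this
    rw [show n - 1 - (n - 1 - d₀ - y) = y + d₀ by ring,
      show n - 1 - (n - 1 - d₀ - y + d₀) = y by ring,
      show n - 1 - (e₀ + n - 1 - (n - 1 - d₀ - y)) = n - d₀ - e₀ - 1 - y by ring] at this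
    tauto
  have q2 : ∀ y, n - d₀ - e₀ ≤ y → y < n - d₀ → (A (y + d₀) ↔ ¬ A y) := by
    intro y a b
    have := L.a (n - 1 - d₀ - y) (by omega) (by omega)
    unfold rev at this
    rw [show n - 1 - (n - 1 - d₀ - y) = y + d₀ by ring,
      show n - 1 - (n - 1 - d₀ - y + d₀) = y by ring] at this
    exact this
  have ht : 1 ≤ cnt A (d + e) n := cnt_pos (y := n - 1) (by omega) (by omega) hA.z1
  have htL : cnt (rev n A) (d₀ + e₀) n = cnt A 0 (n - d₀ - e₀) := by
    have := cnt_refl A 0 (n - d₀ - e₀) (n - 1)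
    rw [show n - 1 + 1 - (n - d₀ - e₀) = d₀ + e₀ by ring, show n - 1 + 1 - 0 = n by ring] at this
    exact this
  rw [htL] at L5
  -- `F (d₀ + e) = F (v)`
  have hF := R.F5 (j := n - d₀) (by omega) (by omega)
  rw [show e + n - (n - d₀) = d₀ + e by ring] at hF
  rcases le_or_gt (n - d₀ - e₀) e with hc | hc
  · -- first case
    have h1 : cnt (fun j => A (j + d₀)) e (n - d₀) = cnt (fun j => ¬ A j) e (n - d₀) :=
      cnt_congr (fun j a b => q2 j (by omega) b)
    have h2 := cnt_sh A e (n - d₀) d₀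
    have h3 := cnt_not A (show e ≤ n - d₀ by omega)
    have h4 := cnt_ZZ A (show 0 ≤ e by omega) (show e ≤ n - d₀ by omega)
    have h5 := cnt_ZZ A (show 0 ≤ e + d₀ by omega) (show e + d₀ ≤ n by omega)
    have h6 := Z_n hA
    rw [show n - d₀ + d₀ = n by ring] at h2
    rw [show e + d₀ = d₀ + e by ring] at h2 h5
    omega
  · -- second case
    have h1 : cnt (fun j => A j ∨ A (j + d₀) ∨ A (n - d₀ - e₀ - 1 - j)) 0 e = e - 0 :=
      cnt_all (by omega) (fun j a b => (q1 j a (by omega)).1)
    have h2 : cnt (fun j => A (j + d₀) ∨ A (n - d₀ - e₀ - 1 - j)) 0 e =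
        cnt (fun j => A (j + d₀)) 0 e + cnt (fun j => A (n - d₀ - e₀ - 1 - j)) 0 e :=
      cnt_or (fun j a b => (q1 j a (by omega)).2.2.1)
    rw [cnt_or (p := A) (q := fun j => A (j + d₀) ∨ A (n - d₀ - e₀ - 1 - j)) (fun j a b h => by
      have := q1 j a (by omega)
      tauto), h2, cnt_sh A 0 e d₀] at h1
    have h3 := cnt_refl A (n - d₀ - e₀ - e) (n - d₀ - e₀) (n - d₀ - e₀ - 1)
    rw [show n - d₀ - e₀ - 1 + 1 - (n - d₀ - e₀) = 0 by ring,
      show n - d₀ - e₀ - 1 + 1 - (n - d₀ - e₀ - e) = e by ring] at h3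
    rw [h3, show 0 + d₀ = d₀ by ring, show e + d₀ = d₀ + e by ring] at h1
    have h4 := cnt_ZZ A (show 0 ≤ d₀ by omega) (show d₀ ≤ d₀ + e by omega)
    have h5 := cnt_split A (show 0 ≤ n - d₀ - e₀ - e by omega)
      (show n - d₀ - e₀ - e ≤ n - d₀ - e₀ by omega)
    have h6 := cnt_Z A (show 0 ≤ e by omega)
    have h7 : cnt A 0 (n - d₀ - e₀ - e) = cnt A (d + e) n := by omega
    rcases le_total e (n - d₀ - e₀ - e) with h8 | h8
    · have h9 := cnt_split A (show 0 ≤ e by omega) h8
      have h10 := cnt_nonneg A e (n - d₀ - e₀ - e)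
      omega
    · have h9 := cnt_split A (show 0 ≤ n - d₀ - e₀ - e by omega) h8
      have h10 := cnt_refl A (n - d₀ - e₀ - e) e (n - d₀ - e₀ - 1)
      rw [show n - d₀ - e₀ - 1 + 1 - e = n - d₀ - e₀ - e by ring,
        show n - d₀ - e₀ - 1 + 1 - (n - d₀ - e₀ - e) = e by ring] at h10
      have h11 : cnt (fun j => A (n - d₀ - e₀ - 1 - j)) (n - d₀ - e₀ - e) e ≤
          cnt (fun j => ¬ A j) (n - d₀ - e₀ - e) e := cnt_mono (fun j a b hj hj2 =>
        (q1 j (by omega) (by omega)).2.2.2 ⟨hj2, hj⟩)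
      have h12 := cnt_not A h8
      omega

/-- two clusters cannot share a tile -/
theorem double (hA : Shp n k A) (hn : n < 2 * k) (R : Clu n k A d e z)
    (L : Clu n k (rev n A) d₀ e₀ z₀) (h : z + z₀ = n - k) : False := by
  rcases le_total d₀ d with h1 | h1
  · exact double_aux hA hn R L h h1
  · exact double_aux hA.rev hn L (by rw [rev_rev]; exact R) (by omega) h1

end MPae024f.DS
end

section
/-! Dense sets, tilings that are not clean: sums of indicators, covering of windows. -/
namespace MPae024f.DS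

open Classical in
/-- indicator of a predicate -/
noncomputable def ind (A : ℤ → Prop) (j : ℤ) : ℤ := if A j then 1 else 0

/-- sum over `[a, b)` -/
noncomputable def sm (w : ℤ → ℤ) (a b : ℤ) : ℤ := ∑ j ∈ Finset.Ico a b, w j

theorem ind_of {A : ℤ → Prop} {j : ℤ} (h : A j) : ind A j = 1 := if_pos h

theorem ind_not {A : ℤ → Prop} {j : ℤ} (h : ¬ A j) : ind A j = 0 := if_neg h

theorem ind_iff {A : ℤ → Prop} {j : ℤ} : ind A j = 1 ↔ A j := by
  unfold ind
  split_ifs with h
  · simp [h]
  · simp [h]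

theorem ind_iff0 {A : ℤ → Prop} {j : ℤ} : ind A j = 0 ↔ ¬ A j := by
  unfold ind
  split_ifs with h
  · simp [h]
  · simp [h]

theorem ind_01 (A : ℤ → Prop) (j : ℤ) : ind A j = 0 ∨ ind A j = 1 := by
  unfold ind
  split_ifs <;> simp

theorem ind_nonneg (A : ℤ → Prop) (j : ℤ) : 0 ≤ ind A j := by
  rcases ind_01 A j with h | h <;> omega

theorem ind_le (A : ℤ → Prop) (j : ℤ) : ind A j ≤ 1 := by
  rcases ind_01 A j with h | h <;> omega

theorem sm_split (w : ℤ → ℤ) {a b c : ℤ} (h1 : a ≤ b) (h2 : b ≤ c) :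
    sm w a c = sm w a b + sm w b c := by
  unfold sm
  rw [← Finset.sum_union, Finset.Ico_union_Ico_eq_Ico h1 h2]
  rw [Finset.disjoint_left]
  intro x hx hx'
  rw [Finset.mem_Ico] at hx hx'
  omega

theorem sm_congr {u v : ℤ → ℤ} {a b : ℤ} (h : ∀ j, a ≤ j → j < b → u j = v j) :
    sm u a b = sm v a b := by
  unfold sm
  apply Finset.sum_congr rfl
  intro x hx
  rw [Finset.mem_Ico] at hx
  exact h x hx.1 hx.2

theorem sm_le {u v : ℤ → ℤ} {a b : ℤ} (h : ∀ j, a ≤ j → j < b → u j ≤ v j) :
    sm u a b ≤ sm v a b := by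
  unfold sm
  apply Finset.sum_le_sum
  intro x hx
  rw [Finset.mem_Ico] at hx
  exact h x hx.1 hx.2

theorem sm_add (u v : ℤ → ℤ) (a b : ℤ) :
    sm (fun j => u j + v j) a b = sm u a b + sm v a b := by
  unfold sm
  exact Finset.sum_add_distrib

theorem sm_one {a b : ℤ} (h : a ≤ b) : sm (fun _ => 1) a b = b - a := by
  unfold sm
  simp only [Finset.sum_const, nsmul_eq_mul, mul_one]
  rw [Int.card_Ico]
  omega

theorem sm_zero' (a b : ℤ) : sm (fun _ => 0) a b = 0 := by
  unfold sm
  simp

theorem sm_zero {w : ℤ → ℤ} {a b : ℤ} (h : ∀ j, a ≤ j → j < b → w j = 0) : sm w a b = 0 := by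
  rw [sm_congr h, sm_zero']

theorem sm_ones {w : ℤ → ℤ} {a b : ℤ} (hab : a ≤ b) (h : ∀ j, a ≤ j → j < b → w j = 1) :
    sm w a b = b - a := by
  rw [sm_congr h, sm_one hab]

theorem sm_nonneg {w : ℤ → ℤ} {a b : ℤ} (h : ∀ j, a ≤ j → j < b → 0 ≤ w j) : 0 ≤ sm w a b := by
  have := sm_le h
  rwa [sm_zero'] at this

theorem sm_le_len {w : ℤ → ℤ} {a b : ℤ} (hab : a ≤ b) (h : ∀ j, a ≤ j → j < b → w j ≤ 1) :
    sm w a b ≤ b - a := by
  have := sm_le h
  rwa [sm_one hab] at this

theorem sm_shift (w : ℤ → ℤ) (a b c : ℤ) :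
    sm (fun j => w (j + c)) a b = sm w (a + c) (b + c) := by
  unfold sm
  apply Finset.sum_bij (fun x _ => x + c)
  · intro x hx
    rw [Finset.mem_Ico] at hx ⊢
    omega
  · intro x _ y _ hxy; omega
  · intro x hx
    rw [Finset.mem_Ico] at hx
    refine ⟨x - c, ?_, by omega⟩
    rw [Finset.mem_Ico]
    omega
  · intro x _; rfl

theorem sm_refl (w : ℤ → ℤ) (a b c : ℤ) :
    sm (fun j => w (c - j)) a b = sm w (c + 1 - b) (c + 1 - a) := by
  unfold sm
  apply Finset.sum_bij (fun x _ => c - x)
  · intro x hx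
    rw [Finset.mem_Ico] at hx ⊢
    omega
  · intro x _ y _ hxy; omega
  · intro x hx
    rw [Finset.mem_Ico] at hx
    refine ⟨c - x, ?_, by omega⟩
    rw [Finset.mem_Ico]
    omega
  · intro x _; rfl

theorem cnt_sm (p : ℤ → Prop) (a b : ℤ) : cnt p a b = sm (ind p) a b := by
  unfold cnt sm ind
  rw [Finset.card_filter]
  push_cast
  rfl

/-- sum of `ind` of the negation -/
theorem ind_neg (p : ℤ → Prop) (j : ℤ) : ind (fun y => ¬ p y) j = 1 - ind p j := by
  unfold ind
  by_cases h : p j <;> simp [h]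

theorem Z_sm (A : ℤ → Prop) {m : ℤ} (hm : 0 ≤ m) : Z A m = m - sm (ind A) 0 m := by
  have h := cnt_not A hm
  rw [cnt_sm A] at h
  unfold Z
  omega

variable {n k : ℤ} {A : ℤ → Prop} {X : ℤ → ℤ} {S : ℤ → Bool}

theorem Shp.out (hA : Shp n k A) {j : ℤ} (h : j < 0 ∨ n ≤ j) : ind A j = 0 := by
  apply ind_not
  intro h1
  have := hA.rg j h1
  omega

theorem Shp.i0 (hA : Shp n k A) : ind A 0 = 1 := ind_of hA.z0

theorem Shp.i1 (hA : Shp n k A) : ind A (n - 1) = 1 := ind_of hA.z1

theorem Shp.sum (hA : Shp n k A) : sm (ind A) 0 n = k := by rw [← cnt_sm, hA.ct]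


end MPae024f.DS
end

section
/-! Dense sets, tilings that are not clean: covering of windows, count, tiles of the same type at
index distance two do not meet, reflection of a tiling. -/
namespace MPae024f.DS

variable {n k : ℤ} {A : ℤ → Prop} {X : ℤ → ℤ} {S : ℤ → Bool}

theorem ip {i : ℤ} (h : S i = true) (y : ℤ) : ind (tc n A X S i) y = ind A (y - X i) := by
  unfold ind tc
  rw [h]
  simp [sp]

theorem im {i : ℤ} (h : S i = false) (y : ℤ) :
    ind (tc n A X S i) y = ind A (n - 1 - (y - X i)) := by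
  unfold ind tc
  rw [h]
  simp [sp]

theorem cnt_le_len (p : ℤ → Prop) {a b : ℤ} (hab : a ≤ b) : cnt p a b ≤ b - a := by
  have := cnt_not p hab
  have := cnt_nonneg (fun y => ¬ p y) a b
  omega

namespace Til

theorem coverU (t : Til n A X S) (hA : Shp n k A) {a b y : ℤ} (h1 : X (a - 1) + n ≤ y)
    (h2 : y < X (b + 1)) : ∃ j, a ≤ j ∧ j ≤ b ∧ tc n A X S j y := by
  obtain ⟨j, hj⟩ := t.cov y
  have h3 := t.rg hA (i := j) hj
  refine ⟨j, ?_, ?_, hj⟩
  · by_contra hc
    have := t.le (show j ≤ a - 1 by omega)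
    omega
  · by_contra hc
    have := t.le (show b + 1 ≤ j by omega)
    omega

theorem off (t : Til n A X S) {i j y : ℤ} (h : tc n A X S i y) (hij : i ≠ j) :
    ind (tc n A X S j) y = 0 := by
  apply ind_not
  intro h1
  exact hij (t.uniq y i j h h1)

theorem dis (t : Til n A X S) {i j : ℤ} (hij : i ≠ j) (y : ℤ) :
    ind (tc n A X S i) y + ind (tc n A X S j) y ≤ 1 := by
  rcases ind_01 (tc n A X S i) y with h | h
  · have := ind_le (tc n A X S j) y; omega
  · have := t.off (ind_iff.1 h) hij; omega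

theorem cov1 (t : Til n A X S) (hA : Shp n k A) {i y : ℤ} (h1 : X (i - 1) + n ≤ y)
    (h2 : y < X (i + 1)) : ind (tc n A X S i) y = 1 := by
  obtain ⟨j, a, b, hj⟩ := t.coverU hA (b := i) h1 h2
  have : j = i := by omega
  rw [← this]
  exact ind_of hj

theorem cov2 (t : Til n A X S) (hA : Shp n k A) {i y : ℤ} (h1 : X (i - 1) + n ≤ y)
    (h2 : y < X (i + 2)) :
    ind (tc n A X S i) y + ind (tc n A X S (i + 1)) y = 1 := by
  obtain ⟨j, a, b, hj⟩ := t.coverU hA (b := i + 1) h1 (by rwa [show i + 1 + 1 = i + 2 by ring])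
  rcases (show j = i ∨ j = i + 1 by omega) with h | h
  · rw [h] at hj
    rw [ind_of hj, t.off hj (j := i + 1) (by omega)]; rfl
  · rw [h] at hj
    rw [ind_of hj, t.off hj (j := i) (by omega)]; rfl

theorem cov3 (t : Til n A X S) (hA : Shp n k A) {i y : ℤ} (h1 : X (i - 1) + n ≤ y)
    (h2 : y < X (i + 3)) :
    ind (tc n A X S i) y + ind (tc n A X S (i + 1)) y + ind (tc n A X S (i + 2)) y = 1 := by
  obtain ⟨j, a, b, hj⟩ := t.coverU hA (b := i + 2) h1 (by rwa [show i + 2 + 1 = i + 3 by ring])
  rcases (show j = i ∨ j = i + 1 ∨ j = i + 2 by omega) with h | h | h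
  · rw [h] at hj
    rw [ind_of hj, t.off hj (j := i + 1) (by omega), t.off hj (j := i + 2) (by omega)]; rfl
  · rw [h] at hj
    rw [ind_of hj, t.off hj (j := i) (by omega), t.off hj (j := i + 2) (by omega)]; rfl
  · rw [h] at hj
    rw [ind_of hj, t.off hj (j := i) (by omega), t.off hj (j := i + 1) (by omega)]; rfl

theorem cov4 (t : Til n A X S) (hA : Shp n k A) {i y : ℤ} (h1 : X (i - 1) + n ≤ y)
    (h2 : y < X (i + 4)) :
    ind (tc n A X S i) y + ind (tc n A X S (i + 1)) y + ind (tc n A X S (i + 2)) y +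
      ind (tc n A X S (i + 3)) y = 1 := by
  obtain ⟨j, a, b, hj⟩ := t.coverU hA (b := i + 3) h1 (by rwa [show i + 3 + 1 = i + 4 by ring])
  rcases (show j = i ∨ j = i + 1 ∨ j = i + 2 ∨ j = i + 3 by omega) with h | h | h | h
  · rw [h] at hj
    rw [ind_of hj, t.off hj (j := i + 1) (by omega), t.off hj (j := i + 2) (by omega),
      t.off hj (j := i + 3) (by omega)]; rfl
  · rw [h] at hj
    rw [ind_of hj, t.off hj (j := i) (by omega), t.off hj (j := i + 2) (by omega),
      t.off hj (j := i + 3) (by omega)]; rfl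
  · rw [h] at hj
    rw [ind_of hj, t.off hj (j := i) (by omega), t.off hj (j := i + 1) (by omega),
      t.off hj (j := i + 3) (by omega)]; rfl
  · rw [h] at hj
    rw [ind_of hj, t.off hj (j := i) (by omega), t.off hj (j := i + 1) (by omega),
      t.off hj (j := i + 2) (by omega)]; rfl

/-- the tiles `i` and `i+3` are far apart -/
theorem four (t : Til n A X S) (hA : Shp n k A) (i : ℤ) : X i + (4 * k - n) ≤ X (i + 3) := by
  have h1 := t.step hA i
  have h2 := t.step hA (i + 1)
  have h3 := t.step hA (i + 2)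
  have h4 := L_nonneg n A X S i
  have h5 := t.L_le hA (i + 3)
  rw [show i + 1 + 1 = i + 2 by ring] at h2
  rw [show i + 2 + 1 = i + 3 by ring] at h3
  omega

/-- tiles of the same type at index distance two do not meet -/
theorem farU (t : Til n A X S) (hA : Shp n k A) (hk : n < 2 * k) {i : ℤ}
    (hs : S i = S (i + 2)) : X i + n < X (i + 2) := by
  by_contra hc
  push Not at hc
  have h1 := t.step hA i
  have h2 := t.step hA (i + 1)
  rw [show i + 1 + 1 = i + 2 by ring] at h2
  have m1 := t.mono i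
  have m2 := t.mono (i + 1)
  rw [show i + 1 + 1 = i + 2 by ring] at m2
  have o1 := t.ov_nonneg hA (i + 1)
  unfold ov at o1
  rw [show i + 1 + 1 = i + 2 by ring] at o1
  -- lower bound for `L i`
  have e1 : cnt (fun j => ¬ sp n A (S i) j) 0 (X (i + 1) - X i) ≤ L n A X S i := by
    have h3 := cnt_shift (fun j => ¬ sp n A (S i) j) 0 (X (i + 1) - X i) (X i)
    rw [← h3, zero_add, show X (i + 1) - X i + X i = X (i + 1) by ring]
    unfold L
    rw [cnt_split _ (show X i ≤ X (i + 1) by omega) (show X (i + 1) ≤ X i + n by omega)]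
    have h4 := cnt_nonneg (fun y => ∃ j, j < i ∧ tc n A X S j y) (X (i + 1)) (X i + n)
    have h5 : cnt (fun y => ¬ sp n A (S i) (y - X i)) (X i) (X (i + 1)) ≤
        cnt (fun y => ∃ j, j < i ∧ tc n A X S j y) (X i) (X (i + 1)) := by
      apply cnt_mono
      intro y a b c
      obtain ⟨j, hj⟩ := t.cov y
      have h6 := t.idx_lt hA (i := i + 1) hj b
      rcases (show j < i ∨ j = i by omega) with h7 | h7
      · exact ⟨j, h7, hj⟩
      · rw [h7] at hj
        exact absurd hj c
    omega
  -- upper bound for `L (i + 2)`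
  have e2 : L n A X S (i + 2) ≤
      cnt (fun j => ¬ sp n A (S i) j) 0 (X (i + 1) + n - X (i + 2)) := by
    have h3 := cnt_shift (fun j => ¬ sp n A (S i) j) 0 (X (i + 1) + n - X (i + 2)) (X (i + 2))
    rw [← h3, zero_add, show X (i + 1) + n - X (i + 2) + X (i + 2) = X (i + 1) + n by ring]
    rw [← t.L_eq hA (i := i + 2) (b := X (i + 1) + n) (by rw [show i + 2 - 1 = i + 1 by ring])
      (by omega)]
    apply cnt_mono
    rintro y a b ⟨j, hj, hj2⟩ c
    rw [hs] at c
    have := t.uniq y _ _ hj2 (show tc n A X S (i + 2) y from c)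
    omega
  have e3 := cnt_split (fun j => ¬ sp n A (S i) j) (show (0:ℤ) ≤ X (i + 1) - X i by omega)
    (show X (i + 1) - X i ≤ X (i + 1) + n - X (i + 2) by omega)
  have e4 := cnt_le_len (fun j => ¬ sp n A (S i) j)
    (show X (i + 1) - X i ≤ X (i + 1) + n - X (i + 2) by omega)
  omega

/-- the reflected tiling -/
theorem reflU (t : Til n A X S) : Til n A (fun i => - X (-i) - (n - 1)) (fun i => !S (-i)) := by
  have key : ∀ i y, sp n A (!S (-i)) (y - (- X (-i) - (n - 1))) ↔ sp n A (S (-i)) (-y - X (-i)) := by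
    intro i y
    cases h : S (-i)
    · show A (y - (- X (-i) - (n - 1))) ↔ A (n - 1 - (-y - X (-i)))
      rw [show y - (- X (-i) - (n - 1)) = n - 1 - (-y - X (-i)) by ring]
    · show A (n - 1 - (y - (- X (-i) - (n - 1)))) ↔ A (-y - X (-i))
      rw [show n - 1 - (y - (- X (-i) - (n - 1))) = -y - X (-i) by ring]
  refine ⟨fun i => ?_, fun y => ?_, fun y i j h1 h2 => ?_⟩
  · have := t.mono (-(i + 1))
    rw [show -(i + 1) + 1 = -i by ring] at this
    omega
  · obtain ⟨i, hi⟩ := t.cov (-y)
    refine ⟨-i, ?_⟩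
    rw [key, neg_neg]
    exact hi
  · rw [key] at h1 h2
    have := t.uniq (-y) _ _ h1 h2
    omega

end Til

end MPae024f.DS
end

section
/-! Dense sets, tilings that are not clean: the junction of two tiles of opposite type. -/
namespace MPae024f.DS

variable {n k : ℤ} {A : ℤ → Prop} {X : ℤ → ℤ} {S : ℤ → Bool}

/-- word form of the junction lemma: tiles `A - d`, `A`, `A* + e`, `A* + (e + f)` on the window
`[e, n)` -/
theorem juncU_word (hA : Shp n k A) (hk : n < 2 * k) {d e f : ℤ} (he : 0 < e) (hf : 0 < f)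
    (hfl : e + f < n) (hfd : f < d)
    (H : ∀ y, e ≤ y → y < n → ind A (y + d) + ind A y + ind A (n - 1 + e - y) +
      ind A (n - 1 + e + f - y) = 1)
    (hdis : ∀ j, ind A j + ind A (j + f) ≤ 1) : False := by
  have p := ind_nonneg A
  -- `2 f < n - e`
  have ha : e + f ≤ n - 1 - f := by
    by_contra hc
    have h1 := H (e + f) (by omega) (by omega)
    rw [show n - 1 + e + f - (e + f) = n - 1 by ring, hA.i1,
      show n - 1 + e - (e + f) = n - 1 - f by ring] at h1
    have h2 := H (n - 1 - f) (by omega) (by omega)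
    rw [show n - 1 + e - (n - 1 - f) = e + f by ring,
      hA.out (j := n - 1 - f + d) (Or.inr (by omega)),
      hA.out (j := n - 1 + e + f - (n - 1 - f)) (Or.inr (by omega))] at h2
    have q1 := p (e + f + d)
    have q2 := p (e + f)
    have q3 := p (n - 1 - f)
    omega
  have key : ∀ b, e ≤ b → b ≤ n → sm (ind A) (e + d) (b + d) + sm (ind A) e b +
      sm (ind A) (n + e - b) n + sm (ind A) (n + e + f - b) (n + f) = b - e := by
    intro b h1 h2
    have h3 : sm (fun y => ind A (y + d) + ind A y + ind A (n - 1 + e - y) +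
      ind A (n - 1 + e + f - y)) e b = b - e :=
      sm_ones h1 (fun j a c => H j a (by omega))
    rw [sm_add, sm_add, sm_add, sm_shift, sm_refl, sm_refl] at h3
    rw [show n - 1 + e + 1 - b = n + e - b by ring, show n - 1 + e + 1 - e = n by ring,
      show n - 1 + e + f + 1 - b = n + e + f - b by ring,
      show n - 1 + e + f + 1 - e = n + f by ring] at h3
    exact h3
  have k1 := key (e + f) (by omega) (by omega)
  rw [show n + e - (e + f) = n - f by ring, show n + e + f - (e + f) = n by ring] at k1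
  have k2 := key n (by omega) le_rfl
  rw [show n + e - n = e by ring, show n + e + f - n = e + f by ring] at k2
  have z1 : sm (ind A) n (n + f) = 0 := sm_zero (fun j a _ => hA.out (Or.inr a))
  have s1 := sm_split (ind A) (show e + f ≤ n by omega) (show n ≤ n + f by omega)
  have s2 := sm_split (ind A) (show e + f ≤ n - f by omega) (show n - f ≤ n by omega)
  have s3 := sm_split (ind A) (show e + d ≤ e + f + d by omega) (show e + f + d ≤ n + d by omega)
  have s4 := sm_split (ind A) (show (0:ℤ) ≤ e by omega) (show e ≤ n by omega)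
  have s5 := sm_split (ind A) (show (0:ℤ) ≤ e by omega) (show e ≤ e + f by omega)
  have s6 := sm_split (ind A) (show (0:ℤ) ≤ f by omega) (show f ≤ e + f by omega)
  have p1 : 0 ≤ sm (ind A) (e + f) (n - f) := sm_nonneg (fun j _ _ => p j)
  have p2 : 0 ≤ sm (ind A) (e + f + d) (n + d) := sm_nonneg (fun j _ _ => p j)
  have p3 : sm (ind A) 0 f ≤ f - 0 := sm_le_len hf.le (fun j _ _ => ind_le A j)
  have p4 : sm (fun j => ind A j + ind A (j + f)) 0 e ≤ e - 0 :=
    sm_le_len he.le (fun j _ _ => hdis j)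
  rw [sm_add, sm_shift, zero_add] at p4
  have hs := hA.sum
  omega

namespace Til

/-- half of the junction lemma -/
theorem juncU (t : Til n A X S) (hA : Shp n k A) (hk : n < 2 * k) {i : ℤ} (h1 : S i = true)
    (h2 : S (i + 1) = false) (hm : X (i + 2) < X i + n) :
    X i - X (i - 1) ≤ X (i + 2) - X (i + 1) := by
  by_contra hc
  have m1 := t.mono (i - 1)
  rw [show i - 1 + 1 = i by ring] at m1
  have m2 := t.mono i
  have m3 := t.mono (i + 1)
  rw [show i + 1 + 1 = i + 2 by ring] at m3
  have h3 : S (i + 2) = false := by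
    by_contra h
    have := t.farU hA hk (i := i) (by rw [h1]; simpa using h)
    omega
  have f1 := t.four hA (i - 2)
  rw [show i - 2 + 3 = i + 1 by ring] at f1
  have f2 := t.four hA i
  refine juncU_word hA hk (d := X i - X (i - 1)) (e := X (i + 1) - X i) (f := X (i + 2) - X (i + 1))
    (by omega) (by omega) (by omega) (by omega) ?_ ?_
  · intro y a b
    have h4 := t.cov4 hA (i := i - 1) (y := X i + y)
      (by rw [show i - 1 - 1 = i - 2 by ring]; omega)
      (by rw [show i - 1 + 4 = i + 3 by ring]; omega)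
    rw [show i - 1 + 1 = i by ring, show i - 1 + 2 = i + 1 by ring,
      show i - 1 + 3 = i + 2 by ring, ip h1, im h2, im h3] at h4
    rw [show X i + y - X i = y by ring,
      show n - 1 - (X i + y - X (i + 1)) = n - 1 + (X (i + 1) - X i) - y by ring,
      show n - 1 - (X i + y - X (i + 2)) = n - 1 + (X (i + 1) - X i) + (X (i + 2) - X (i + 1)) - y
        by ring] at h4
    have h5 : ind (tc n A X S (i - 1)) (X i + y) = ind A (y + (X i - X (i - 1))) := by
      cases h6 : S (i - 1)
      · have h7 := t.farU hA hk (i := i - 1) (by rw [h6, show i - 1 + 2 = i + 1 by ring, h2])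
        rw [show i - 1 + 2 = i + 1 by ring] at h7
        rw [im h6, hA.out (j := n - 1 - (X i + y - X (i - 1))) (Or.inl (by omega)),
          hA.out (j := y + (X i - X (i - 1))) (Or.inr (by omega))]
      · rw [ip h6, show X i + y - X (i - 1) = y + (X i - X (i - 1)) by ring]
    rw [h5] at h4
    exact h4
  · intro j
    have h4 := t.dis (show i + 1 ≠ i + 2 by omega) (X (i + 1) + (n - 1) - j)
    rw [im h2, im h3, show n - 1 - (X (i + 1) + (n - 1) - j - X (i + 1)) = j by ring,
      show n - 1 - (X (i + 1) + (n - 1) - j - X (i + 2)) = j + (X (i + 2) - X (i + 1)) by ring] at h4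
    exact h4

/-- the other half, by reflection -/
theorem juncU' (t : Til n A X S) (hA : Shp n k A) (hk : n < 2 * k) {i : ℤ} (h1 : S i = true)
    (h2 : S (i + 1) = false) (hm : X (i + 1) < X (i - 1) + n) :
    X (i + 2) - X (i + 1) ≤ X i - X (i - 1) := by
  have h := t.reflU.juncU hA hk (i := -(i + 1)) (by simp [h2])
    (by rw [show -(-(i + 1) + 1) = i by ring]; simp [h1])
    (by rw [show -(-(i + 1) + 2) = i - 1 by ring, show -(-(i + 1)) = i + 1 by ring]; omega)
  rw [show -(-(i + 1)) = i + 1 by ring, show -(-(i + 1) - 1) = i + 2 by ring,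
    show -(-(i + 1) + 2) = i - 1 by ring, show -(-(i + 1) + 1) = i by ring] at h
  omega

/-- the junction lemma for a junction `(+, -)` -/
theorem juncU2 (t : Til n A X S) (hA : Shp n k A) (hk : n < 2 * k) {i : ℤ} (h1 : S i = true)
    (h2 : S (i + 1) = false) (hm : X (i + 2) < X i + n ∨ X (i + 1) < X (i - 1) + n) :
    X i - X (i - 1) = X (i + 2) - X (i + 1) ∧ X (i + 2) < X i + n ∧ X (i + 1) < X (i - 1) + n ∧
      S (i - 1) = true ∧ S (i + 2) = false := by
  have key : X (i + 2) < X i + n ∧ X (i + 1) < X (i - 1) + n := by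
    rcases hm with h | h
    · have := t.juncU hA hk h1 h2 h
      exact ⟨h, by omega⟩
    · have := t.juncU' hA hk h1 h2 h
      exact ⟨by omega, h⟩
  obtain ⟨h3, h4⟩ := key
  have h5 := t.juncU hA hk h1 h2 h3
  have h6 := t.juncU' hA hk h1 h2 h4
  refine ⟨by omega, h3, h4, ?_, ?_⟩
  · by_contra h
    have := t.farU hA hk (i := i - 1) (by
      rw [show i - 1 + 2 = i + 1 by ring, h2]; simpa using h)
    rw [show i - 1 + 2 = i + 1 by ring] at this
    omega
  · by_contra h
    have := t.farU hA hk (i := i) (by rw [h1]; simpa using h)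
    omega

/-- the junction lemma for a junction `(-, +)` -/
theorem juncU3 (t : Til n A X S) (hA : Shp n k A) (hk : n < 2 * k) {i : ℤ} (h1 : S i = false)
    (h2 : S (i + 1) = true) (hm : X (i + 2) < X i + n ∨ X (i + 1) < X (i - 1) + n) :
    X i - X (i - 1) = X (i + 2) - X (i + 1) ∧ X (i + 2) < X i + n ∧ X (i + 1) < X (i - 1) + n ∧
      S (i - 1) = false ∧ S (i + 2) = true := by
  obtain ⟨a, b, c, e, f⟩ := t.rev.juncU2 hA.rev hk (i := i) (by simp [h1]) (by simp [h2]) hm
  exact ⟨a, b, c, by simpa using e, by simpa using f⟩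

end Til

end MPae024f.DS
end

section
/-! Dense sets, tilings that are not clean: clusters `(+,+,-,-)` in a tiling. -/
namespace MPae024f.DS

variable {n k c d e : ℤ} {A : ℤ → Prop} {X : ℤ → ℤ} {S : ℤ → Bool}

/-- tiles `c, c+1, c+2, c+3` of types `+,+,-,-` with distances `d, e, d`; the hulls of `c` and
`c+2` meet -/
structure Cl (n : ℤ) (X : ℤ → ℤ) (S : ℤ → Bool) (c d e : ℤ) : Prop where
  s0 : S c = true
  s1 : S (c + 1) = true
  s2 : S (c + 2) = false
  s3 : S (c + 3) = false
  x1 : X (c + 1) = X c + d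
  x2 : X (c + 2) = X c + d + e
  x3 : X (c + 3) = X c + 2 * d + e
  m : d + e < n

/-- from a pair of tiles that meet at index distance two to a cluster -/
theorem exists_clU (t : Til n A X S) (hA : Shp n k A) (hk : n < 2 * k) {i : ℤ}
    (h : X (i + 2) < X i + n) : (∃ c d e, Cl n X S c d e) ∨
      ∃ c d e, Cl n X (fun i => !S i) c d e := by
  have key : ∀ (B : ℤ → Prop) (R : ℤ → Bool), Shp n k B → Til n B X R → R i = true →
      ∃ c d e, Cl n X R c d e := by
    intro B R hB u h1
    have h2 : R (i + 2) = false := by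
      by_contra h3
      have := u.farU hB hk (i := i) (by rw [h1]; simpa using h3)
      omega
    cases h3 : R (i + 1)
    · obtain ⟨a1, a2, a3, a4, a5⟩ := u.juncU2 hB hk h1 h3 (Or.inl h)
      refine ⟨i - 1, X i - X (i - 1), X (i + 1) - X i, ?_⟩
      refine ⟨a4, ?_, ?_, ?_, ?_, ?_, ?_, ?_⟩
      · rw [show i - 1 + 1 = i by ring]; exact h1
      · rw [show i - 1 + 2 = i + 1 by ring]; exact h3
      · rw [show i - 1 + 3 = i + 2 by ring]; exact a5
      · rw [show i - 1 + 1 = i by ring]; ring
      · rw [show i - 1 + 2 = i + 1 by ring]; ring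
      · rw [show i - 1 + 3 = i + 2 by ring]; omega
      · omega
    · obtain ⟨a1, a2, a3, a4, a5⟩ := u.juncU2 hB hk (i := i + 1) h3
        (by rw [show i + 1 + 1 = i + 2 by ring]; exact h2)
        (Or.inr (by rw [show i + 1 + 1 = i + 2 by ring, show i + 1 - 1 = i by ring]; exact h))
      rw [show i + 1 - 1 = i by ring, show i + 1 + 2 = i + 3 by ring,
        show i + 1 + 1 = i + 2 by ring] at a1
      rw [show i + 1 + 2 = i + 3 by ring] at a5
      refine ⟨i, X (i + 1) - X i, X (i + 2) - X (i + 1), ?_⟩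
      exact ⟨h1, h3, h2, a5, by ring, by ring, by omega, by omega⟩
  cases h1 : S i
  · right
    exact key (rev n A) (fun i => !S i) hA.rev t.rev (by simp [h1])
  · left
    exact key A S hA t h1

theorem clu_z2 (hA : Shp n k A) (e0 : 1 ≤ e) (th : d + e < n) (hd : n < 2 * d + e)
    (a : ∀ j, 0 ≤ j → j < e → ind A j + ind A (j + d) = 1)
    (b : ∀ j, e ≤ j → j < n - d → ind A j + ind A (j + d) + ind A (e + n - 1 - j) = 1)
    (c : ∀ j, n - d ≤ j → j < d + e → ind A j + ind A (e + n - 1 - j) = 1) :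
    2 * Z A d = 2 * d + e + n - 4 * k := by
  have h1 : sm (fun j => ind A j + ind A (j + d)) 0 e = e - 0 := sm_ones (by omega) a
  have h2 : sm (fun j => ind A j + ind A (j + d) + ind A (e + n - 1 - j)) e (n - d) = n - d - e :=
    sm_ones (by omega) b
  have h3 : sm (fun j => ind A j + ind A (e + n - 1 - j)) (n - d) (d + e) = d + e - (n - d) :=
    sm_ones (by omega) c
  rw [sm_add, sm_shift, zero_add] at h1
  rw [sm_add, sm_add, sm_shift, sm_refl] at h2
  rw [sm_add, sm_refl] at h3
  rw [show e + n - 1 + 1 - (n - d) = d + e by ring, show e + n - 1 + 1 - e = n by ring,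
    show n - d + d = n by ring, show e + d = d + e by ring] at h2
  rw [show e + n - 1 + 1 - (d + e) = n - d by ring, show e + n - 1 + 1 - (n - d) = d + e by ring]
    at h3
  rw [show e + d = d + e by ring] at h1
  have hs := hA.sum
  have s1 := sm_split (ind A) (show (0:ℤ) ≤ e by omega) (show e ≤ n by omega)
  have s2 := sm_split (ind A) (show e ≤ n - d by omega) (show n - d ≤ n by omega)
  have s3 := sm_split (ind A) (show n - d ≤ d + e by omega) (show d + e ≤ n by omega)
  have s4 := sm_split (ind A) (show (0:ℤ) ≤ d by omega) (show d ≤ n by omega)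
  have s5 := sm_split (ind A) (show d ≤ d + e by omega) (show d + e ≤ n by omega)
  rw [Z_sm A (show (0:ℤ) ≤ d by omega)]
  omega

/-- exactly one of two -/
theorem one_two {p q : ℤ → Prop} {x y : ℤ} (h : ind p x + ind q y = 1) : p x ↔ ¬ q y := by
  rcases ind_01 p x with h1 | h1 <;> rcases ind_01 q y with h2 | h2
  · omega
  · rw [ind_iff0] at h1; rw [ind_iff] at h2; tauto
  · rw [ind_iff] at h1; rw [ind_iff0] at h2; tauto
  · omega

/-- exactly one of three -/
theorem one_three {p q r : ℤ → Prop} {x y z : ℤ} (h : ind p x + ind q y + ind r z = 1) :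
    (p x ∨ q y ∨ r z) ∧ ¬ (p x ∧ q y) ∧ ¬ (p x ∧ r z) ∧ ¬ (q y ∧ r z) := by
  rcases ind_01 p x with h1 | h1 <;> rcases ind_01 q y with h2 | h2 <;>
    rcases ind_01 r z with h3 | h3 <;> first
    | omega
    | (simp only [ind_iff0, ind_iff] at h1 h2 h3; tauto)

/-- the word facts of a cluster -/
theorem clu_of (t : Til n A X S) (hA : Shp n k A) (hk : n < 2 * k) (C : Cl n X S c d e)
    (h : X (c - 1) + n ≤ X (c + 1)) : Clu n k A d e (Z A d) := by
  have m1 := t.mono (c + 1)
  rw [show c + 1 + 1 = c + 2 by ring] at m1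
  have f1 := t.four hA c
  have x1 := C.x1
  have x2 := C.x2
  have x3 := C.x3
  have th := C.m
  have e0 : 1 ≤ e := by omega
  have hd : n < 2 * d + e := by omega
  have ha : ∀ j, 0 ≤ j → j < e → ind A j + ind A (j + d) = 1 := by
    intro j a b
    have h1 := t.cov2 hA (i := c) (y := X c + d + j) (by omega) (by omega)
    rw [ip C.s0, ip C.s1, show X c + d + j - X c = j + d by ring,
      show X c + d + j - X (c + 1) = j by omega] at h1
    omega
  have hb : ∀ j, e ≤ j → j < n - d →
      ind A j + ind A (j + d) + ind A (e + n - 1 - j) = 1 := by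
    intro j a b
    have h1 := t.cov3 hA (i := c) (y := X c + d + j) (by omega) (by omega)
    rw [ip C.s0, ip C.s1, im C.s2, show X c + d + j - X c = j + d by ring,
      show X c + d + j - X (c + 1) = j by omega,
      show n - 1 - (X c + d + j - X (c + 2)) = e + n - 1 - j by omega] at h1
    omega
  have hc : ∀ j, n - d ≤ j → j < d + e → ind A j + ind A (e + n - 1 - j) = 1 := by
    intro j a b
    have h1 := t.cov2 hA (i := c + 1) (y := X c + d + j)
      (by rw [show c + 1 - 1 = c by ring]; omega) (by rw [show c + 1 + 2 = c + 3 by ring]; omega)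
    rw [show c + 1 + 1 = c + 2 by ring, ip C.s1, im C.s2,
      show X c + d + j - X (c + 1) = j by omega,
      show n - 1 - (X c + d + j - X (c + 2)) = e + n - 1 - j by omega] at h1
    exact h1
  exact ⟨e0, th, hd, fun j a b => one_two (ha j a b), fun j a b => one_three (hb j a b),
    fun j a b => one_two (hc j a b), rfl, clu_z2 hA e0 th hd ha hb hc⟩

/-- a cluster preceded by a `-` tile: the two do not interact -/
theorem no_double (t : Til n A X S) (hA : Shp n k A) (hk : n < 2 * k) (C : Cl n X S c d e)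
    (hs : S (c - 1) = false) : X (c - 1) + n ≤ X (c + 1) := by
  by_contra hc
  push Not at hc
  obtain ⟨a1, a2, a3, a4, a5⟩ := t.juncU3 hA hk (i := c - 1) hs
    (by rw [show c - 1 + 1 = c by ring]; exact C.s0)
    (Or.inl (by rw [show c - 1 + 2 = c + 1 by ring]; exact hc))
  rw [show c - 1 - 1 = c - 2 by ring, show c - 1 + 2 = c + 1 by ring,
    show c - 1 + 1 = c by ring] at a1
  rw [show c - 1 - 1 = c - 2 by ring, show c - 1 + 1 = c by ring] at a3
  rw [show c - 1 - 1 = c - 2 by ring] at a4
  have m0 := t.mono (c - 1)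
  rw [show c - 1 + 1 = c by ring] at m0
  have m1 := t.mono (c + 1)
  rw [show c + 1 + 1 = c + 2 by ring] at m1
  have f0 := t.four hA (c - 3)
  rw [show c - 3 + 3 = c by ring] at f0
  have f1 := t.four hA (c - 1)
  rw [show c - 1 + 3 = c + 2 by ring] at f1
  have f2 := t.four hA c
  have f3 := t.four hA (c + 1)
  rw [show c + 1 + 3 = c + 4 by ring] at f3
  have x1 := C.x1
  have x2 := C.x2
  have x3 := C.x3
  have th := C.m
  obtain ⟨e', he'⟩ : ∃ e', X (c - 1) = X c - e' := ⟨X c - X (c - 1), by ring⟩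
  have y2 : X (c - 2) = X c - e' - d := by omega
  have z0 : sm (ind A) (-d) 0 = 0 := sm_zero (fun j _ b => hA.out (Or.inl b))
  have z1 : sm (ind A) n (n + d) = 0 := sm_zero (fun j a _ => hA.out (Or.inr a))
  -- left zone
  have l1 : sm (fun j => ind A (n - 1 - e' - d - j) + ind A (n - 1 - e' - j) + ind A j +
      ind A (j + -d)) 0 (n - e') = n - e' - 0 := by
    apply sm_ones (by omega)
    intro j a b
    have h1 := t.cov4 hA (i := c - 2) (y := X c + j) (by rw [show c - 2 - 1 = c - 3 by ring]; omega)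
      (by rw [show c - 2 + 4 = c + 2 by ring]; omega)
    rw [show c - 2 + 1 = c - 1 by ring, show c - 2 + 2 = c by ring,
      show c - 2 + 3 = c + 1 by ring, im a4, im hs, ip C.s0, ip C.s1,
      show n - 1 - (X c + j - X (c - 2)) = n - 1 - e' - d - j by omega,
      show n - 1 - (X c + j - X (c - 1)) = n - 1 - e' - j by omega,
      show X c + j - X c = j by ring, show X c + j - X (c + 1) = j + -d by omega] at h1
    exact h1
  rw [sm_add, sm_add, sm_add, sm_refl, sm_refl, sm_shift] at l1
  rw [show n - 1 - e' - d + 1 - (n - e') = -d by ring,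
    show n - 1 - e' - d + 1 - 0 = n - e' - d by ring,
    show n - 1 - e' + 1 - (n - e') = 0 by ring, show n - 1 - e' + 1 - 0 = n - e' by ring,
    zero_add, show n - e' + -d = n - e' - d by ring] at l1
  -- right zone
  have r1 : sm (fun j => ind A j + ind A (j + -d) + ind A (n - 1 + d + e - j) +
      ind A (n - 1 + 2 * d + e - j)) (d + e) (n + d) = n + d - (d + e) := by
    apply sm_ones (by omega)
    intro j a b
    have h1 := t.cov4 hA (i := c) (y := X c + j) (by omega) (by omega)
    rw [ip C.s0, ip C.s1, im C.s2, im C.s3,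
      show X c + j - X c = j by ring, show X c + j - X (c + 1) = j + -d by omega,
      show n - 1 - (X c + j - X (c + 2)) = n - 1 + d + e - j by omega,
      show n - 1 - (X c + j - X (c + 3)) = n - 1 + 2 * d + e - j by omega] at h1
    exact h1
  rw [sm_add, sm_add, sm_add, sm_refl, sm_refl, sm_shift] at r1
  rw [show n - 1 + d + e + 1 - (n + d) = e by ring, show n - 1 + d + e + 1 - (d + e) = n by ring,
    show n - 1 + 2 * d + e + 1 - (n + d) = d + e by ring,
    show n - 1 + 2 * d + e + 1 - (d + e) = n + d by ring,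
    show d + e + -d = e by ring, show n + d + -d = n by ring] at r1
  -- middle
  have c1 : sm (fun j => ind A j + ind A (j + -d)) (n - e') (d + e) = d + e - (n - e') := by
    apply sm_ones (by omega)
    intro j a b
    have h1 := t.cov2 hA (i := c) (y := X c + j) (by omega) (by omega)
    rw [ip C.s0, ip C.s1,
      show X c + j - X c = j by ring, show X c + j - X (c + 1) = j + -d by omega] at h1
    exact h1
  rw [sm_add, sm_shift, show n - e' + -d = n - e' - d by ring, show d + e + -d = e by ring] at c1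
  have hs := hA.sum
  have s1 := sm_split (ind A) (show (0:ℤ) ≤ n - e' by omega) (show n - e' ≤ n + d by omega)
  have s2 := sm_split (ind A) (show n - e' ≤ d + e by omega) (show d + e ≤ n + d by omega)
  have s3 := sm_split (ind A) (show (0:ℤ) ≤ n by omega) (show n ≤ n + d by omega)
  have s4 := sm_split (ind A) (show -d ≤ (0:ℤ) by omega) (show (0:ℤ) ≤ n by omega)
  have s5 := sm_split (ind A) (show -d ≤ n - e' - d by omega) (show n - e' - d ≤ n by omega)
  have s6 := sm_split (ind A) (show n - e' - d ≤ e by omega) (show e ≤ n by omega)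
  omega

end MPae024f.DS
end
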