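import Mathlib
import Pool.Agent.Lib.MP_ae024f_co.DS.Un3

/-! Dense sets, tilings that are not clean: final case distinction. -/

namespace MPae024f.DS

variable {n k c d e : ℤ} {A : ℤ → Prop} {X : ℤ → ℤ} {S : ℤ → Bool}

theorem Til.shiftU (t : Til n A X S) (m : ℤ) :
    Til n A (fun i => X (i + m)) (fun i => S (i + m)) := by
  refine ⟨fun i => ?_, fun y => ?_, fun y i j h1 h2 => ?_⟩
  · have := t.mono (i + m)
    rw [show i + m + 1 = i + 1 + m by ring] at this
    exact this
  · obtain ⟨i, hi⟩ := t.cov y
    refine ⟨i - m, ?_⟩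
    rw [show i - m + m = i by ring]
    exact hi
  · have := t.uniq y _ _ h1 h2
    omega

/-- the mirrored cluster, in the reflected tiling -/
theorem mirror_clu (t : Til n A X S) (hA : Shp n k A) (hk : n < 2 * k) {i : ℤ}
    (h0 : S i = true) (h1 : S (i - 1) = true) (h2 : S (i - 2) = false)
    (hm : X i < X (i - 2) + n) (hf : X (i - 1) + n ≤ X (i + 1)) :
    Clu n k (MPae024f.DS.rev n A) (X i - X (i - 1)) (X (i - 1) - X (i - 2))
      (Z (MPae024f.DS.rev n A) (X i - X (i - 1))) := by
  obtain ⟨a1, a2, a3, a4, a5⟩ := t.juncU3 hA hk (i := i - 2) h2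
    (by rw [show i - 2 + 1 = i - 1 by ring]; exact h1)
    (Or.inl (by rw [show i - 2 + 2 = i by ring]; exact hm))
  rw [show i - 2 - 1 = i - 3 by ring, show i - 2 + 2 = i by ring,
    show i - 2 + 1 = i - 1 by ring] at a1
  rw [show i - 2 - 1 = i - 3 by ring] at a4
  refine clu_of (c := -i) t.reflU.rev hA.rev hk ?_ ?_
  · refine ⟨?_, ?_, ?_, ?_, ?_, ?_, ?_, ?_⟩
    · show (!(!S (-(-i)))) = true
      rw [neg_neg, h0]; rfl
    · show (!(!S (-(-i + 1)))) = true
      rw [show -(-i + 1) = i - 1 by ring, h1]; rfl
    · show (!(!S (-(-i + 2)))) = false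
      rw [show -(-i + 2) = i - 2 by ring, h2]; rfl
    · show (!(!S (-(-i + 3)))) = false
      rw [show -(-i + 3) = i - 3 by ring, a4]; rfl
    · show -X (-(-i + 1)) - (n - 1) = -X (-(-i)) - (n - 1) + (X i - X (i - 1))
      rw [show -(-i + 1) = i - 1 by ring, neg_neg]; ring
    · show -X (-(-i + 2)) - (n - 1) = -X (-(-i)) - (n - 1) + (X i - X (i - 1)) +
        (X (i - 1) - X (i - 2))
      rw [show -(-i + 2) = i - 2 by ring, neg_neg]; ring
    · show -X (-(-i + 3)) - (n - 1) = -X (-(-i)) - (n - 1) + 2 * (X i - X (i - 1)) +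
        (X (i - 1) - X (i - 2))
      rw [show -(-i + 3) = i - 3 by ring, neg_neg]; omega
    · omega
  · show -X (-(-i - 1)) - (n - 1) + n ≤ -X (-(-i + 1)) - (n - 1)
    rw [show -(-i - 1) = i + 1 by ring, show -(-i + 1) = i - 1 by ring]
    omega

/-- a cluster at the tiles 4, 5, 6, 7 -/
theorem cc_of_cl (t : Til n A X S) (hA : Shp n k A) (hk : n < 2 * k) (C : Cl n X S 4 d e) :
    Cc k A := by
  have s4 := C.s0
  have s5 := C.s1
  have x5 := C.x1
  norm_num at s5 x5
  have m3 := t.mono 3
  have m2 := t.mono 2
  have m1 := t.mono 1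
  have o3 := t.ov_nonneg hA 3
  have o2 := t.ov_nonneg hA 2
  unfold ov at o3 o2
  norm_num at m3 m2 m1 o3 o2
  have i0 := hA.i0
  have i1 := hA.i1
  -- the part of tile 4 outside the hulls of the tiles 3 and 5
  have ones : ∀ j, X 3 + n - X 4 ≤ j → j < d → A j := by
    intro j a b
    have h1 := t.cov1 hA (i := 4) (y := X 4 + j) (by norm_num; omega) (by norm_num; omega)
    rw [ip s4, show X 4 + j - X 4 = j by ring, ind_iff] at h1
    exact h1
  cases s3 : S 3
  · -- the tile 3 is of type `-`
    have h0 := no_double t hA hk C (by norm_num; exact s3)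
    have K := clu_of t hA hk C h0
    norm_num at h0
    have h1 : X 2 + n ≤ X 4 := by
      by_contra hc
      obtain ⟨a1, a2, a3, a4, a5⟩ := t.juncU3 hA hk (i := 3) s3 (by norm_num; exact s4)
        (Or.inr (by norm_num; omega))
      norm_num at a2
      omega
    have anti : ∀ j, 0 ≤ j → j < X 3 + n - X 4 → (A j ↔ ¬ A (X 3 + n - X 4 - 1 - j)) := by
      intro j a b
      have h2 := t.cov2 hA (i := 3) (y := X 4 + j) (by norm_num; omega) (by norm_num; omega)
      norm_num at h2
      rw [im s3, ip s4, show X 4 + j - X 4 = j by ring,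
        show n - 1 - (X 4 + j - X 3) = X 3 + n - X 4 - 1 - j by ring] at h2
      have := one_two h2
      tauto
    have z1 := Z_anti (A := A) (show 0 ≤ X 3 + n - X 4 by omega) anti
    have z2 := Z_eq (A := A) (show 0 ≤ X 3 + n - X 4 by omega) (show X 3 + n - X 4 ≤ d by omega)
      ones
    refine K.u5 hA hk ?_
    intro j a b
    rw [z2, z1] at b ⊢
    exact anti j a b
  · -- the tile 3 is of type `+`
    have h0 := t.farU hA hk (i := 3) (by norm_num; rw [s3, s5])
    norm_num at h0
    have K := clu_of t hA hk C (by norm_num; omega)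
    have z2 := Z_eq (A := A) (show 0 ≤ X 3 + n - X 4 by omega) (show X 3 + n - X 4 ≤ d by omega)
      ones
    rcases lt_or_ge (X 4) (X 2 + n) with hm | hm
    · -- the tile 2 meets the tile 4: two clusters
      exfalso
      have s2 : S 2 = false := by
        by_contra h
        have := t.farU hA hk (i := 2) (by norm_num; rw [s4]; simpa using h)
        norm_num at this
        omega
      have L := mirror_clu t hA hk (i := 4) s4 (by norm_num; exact s3) (by norm_num; exact s2)
        (by norm_num; exact hm) (by norm_num; omega)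
      norm_num at L
      refine double hA hk K L ?_
      rw [Z_rev hA (by omega) (by omega), z2, show n - (X 4 - X 3) = X 3 + n - X 4 by ring]
      ring
    · have iaa : ∀ j, 0 ≤ j → j < X 3 + n - X 4 → ind A j + ind A (j + (X 4 - X 3)) = 1 := by
        intro j a b
        have h2 := t.cov2 hA (i := 3) (y := X 4 + j) (by norm_num; omega) (by norm_num; omega)
        norm_num at h2
        rw [ip s3, ip s4, show X 4 + j - X 4 = j by ring,
          show X 4 + j - X 3 = j + (X 4 - X 3) by ring] at h2
        omega
      have o1 : ∀ j, X 2 + n - X 3 ≤ j → j < X 4 - X 3 → A j := by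
        intro j a b
        have h2 := t.cov1 hA (i := 3) (y := X 3 + j) (by norm_num; omega) (by norm_num; omega)
        rw [ip s3, show X 3 + j - X 3 = j by ring, ind_iff] at h2
        exact h2
      cases s2 : S 2
      · -- the tile 2 is of type `-`
        have h3 : X 1 + n ≤ X 3 := by
          by_contra hc
          obtain ⟨a1, a2, a3, a4, a5⟩ := t.juncU3 hA hk (i := 2) s2 (by norm_num; exact s3)
            (Or.inr (by norm_num; omega))
          norm_num at a2
          omega
        have anti : ∀ j, 0 ≤ j → j < X 2 + n - X 3 → (A j ↔ ¬ A (X 2 + n - X 3 - 1 - j)) := by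
          intro j a b
          have h2 := t.cov2 hA (i := 2) (y := X 3 + j) (by norm_num; omega) (by norm_num; omega)
          norm_num at h2
          rw [im s2, ip s3, show X 3 + j - X 3 = j by ring,
            show n - 1 - (X 3 + j - X 2) = X 2 + n - X 3 - 1 - j by ring] at h2
          have := one_two h2
          tauto
        have z1 := Z_anti (A := A) (show 0 ≤ X 2 + n - X 3 by omega) anti
        have z3 := Z_eq (A := A) (show 0 ≤ X 2 + n - X 3 by omega)
          (show X 2 + n - X 3 ≤ X 4 - X 3 by omega) o1
        have z4 := Z_n hA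
        have e1 : sm (fun j => ind A j + ind A (j + (X 4 - X 3))) 0 (X 3 + n - X 4) =
            X 3 + n - X 4 - 0 := sm_ones (by omega) iaa
        rw [sm_add, sm_shift, zero_add, show X 3 + n - X 4 + (X 4 - X 3) = n by ring] at e1
        have e2 := sm_split (ind A) (show 0 ≤ X 4 - X 3 by omega) (show X 4 - X 3 ≤ n by omega)
        have e3 := Z_sm A (show 0 ≤ X 4 - X 3 by omega)
        have e4 := Z_sm A (show 0 ≤ X 3 + n - X 4 by omega)
        have e5 := Z_sm A (show 0 ≤ n by omega)
        refine K.u8 hA hk (l := Z A (X 2 + n - X 3)) (u := X 3 + n - X 4) ?_ ?_ ?_ ?_ ?_ ?_ ?_ ones ?_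
        · exact Z_nonneg _ _
        · rw [z1]; exact anti
        · rw [z1]; omega
        · rw [z1]
          intro j a b
          exact o1 j a (by omega)
        · omega
        · omega
        · intro j a b
          have := one_two (iaa j a b)
          rw [show n - (X 3 + n - X 4) + j = j + (X 4 - X 3) by ring]
          exact this
        · omega
      · -- the tile 2 is of type `+`
        exfalso
        have h3 := t.farU hA hk (i := 2) (by norm_num; rw [s2, s4])
        norm_num at h3
        have hth := K.th
        have he0 := K.e0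
        have hd0 := K.dpos
        have g1 : n - d ≤ X 2 + n - X 3 := by
          by_contra hc
          have h4 := o1 (n - 1 - d) (by omega) (by omega)
          have h5 := t.dis (show (4:ℤ) ≠ 5 by norm_num) (X 4 + (n - 1))
          rw [ip s4, ip s5, show X 4 + (n - 1) - X 4 = n - 1 by ring,
            show X 4 + (n - 1) - X 5 = n - 1 - d by omega, i1, ind_of h4] at h5
          omega
        have g2 : d ≤ X 3 - X 2 := by
          by_contra hc
          have h4 := ones (X 3 - X 2) (by omega) (by omega)
          have h5 := t.dis (show (2:ℤ) ≠ 3 by norm_num) (X 3)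
          rw [ip s2, ip s3, show X 3 - X 3 = 0 by ring, i0, ind_of h4] at h5
          omega
        have g3 : X 3 - X 2 = d := by omega
        rcases lt_or_ge (X 3) (X 1 + n) with hm2 | hm2
        · have s1 : S 1 = false := by
            by_contra h
            have := t.farU hA hk (i := 1) (by norm_num; rw [s3]; simpa using h)
            norm_num at this
            omega
          have L := mirror_clu t hA hk (i := 3) s3 (by norm_num; exact s2)
            (by norm_num; exact s1) (by norm_num; exact hm2) (by norm_num; omega)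
          norm_num at L
          rw [g3] at L
          exact K.same hA hk L
        · have h6 := t.cov2 hA (i := 2) (y := X 3 + e) (by norm_num; omega) (by norm_num; omega)
          norm_num at h6
          rw [ip s2, ip s3, show X 3 + e - X 3 = e by ring,
            show X 3 + e - X 2 = e + d by omega] at h6
          have h7 := K.b e le_rfl (by omega)
          rw [show e + n - 1 - e = n - 1 by ring] at h7
          have h8 := hA.z1
          have h9 : ¬ A e := by tauto
          have h10 : ¬ A (e + d) := by tauto
          rw [ind_not h9, ind_not h10] at h6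
          omega

/-- a tiling that is not clean -/
theorem unclean (t : Til n A X S) (hA : Shp n k A) (hk : n < 2 * k) {i : ℤ}
    (h : X (i + 2) < X i + n) : Cc k A := by
  have key : ∀ (B : ℤ → Prop) (R : ℤ → Bool), Shp n k B → Til n B X R →
      (∃ c d e, Cl n X R c d e) → Cc k B := by
    rintro B R hB u ⟨c, d, e, C⟩
    refine cc_of_cl (d := d) (e := e) (u.shiftU (c - 4)) hB hk ?_
    refine ⟨?_, ?_, ?_, ?_, ?_, ?_, ?_, C.m⟩
    · show R (4 + (c - 4)) = true
      rw [show 4 + (c - 4) = c by ring]; exact C.s0
    · show R (4 + 1 + (c - 4)) = true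
      rw [show 4 + 1 + (c - 4) = c + 1 by ring]; exact C.s1
    · show R (4 + 2 + (c - 4)) = false
      rw [show 4 + 2 + (c - 4) = c + 2 by ring]; exact C.s2
    · show R (4 + 3 + (c - 4)) = false
      rw [show 4 + 3 + (c - 4) = c + 3 by ring]; exact C.s3
    · show X (4 + 1 + (c - 4)) = X (4 + (c - 4)) + d
      rw [show 4 + 1 + (c - 4) = c + 1 by ring, show 4 + (c - 4) = c by ring]; exact C.x1
    · show X (4 + 2 + (c - 4)) = X (4 + (c - 4)) + d + e
      rw [show 4 + 2 + (c - 4) = c + 2 by ring, show 4 + (c - 4) = c by ring]; exact C.x2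
    · show X (4 + 3 + (c - 4)) = X (4 + (c - 4)) + 2 * d + e
      rw [show 4 + 3 + (c - 4) = c + 3 by ring, show 4 + (c - 4) = c by ring]; exact C.x3
  rcases exists_clU t hA hk h with h1 | h1
  · exact key A S hA t h1
  · exact cc_rev (key (MPae024f.DS.rev n A) (fun i => !S i) hA.rev t.rev h1)

end MPae024f.DS
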