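import Mathlib
import Pool.Agent.Lib.MP_ae024f_co.DS.Un3
import Pool.Agent.Lib.MP_ae024f_co.DS.Un4

section
/-! Dense sets: the walk of a clean tiling; the theorem for clean tilings. -/
namespace MPae024f.DS

variable {n k : ℤ} {A : ℤ → Prop} {X : ℤ → ℤ} {S : ℤ → Bool}

theorem arr_of_pp (t : Til n A X S) (hA : Shp n k A) (hc : Clean n X) {i : ℤ} (h1 : S i = true)
    (h2 : S (i + 1) = true) : Arr n k A (L n A X S i) (L n A X S (i + 1)) ∧
      ul n k (L n A X S i) (L n A X S (i + 1)) = ov n X i := by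
  have hu : ul n k (L n A X S i) (L n A X S (i + 1)) = ov n X i := by
    rw [t.ov_eq hA i]; rfl
  have b1 := t.ZL hA hc h2
  rw [show i + 1 - 1 = i by ring] at b1
  refine ⟨⟨?_, ?_, ?_, ?_, ?_⟩, hu⟩
  · rw [hu]; exact t.ov_nonneg hA i
  · rw [hu]; exact t.ov_lt i
  · rw [hu]; exact t.pp hA hc h1 h2
  · rw [hu]; exact b1
  · rw [hu]; exact t.ZR hA hc h1

theorem lc_of_mp (t : Til n A X S) (hA : Shp n k A) (hc : Clean n X) {i : ℤ} (h1 : S i = false)
    (h2 : S (i + 1) = true) : LC A (L n A X S (i + 1)) ∧ ov n X i = 2 * L n A X S (i + 1) := by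
  have a1 := t.mp hA hc h1 h2
  have c1 := t.ov_nonneg hA i
  have d1 := Z_anti c1 a1
  have b1 := t.ZL hA hc h2
  rw [show i + 1 - 1 = i by ring] at b1
  have e : ov n X i = 2 * L n A X S (i + 1) := by omega
  refine ⟨⟨Til.L_nonneg n A X S _, fun j h3 h4 => ?_⟩, e⟩
  have := a1 j h3 (by omega)
  rwa [e] at this

theorem rc_of_pm (t : Til n A X S) (hA : Shp n k A) (hc : Clean n X) {i : ℤ} (h1 : S i = true)
    (h2 : S (i + 1) = false) :
    RC n k A (L n A X S i) ∧ ov n X i = 2 * (n - k - L n A X S i) := by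
  have a2 := t.pm hA hc h1 h2
  have b2 := t.ZR hA hc h1
  have c2 := t.ov_nonneg hA i
  have c3 := t.ov_lt i
  have d2 : 2 * Z (rev n A) (ov n X i) = ov n X i := by
    apply Z_anti c2
    intro j h3 h4
    have := a2 j h3 h4
    unfold rev
    rw [show n - 1 - (ov n X i - 1 - j) = n - ov n X i + j by ring]
    exact this
  rw [Z_rev hA c2 (by omega)] at d2
  have e : ov n X i = 2 * (n - k - L n A X S i) := by omega
  refine ⟨⟨t.L_le hA i, fun j h3 h4 => ?_⟩, e⟩
  have := a2 (n - 1 - j) (by omega) (by omega)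
  rw [show n - 1 - (n - 1 - j) = j by ring] at this
  rw [show 2 * n - 2 * (n - k - L n A X S i) - 1 - j = n - ov n X i + (n - 1 - j) by omega]
  exact this

theorem bool_ne_true {b : Bool} (h : ¬ b = true) : b = false := by
  cases b
  · rfl
  · exact absurd rfl h

/-- a run of `+` that ends on the right -/
theorem main_run (lemma2 : Lemma2) (t : Til n A X S) (hA : Shp n k A) (hc : Clean n X)
    (hk : n < 2 * k) {e : ℤ} (h1 : S e = true) (h2 : S (e + 1) = false) : Cc k A := by
  have hkp := hA.kpos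
  obtain ⟨r1, r2⟩ := rc_of_pm t hA hc h1 h2
  have cl : ∀ i, ov n X (i - 1) + ov n X i ≤ n := fun i => Til.ov_add hc i
  by_cases g1 : S (e - 1) = true
  swap
  · obtain ⟨l1, -⟩ := lc_of_mp t hA hc (i := e - 1) (bool_ne_true g1)
      (by rw [show e - 1 + 1 = e by ring]; exact h1)
    rw [show e - 1 + 1 = e by ring] at l1
    exact cc_of_MM hkp (mm_of_lr hA hk l1 r1)
  obtain ⟨p1, q1⟩ := arr_of_pp t hA hc g1 (by rw [show e - 1 + 1 = e by ring]; exact h1)
  rw [show e - 1 + 1 = e by ring] at p1 q1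
  have s1 := cl e
  by_cases g2 : S (e - 2) = true
  swap
  · obtain ⟨l1, l2⟩ := lc_of_mp t hA hc (i := e - 2) (bool_ne_true g2)
      (by rw [show e - 2 + 1 = e - 1 by ring]; exact g1)
    rw [show e - 2 + 1 = e - 1 by ring] at l1 l2
    have s2 := cl (e - 1)
    rw [show e - 1 - 1 = e - 2 by ring] at s2
    exact lemma2 n k A hA hk _ _ l1 p1 r1 (by omega) (by omega)
  obtain ⟨p2, q2⟩ := arr_of_pp t hA hc g2 (by rw [show e - 2 + 1 = e - 1 by ring]; exact g1)
  rw [show e - 2 + 1 = e - 1 by ring] at p2 q2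
  have s2 := cl (e - 1)
  rw [show e - 1 - 1 = e - 2 by ring] at s2
  by_cases g3 : S (e - 3) = true
  swap
  · obtain ⟨l1, l2⟩ := lc_of_mp t hA hc (i := e - 3) (bool_ne_true g3)
      (by rw [show e - 3 + 1 = e - 2 by ring]; exact g2)
    rw [show e - 3 + 1 = e - 2 by ring] at l1 l2
    have s3 := cl (e - 2)
    rw [show e - 2 - 1 = e - 3 by ring] at s3
    exact lemma3 hA hk l1 p2 p1 r1 (by omega) (by omega) (by omega)
  obtain ⟨p3, q3⟩ := arr_of_pp t hA hc g3 (by rw [show e - 3 + 1 = e - 2 by ring]; exact g2)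
  rw [show e - 3 + 1 = e - 2 by ring] at p3 q3
  have s3 := cl (e - 2)
  rw [show e - 2 - 1 = e - 3 by ring] at s3
  exact cc_of_three hA hk p3 p2 p1 (by omega) (by omega)

theorem main_clean (lemma2 : Lemma2) (t : Til n A X S) (hA : Shp n k A) (hc : Clean n X)
    (hk : n < 2 * k) : Cc k A := by
  have cl : ∀ i, ov n X (i - 1) + ov n X i ≤ n := fun i => Til.ov_add hc i
  -- four equal spins
  have four : ∀ {A : ℤ → Prop} {S : ℤ → Bool}, Til n A X S → Shp n k A → (∀ i, S i = true) →
      Cc k A := by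
    intro A S t hA h
    obtain ⟨p1, q1⟩ := arr_of_pp t hA hc (h 0) (h (0 + 1))
    obtain ⟨p2, q2⟩ := arr_of_pp t hA hc (h (0 + 1)) (h (0 + 1 + 1))
    obtain ⟨p3, q3⟩ := arr_of_pp t hA hc (h (0 + 1 + 1)) (h (0 + 1 + 1 + 1))
    have s1 := cl (0 + 1)
    have s2 := cl (0 + 1 + 1)
    rw [show (0 : ℤ) + 1 - 1 = 0 by ring] at s1
    rw [show (0 : ℤ) + 1 + 1 - 1 = 0 + 1 by ring] at s2
    exact cc_of_three hA hk p1 p2 p3 (by omega) (by omega)
  by_cases h : ∃ e, S e ≠ S (e + 1)
  · obtain ⟨e, he⟩ := h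
    cases h1 : S e
    · -- `(-,+)`: reverse the shape
      have h2 : S (e + 1) = true := by
        rw [h1] at he
        cases h3 : S (e + 1)
        · exact absurd h3.symm he
        · rfl
      apply cc_rev (n := n)
      exact main_run lemma2 t.rev hA.rev hc hk (e := e) (by simp [h1]) (by simp [h2])
    · have h2 : S (e + 1) = false := by
        rw [h1] at he
        cases h3 : S (e + 1)
        · rfl
        · exact absurd h3.symm he
      exact main_run lemma2 t hA hc hk h1 h2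
  · push Not at h
    have hconst : ∀ i, S i = S 0 := by
      intro i
      induction i using Int.induction_on with
      | zero => rfl
      | succ m ih => rw [← h, ih]
      | pred m ih =>
        have := h (-(m : ℤ) - 1)
        rw [show -(m : ℤ) - 1 + 1 = -m by ring] at this
        rw [this, ih]
    cases h0 : S 0
    · apply cc_rev (n := n)
      exact four t.rev hA.rev (fun i => by show (!S i) = true; rw [hconst, h0]; rfl)
    · exact four t hA (fun i => by rw [hconst, h0])

end MPae024f.DS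
end

section
/-! Dense sets: the theorem. -/
namespace MPae024f.DS

variable {n k : ℤ} {A : ℤ → Prop} {X : ℤ → ℤ} {S : ℤ → Bool}

/-- a shape in an interval with fewer than `2 k` integers that has a tiling satisfies (C) -/
theorem main_til (t : Til n A X S) (hA : Shp n k A) (hk : n < 2 * k) : Cc k A := by
  by_cases hc : Clean n X
  · exact main_clean lemma2 t hA hc hk
  · unfold Clean at hc
    push Not at hc
    obtain ⟨i, hi⟩ := hc
    exact unclean t hA hk hi

/-- THE THEOREM for finite sets in an interval with `n < 2 |A|` integers -/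
theorem dense (A : Finset ℤ) (hne : A.Nonempty) {m n : ℤ}
    (hsub : ∀ a ∈ A, m ≤ a ∧ a < m + n) (hn : n < 2 * A.card) :
    (∃ P Q, PQ (A : Set ℤ) P Q) ↔
      ∃ t, Two A.card t (fun a => a ∈ A) ∨ Mir A.card t (fun a => a ∈ A) := by
  have hk : 0 < A.card := Finset.card_pos.2 hne
  constructor
  · intro h
    obtain ⟨m₀, n₀, X, S, h1, hA, t⟩ := exists_til A hne hsub h
    obtain ⟨s, h2 | h2⟩ := main_til t hA (by omega)
    · obtain ⟨s', h3⟩ := two_shift (m₀ := m₀) (A := A) ⟨s, h2⟩
      exact ⟨s', Or.inl h3⟩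
    · obtain ⟨s', h3⟩ := mir_shift (m₀ := m₀) (A := A) ⟨s, h2⟩
      exact ⟨s', Or.inr h3⟩
  · rintro ⟨s, h | h⟩
    · exact pq_of_two hk A rfl h
    · exact pq_of_mir hk A rfl h

end MPae024f.DS
end
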